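import Pool.Agent.Y916.HStm

/-!
# Several hyperelliptic curves, differentials of the third kind: definitions and statements of the parts

For a polynomial `P` of odd degree `n` with positive leading coefficient (no condition on its multiple roots; in the
application `P = F q²` with `F`, `q` square-free and coprime) the integrals `∫ x^j dx / √P(x)` at `x = t + g` are, up to a
constant and an algebraic factor, the values at `z = 1 / t` of the power series `U` with
`2 z U' + (n - 2 - 2 j) U = 2 (1 + g z)^j Rt (phi P g)` (see `Y916/HStm.lean`).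
-/

set_option autoImplicit false

open PowerSeries

namespace Pool.Agent.Y916.Sa

open Pool.Agent.Y113 Pool.Agent.Y916.Hy

/-- odd degree, positive leading coefficient -/
structure GoodO (P : Polynomial ℤ) : Prop where
  odd : Odd P.natDegree
  deg : 3 ≤ P.natDegree
  pos : 0 < P.leadingCoeff

/-- the curve `y² = F(x)` and the poles `q(x) = 0` -/
structure GoodP (F q : Polynomial ℤ) : Prop where
  sf : Squarefree (F.map (Int.castRingHom ℚ))
  odd : Odd F.natDegree
  pos : 0 < F.leadingCoeff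
  qsf : Squarefree (q.map (Int.castRingHom ℚ))
  qpos : 0 < q.leadingCoeff
  cop : IsCoprime (F.map (Int.castRingHom ℚ)) (q.map (Int.castRingHom ℚ))
  deg : 3 ≤ F.natDegree + 2 * q.natDegree

/-- no two of the curves are equal up to a translation by an integer -/
def Dist {s : ℕ} (F : Fin s → Polynomial ℤ) : Prop :=
  ∀ a b, a ≠ b → ∀ (h : ℤ) (c₁ c₂ : ℤ), c₁ ≠ 0 → c₂ ≠ 0 →
    Polynomial.C c₁ * F a ≠ Polynomial.C c₂ * (F b).comp (Polynomial.X + Polynomial.C h)

/-- the indices of the functions with a given shift -/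
abbrev Tau {s : ℕ} (m : Fin s → ℕ) : Type := (Σ a, Fin (m a)) ⊕ Unit

/-- the functions with shift `g`: integrals `j < m a` for the polynomials `P a`, and `log (1 + g z)` -/
noncomputable def Yg {s : ℕ} (P : Fin s → Polynomial ℤ) (m : Fin s → ℕ) (g : ℕ) : Tau m → ℚ⟦X⟧
  | Sum.inl aj => EU (((P aj.1).natDegree : ℤ) - 2 - 2 * (aj.2 : ℕ))
      ((1 + C (g : ℚ) * X) ^ (aj.2 : ℕ) * Rt (phi (P aj.1) g))
  | Sum.inr _ => PowerSeries.mk fun i => - ((-(g : ℚ)) ^ i / i)

/-- `φ(0) φ` is a square of a polynomial over `ℚ` -/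
def Sqr (φ : Polynomial ℤ) : Prop :=
  IsSquare (Polynomial.C ((φ.coeff 0 : ℤ) : ℚ) * φ.map (Int.castRingHom ℚ))

/-- functional independence: for some set `J` of square roots which generates all of them, the products of the monomials
in the integrals and the products of the roots in `J` are linearly independent over the polynomials -/
def LI {s : ℕ} (P : Fin s → Polynomial ℤ) (m : Fin s → ℕ) : Prop :=
  ∀ (N : ℕ) (g : Fin N → ℕ), Function.Injective g → (∀ l, 1 ≤ g l) →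
    ∃ J : Finset (Fin s × Fin N),
      (∀ i : Fin s × Fin N, ∃ T : Finset (Fin s × Fin N), T ⊆ J ∧
        Sqr (phi (P i.1) (g i.2) * ∏ j ∈ T, phi (P j.1) (g j.2))) ∧
      LinearIndependent (Polynomial ℚ)
        (fun p : {T : Finset (Fin s × Fin N) // T ⊆ J} × (Fin N × Tau m →₀ ℕ) =>
          (∏ i ∈ p.1.1, Rt (phi (P i.1) (g i.2))) * p.2.prod fun x e => Yg P m (g x.1) x.2 ^ e)

/-- (KAP) bounds for the relations between the square roots -/
def S_kap : Prop := ∀ n N : ℕ, ∃ E : ℕ, ∀ (H : ℕ) (ι : Type) [Fintype ι] (T : Finset ι) (i : ι)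
  (Φ : ι → Polynomial ℤ), Fintype.card ι ≤ N →
  (∀ j, 0 < (Φ j).coeff 0 ∧ (Φ j).natDegree ≤ n ∧ ∀ l, |(Φ j).coeff l| ≤ H) → Sqr (Φ i * ∏ j ∈ T, Φ j) →
  ∃ (M : ℤ) (W : Polynomial ℤ), 0 < M ∧ M ≤ ((H : ℤ) + 2) ^ E ∧ W.natDegree ≤ E ∧
    (∀ l, |W.coeff l| ≤ ((H : ℤ) + 2) ^ E) ∧
    ps (Polynomial.C M * Φ i) * Rt (Φ i) = ps W * ∏ j ∈ T, Rt (Φ j)

/-- (VALS) the values at `1 / t` have no polynomial relation of degree at most `Δ` over `ℚ` -/
def S_vals : Prop := ∀ (s : ℕ) (P : Fin s → Polynomial ℤ) (m : Fin s → ℕ),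
  (∀ a, GoodO (P a) ∧ m a < (P a).natDegree) → LI P m → ∀ N Δ : ℕ, ∃ E : ℕ, ∀ H t : ℕ, (H + 2) ^ E ≤ t →
  ∀ g : Fin N → ℕ, Function.Injective g → (∀ l, 1 ≤ g l ∧ g l ≤ H) →
  ∀ Q : MvPolynomial (Fin N × Tau m) ℚ, Q.totalDegree ≤ Δ →
    MvPolynomial.aeval (fun x => ev t (Yg P m (g x.1) x.2)) Q = 0 → Q = 0

/-- (LIS) functional independence for several curves with poles -/
def S_lis : Prop := ∀ (s : ℕ) (F q : Fin s → Polynomial ℤ), (∀ a, GoodP (F a) (q a)) → Dist F →
  LI (fun a => F a * q a ^ 2) (fun a => (F a).natDegree - 1 + (q a).natDegree)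

/-- (HEVO) the values of the integrals, for polynomials with multiple roots -/
def S_hevo : Prop := ∀ (P : Polynomial ℤ), GoodO P → ∀ c : ℝ, (∀ x ≥ c, 0 < (P.map (Int.castRingHom ℝ)).eval x) →
  ∃ (κ : ℕ → ℝ) (E : ℕ), ∀ H t : ℕ, (H + 2) ^ E ≤ t → ∀ g ≤ H, ∀ j : ℕ, j < P.natDegree - 1 →
    J P c j (t + g) = κ j - √(t : ℝ) ^ (2 * (j : ℤ) + 2 - P.natDegree) *
      ev t (EU ((P.natDegree : ℤ) - 2 - 2 * j) ((1 + C (g : ℚ) * X) ^ j * Rt (phi P g))) /
      √(P.leadingCoeff : ℝ)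

end Pool.Agent.Y916.Sa
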