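import Pool.Agent.Y574.HE.D
import Pool.Agent.Y916.SStm

/-!
# The values of the integrals for polynomials with multiple roots (adapted from helper574's `Y574/HE`)
-/

set_option autoImplicit false

open PowerSeries Filter Topology Set

namespace Pool.Agent.Y916.Sa

open Pool.Agent.Y113 Pool.Agent.Y916.Hy Pool.Agent.Y37.GF
open Pool.Agent.Y574.HE (J_deriv E_S Rt_val W_deriv no_const SR_EU phi_bound phi_zero phi_deg analyticAt_E)

theorem odd_al {F : Polynomial ℤ} (hF : GoodO F) (j : ℕ) : Odd ((F.natDegree : ℤ) - 2 - 2 * (j : ℕ)) := by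
  obtain ⟨k, hk⟩ := hF.odd
  exact ⟨(k : ℤ) - 1 - j, by rw [hk]; push_cast; ring⟩

theorem const (hrt : S_rt) {F : Polynomial ℤ} (hF : GoodO F) (c : ℝ)
    (hc : ∀ x ≥ c, 0 < (F.map (Int.castRingHom ℝ)).eval x) (g : ℕ) (j : Fin (F.natDegree - 1)) {r T : ℝ}
    (hR : SR r (Rt (phi F g))) (hT : 0 < T) (hcT : c ≤ T) (hTr : 1 / T ≤ r) :
    ∃ κ : ℝ, ∀ t > T, J F c j (t + g) = κ - √t ^ (2 * ((j : ℕ) : ℤ) + 2 - F.natDegree) *
      E (Yf F g (Sum.inl j)) (1 / t) / √(F.leadingCoeff : ℝ) := by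
  have ha : (0 : ℝ) < (F.leadingCoeff : ℝ) := by exact_mod_cast hF.pos
  have hsa : 0 < √(F.leadingCoeff : ℝ) := Real.sqrt_pos.2 ha
  set α : ℤ := (F.natDegree : ℤ) - 2 - 2 * (j : ℕ) with hα
  have hodd : Odd α := odd_al hF j
  set D : ℝ → ℝ := fun t => J F c j (t + g) + (√t ^ (-α) *
    E (EU α ((1 + C (g : ℚ) * X) ^ (j : ℕ) * Rt (phi F g))) (1 / t)) / √(F.leadingCoeff : ℝ) with hD
  have hder : ∀ t > T, HasDerivAt D 0 t := by
    intro t ht
    have ht0 : 0 < t := hT.trans ht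
    have htr : 1 / t < r := lt_of_lt_of_le (one_div_lt_one_div_of_lt hT ht) hTr
    have hz : 0 < 1 / t := by positivity
    have hg : (0 : ℝ) ≤ g := Nat.cast_nonneg g
    have hpos := hc (t + g) (by linarith)
    have h1 : HasDerivAt (fun t : ℝ => J F c j (t + g))
        ((t + g) ^ (j : ℕ) / √((F.map (Int.castRingHom ℝ)).eval (t + g))) t := by
      have := (J_deriv F c hc j (x := t + g) (by linarith)).comp_add_const t (g : ℝ)
      exact this
    obtain ⟨hS1, hS2⟩ := E_S (g := g) (j := j) (z := 1 / t) hR (by rw [abs_of_pos hz]; exact htr.le)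
    have h2 := (W_deriv hodd hS1 ht0 htr).div_const √(F.leadingCoeff : ℝ)
    refine (h1.add h2).congr_deriv ?_
    rw [hS2, Rt_val hrt hF.pos g hR ht0 htr hpos]
    have hs : 0 < √t := Real.sqrt_pos.2 ht0
    have hsF : 0 < √((F.map (Int.castRingHom ℝ)).eval (t + g)) := Real.sqrt_pos.2 hpos
    have hsq : √t ^ 2 = t := Real.sq_sqrt ht0.le
    have z1 : √t ^ (-α - 2) * √t ^ F.natDegree = t ^ (j : ℕ) := by
      calc √t ^ (-α - 2) * √t ^ F.natDegree = √t ^ (-α - 2) * √t ^ (F.natDegree : ℤ) := by rw [zpow_natCast]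
        _ = √t ^ (-α - 2 + F.natDegree) := (zpow_add₀ hs.ne' _ _).symm
        _ = √t ^ (((2 * (j : ℕ) : ℕ)) : ℤ) := by congr 1; rw [hα]; push_cast; ring
        _ = √t ^ (2 * (j : ℕ)) := by rw [zpow_natCast]
        _ = t ^ (j : ℕ) := by rw [pow_mul, hsq]
    have z2 : (1 + g * (1 / t)) ^ (j : ℕ) * t ^ (j : ℕ) = (t + g) ^ (j : ℕ) := by
      rw [← mul_pow]
      congr 1
      field_simp
    rw [← z2, ← z1]
    field_simp
    ring
  have hconst : ∀ t > T, D t = D (T + 1) := by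
    intro t ht
    refine isOpen_Ioi.is_const_of_deriv_eq_zero (s := Ioi T) isPreconnected_Ioi ?_ ?_ ht
      (by simp)
    · intro s hs
      exact (hder s hs).differentiableAt.differentiableWithinAt
    · intro s hs
      exact (hder s hs).deriv
  refine ⟨D (T + 1), fun t ht => ?_⟩
  have h1 := hconst t ht
  have h2 : (2 * ((j : ℕ) : ℤ) + 2 - F.natDegree) = -α := by rw [hα]; ring
  rw [h2, ← h1, hD]
  show _ = J F c j (t + g) + _ / _ - _ * E (EU _ _) _ / _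
  rw [← hα]
  ring

theorem SR_Yf {F : Polynomial ℤ} (hF : GoodO F) {g : ℕ} {r : ℝ} (hr : 0 ≤ r) (hR : SR r (Rt (phi F g)))
    (j : Fin (F.natDegree - 1)) : SR r (Yf F g (Sum.inl j)) :=
  SR_EU (odd_al hF j) hr (E_S (g := g) (j := j) (z := 0) hR (by rw [abs_zero]; exact hr)).1

theorem t_hevo (hrt : S_rt) (halg : S_alg) : S_hevo := by
  intro F hF c hc
  obtain ⟨E0, hE0⟩ := halg F.natDegree
  obtain ⟨K, hK⟩ := phi_bound F
  -- convergence
  set E1 : ℕ := (K + 2) * E0 + 1 + ⌈|c|⌉₊ with hE1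
  have hSR : ∀ H g : ℕ, g ≤ H → SR (1 / ((H : ℝ) + 2) ^ E1) (Rt (phi F g)) := by
    intro H g hg
    have h1 := hE0 ((H + 2) ^ K) (phi F g) (by rw [phi_zero]; exact hF.pos) (phi_deg F g) (hK H g hg)
    have h2 : ∀ m, |((coeff m (Rt (phi F g)) : ℚ) : ℝ)| ≤ ((((H + 2) ^ K : ℕ) : ℝ) + 2) ^ E0 *
        (((((H + 2) ^ K : ℕ) : ℝ) + 2) ^ E0) ^ m := by
      intro m
      have h3 := h1.size true m
      rw [pow_succ, mul_comm] at h3
      exact h3
    have hb : (2 : ℝ) ≤ (H : ℝ) + 2 := by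
      have : (0 : ℝ) ≤ H := Nat.cast_nonneg H
      linarith
    have h4 : (((H + 2) ^ K : ℕ) : ℝ) + 2 ≤ ((H : ℝ) + 2) ^ (K + 2) := by
      push_cast
      have e1 : (1 : ℝ) ≤ ((H : ℝ) + 2) ^ K := one_le_pow₀ (by linarith)
      have e2 : (4 : ℝ) ≤ ((H : ℝ) + 2) ^ 2 := by nlinarith
      rw [pow_add]
      nlinarith
    have hpos : (0 : ℝ) < ((H : ℝ) + 2) ^ E1 := by positivity
    refine SR.of_bound (by positivity) (by positivity) ?_ h2
    rw [mul_one_div, div_lt_one hpos]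
    calc ((((H + 2) ^ K : ℕ) : ℝ) + 2) ^ E0 ≤ (((H : ℝ) + 2) ^ (K + 2)) ^ E0 := by
          refine pow_le_pow_left₀ (by positivity) h4 _
      _ = ((H : ℝ) + 2) ^ ((K + 2) * E0) := by rw [← pow_mul]
      _ < ((H : ℝ) + 2) ^ E1 := pow_lt_pow_right₀ (by linarith) (by omega)
  have hcE : ∀ H : ℕ, c ≤ ((H : ℝ) + 2) ^ E1 := by
    intro H
    have hb : (2 : ℝ) ≤ (H : ℝ) + 2 := by
      have : (0 : ℝ) ≤ H := Nat.cast_nonneg H
      linarith
    have e1 : c ≤ (⌈|c|⌉₊ : ℝ) := (le_abs_self c).trans (Nat.le_ceil _)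
    have e2 : (⌈|c|⌉₊ : ℝ) ≤ 2 ^ ⌈|c|⌉₊ := by exact_mod_cast (Nat.lt_two_pow_self (n := ⌈|c|⌉₊)).le
    have e3 : (2 : ℝ) ^ ⌈|c|⌉₊ ≤ ((H : ℝ) + 2) ^ ⌈|c|⌉₊ := pow_le_pow_left₀ (by norm_num) hb _
    have e4 : ((H : ℝ) + 2) ^ ⌈|c|⌉₊ ≤ ((H : ℝ) + 2) ^ E1 := pow_le_pow_right₀ (by linarith) (by omega)
    linarith
  have key : ∀ H g : ℕ, g ≤ H → ∀ j : Fin (F.natDegree - 1), ∃ κ : ℝ, ∀ t > ((H : ℝ) + 2) ^ E1,
      J F c j (t + g) = κ - √t ^ (2 * ((j : ℕ) : ℤ) + 2 - F.natDegree) *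
        E (Yf F g (Sum.inl j)) (1 / t) / √(F.leadingCoeff : ℝ) := fun H g hg j =>
    const hrt hF c hc g j (hSR H g hg) (by positivity) (hcE H) le_rfl
  classical
  refine ⟨fun j => if h : j < F.natDegree - 1 then (key 0 0 le_rfl ⟨j, h⟩).choose else 0, E1 + 1,
    fun H t ht g hg j' hj' => ?_⟩
  obtain ⟨j, rfl⟩ : ∃ j : Fin (F.natDegree - 1), (j : ℕ) = j' := ⟨⟨j', hj'⟩, rfl⟩
  obtain ⟨κ, hκ⟩ := key H g hg j
  have hκ0 := (key 0 0 le_rfl j).choose_spec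
  have hdef : (if h : (j : ℕ) < F.natDegree - 1 then (key 0 0 le_rfl ⟨j, h⟩).choose else 0) =
      (key 0 0 le_rfl j).choose := by rw [dif_pos j.2]
  show _ = (if h : (j : ℕ) < F.natDegree - 1 then (key 0 0 le_rfl ⟨j, h⟩).choose else 0) - _
  rw [hdef]
  set κ0 := (key 0 0 le_rfl j).choose with hκ0d
  have ha : (0 : ℝ) < (F.leadingCoeff : ℝ) := by exact_mod_cast hF.pos
  have hsa : 0 < √(F.leadingCoeff : ℝ) := Real.sqrt_pos.2 ha
  have hH0 : (0 : ℝ) ≤ H := Nat.cast_nonneg H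
  have hT : (0 : ℝ) < ((H : ℝ) + 2) ^ E1 := by positivity
  have hT0 : (((0 : ℕ) : ℝ) + 2) ^ E1 ≤ ((H : ℝ) + 2) ^ E1 := by
    refine pow_le_pow_left₀ (by positivity) ?_ _
    push_cast; linarith
  have hg0 : (0 : ℝ) ≤ g := Nat.cast_nonneg g
  have hR0 := (hSR H g hg)
  have hu := analyticAt_E (by positivity) (SR_Yf hF (by positivity) (hSR H g hg) j)
  have hv := analyticAt_E (by positivity) (SR_Yf hF (by positivity) (hSR H 0 (Nat.zero_le _)) j)
  have hnc := no_const hu hv (odd_al hF j) g (T := ((H : ℝ) + 2) ^ E1) (K := √(F.leadingCoeff : ℝ) * (κ - κ0)) hT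
    (by
      intro t ht
      have e1 := hκ t ht
      have e2 := hκ0 (t + g) (by linarith)
      rw [show (((0 : ℕ) : ℕ) : ℝ) = 0 from Nat.cast_zero, add_zero] at e2
      have e3 : (-((F.natDegree : ℤ) - 2 - 2 * (j : ℕ))) = (2 * ((j : ℕ) : ℤ) + 2 - F.natDegree) := by ring
      rw [e3]
      rw [e1] at e2
      field_simp at e2
      linarith)
  have hkk : κ = κ0 := by
    rcases mul_eq_zero.1 hnc with h | h
    · exact absurd h hsa.ne'
    · linarith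
  have ht' : ((H : ℝ) + 2) ^ E1 < (t : ℝ) := by
    have e1 : ((H : ℝ) + 2) ^ (E1 + 1) ≤ (t : ℝ) := by exact_mod_cast ht
    have e2 : ((H : ℝ) + 2) ^ E1 < ((H : ℝ) + 2) ^ (E1 + 1) := pow_lt_pow_right₀ (by linarith) (by omega)
    linarith
  rw [← hkk]
  exact hκ t ht'

end Pool.Agent.Y916.Sa
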