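import Pool.Agent.Y113.P.SD
import Mathlib.Analysis.SpecialFunctions.Elliptic.Weierstrass

/-!
# Hyperelliptic integrals at integers (MP_c9768e_nt): definitions and statements of the parts

`F` is a square-free integer polynomial of odd degree `n ≥ 3` with positive leading coefficient `a`. For a natural number
`g` let `phi F g = z^n F(1/z + g)` and `Rt (phi F g) = √(a / phi F g)`, a power series with constant coefficient `1`. The
integrals `∫ x^j dx / √F(x)`, `j < n - 1`, at `x = t + g` are, up to a constant and an algebraic factor, the values at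
`z = 1 / t` of the power series `U` with `2 z U' + (n - 2 - 2 j) U = 2 (1 + g z)^j Rt (phi F g)`.
-/

set_option autoImplicit false

open PowerSeries

namespace Pool.Agent.Y916.Hy

open Pool.Agent.Y113

/-- `z^n F(1/z + g)`, `n = deg F` -/
noncomputable def phi (F : Polynomial ℤ) (g : ℕ) : Polynomial ℤ :=
  (F.comp (Polynomial.X + Polynomial.C (g : ℤ))).reverse

/-- the power series `√(φ(0) / φ)` with constant coefficient `1` -/
noncomputable def Rt (φ : Polynomial ℤ) : ℚ⟦X⟧ := by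
  classical
  exact if h : ∃ R : ℚ⟦X⟧, R ^ 2 * ps φ = C ((φ.coeff 0 : ℤ) : ℚ) ∧ constantCoeff R = 1 then h.choose else 0

/-- the solution `h` of `2 z h' + a h = 2 R` (`a` odd) -/
noncomputable def EU (a : ℤ) (R : ℚ⟦X⟧) : ℚ⟦X⟧ := PowerSeries.mk fun m => 2 * coeff m R / (2 * (m : ℚ) + a)

/-- the functions with shift `g`: hyperelliptic integrals `j < n - 1`, and `log (1 + g z)` -/
noncomputable def Yf (F : Polynomial ℤ) (g : ℕ) : Fin (F.natDegree - 1) ⊕ Unit → ℚ⟦X⟧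
  | Sum.inl j => EU ((F.natDegree : ℤ) - 2 - 2 * (j : ℕ)) ((1 + C (g : ℚ) * X) ^ (j : ℕ) * Rt (phi F g))
  | Sum.inr _ => PowerSeries.mk fun m => - ((-(g : ℚ)) ^ m / m)

/-- the hypotheses on `F` -/
structure Good (F : Polynomial ℤ) : Prop where
  sf : Squarefree (F.map (Int.castRingHom ℚ))
  odd : Odd F.natDegree
  deg : 3 ≤ F.natDegree
  pos : 0 < F.leadingCoeff

/-- (RT) the square root exists -/
def S_rt : Prop := ∀ φ : Polynomial ℤ, 0 < φ.coeff 0 →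
  Rt φ ^ 2 * ps φ = C ((φ.coeff 0 : ℤ) : ℚ) ∧ constantCoeff (Rt φ) = 1

/-- (ALG) `1, √(φ(0) / φ)` form a G-system -/
def S_alg : Prop := ∀ n : ℕ, ∃ E : ℕ, ∀ (H : ℕ) (φ : Polynomial ℤ), 0 < φ.coeff 0 → φ.natDegree ≤ n →
  (∀ l, |φ.coeff l| ≤ H) → GSys n (((H : ℝ) + 2) ^ E) φ (fun b : Bool => if b then Rt φ else 1)

/-- (EINT) solutions of `2 z h' + a h = 2 ∑ P_i y_i`, `a` odd, extend a G-system -/
def S_eint : Prop := ∀ N q q' e : ℕ, ∃ E : ℕ, ∀ (ι κ : Type) [Fintype ι] [Fintype κ] (C : ℝ) (T : Polynomial ℤ)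
  (y : ι → ℚ⟦X⟧) (h : κ → ℚ⟦X⟧), Fintype.card ι ≤ N → GSys q C T y →
  (∀ c, ∃ (a : ℤ) (P : ι → Polynomial ℤ), Odd a ∧ |a| ≤ e ∧ (∀ i, (P i).natDegree ≤ q') ∧
    (∀ i l, |(((P i).coeff l : ℤ) : ℝ)| ≤ C) ∧
    2 * (X * d⁄dX ℚ (h c)) + (a : ℚ⟦X⟧) * h c = 2 * ∑ i, ps (P i) * y i) →
  GSys (q + q' + 1) ((2 * C) ^ E) (Polynomial.X * T) (Sum.elim y h)

/-- (COL) passing to a subfamily which generates over the rational functions -/
def S_col : Prop := ∀ N q q' : ℕ, ∃ E : ℕ, ∀ (ι κ : Type) [Fintype ι] [Fintype κ] (C : ℝ) (T φ : Polynomial ℤ)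
  (y : ι → ℚ⟦X⟧) (w : κ → ℚ⟦X⟧) (f : κ → ι) (P : ι → κ → Polynomial ℤ), Fintype.card ι ≤ N → Fintype.card κ ≤ N →
  GSys q C T y → (∀ j, w j = y (f j)) → φ.natDegree ≤ q' → (∀ l, |((φ.coeff l : ℤ) : ℝ)| ≤ C) →
  (∀ i j, (P i j).natDegree ≤ q') → (∀ i j l, |(((P i j).coeff l : ℤ) : ℝ)| ≤ C) →
  (∀ i, ps φ * y i = ∑ j, ps (P i j) * w j) → GSys (q + q') ((2 * C) ^ E) (T * φ) w

/-- (HLI) functional independence -/
def S_hli : Prop := ∀ (F : Polynomial ℤ), Good F → ∀ (N : ℕ) (g : Fin N → ℕ), Function.Injective g → (∀ l, 1 ≤ g l) →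
  LinearIndependent (Polynomial ℚ)
    (fun p : Finset (Fin N) × (Fin N × (Fin (F.natDegree - 1) ⊕ Unit) →₀ ℕ) =>
      (∏ l ∈ p.1, Rt (phi F (g l))) * p.2.prod fun x e => Yf F (g x.1) x.2 ^ e)

/-- (HVAL) the values at `1 / t` have no polynomial relation of degree at most `Δ` over `ℚ` -/
def S_hval : Prop := ∀ (F : Polynomial ℤ), Good F → ∀ N Δ : ℕ, ∃ E : ℕ, ∀ H t : ℕ, (H + 2) ^ E ≤ t →
  ∀ g : Fin N → ℕ, Function.Injective g → (∀ l, 1 ≤ g l ∧ g l ≤ H) →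
  ∀ P : MvPolynomial (Fin N × (Fin (F.natDegree - 1) ⊕ Unit)) ℚ, P.totalDegree ≤ Δ →
    MvPolynomial.aeval (fun x => ev t (Yf F (g x.1) x.2)) P = 0 → P = 0

/-- the integrals `∫_c^x s^j ds / √F(s)` -/
noncomputable def J (F : Polynomial ℤ) (c : ℝ) (j : ℕ) (x : ℝ) : ℝ :=
  ∫ s in c..x, s ^ j / √((F.map (Int.castRingHom ℝ)).eval s)

/-- (HEV) the values -/
def S_hev : Prop := ∀ (F : Polynomial ℤ), Good F → ∀ c : ℝ, (∀ x ≥ c, 0 < (F.map (Int.castRingHom ℝ)).eval x) →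
  ∃ (κ : ℕ → ℝ) (E : ℕ), ∀ H t : ℕ, (H + 2) ^ E ≤ t → ∀ g ≤ H, ∀ j : Fin (F.natDegree - 1),
    J F c j (t + g) = κ j - √(t : ℝ) ^ (2 * ((j : ℕ) : ℤ) + 2 - F.natDegree) * ev t (Yf F g (Sum.inl j)) /
      √(F.leadingCoeff : ℝ)

open scoped PeriodPair

/-- The Weierstrass zeta function `ζ(z) = ∑ (1/(z-l) + 1/l + z/l²)`, the sum over the lattice (the summand of `l = 0` is
`1/z`, since `1/0 = 0` in Lean). -/
noncomputable def zeta (L : PeriodPair) (z : ℂ) : ℂ := ∑' l : L.lattice, (1 / (z - l) + 1 / l + z / l ^ 2)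

/-- (WP) elliptic logarithms as integrals, for real invariants -/
def S_wp : Prop := ∀ (L : PeriodPair) (a b : ℝ), L.g₂ = a → L.g₃ = b →
  ∃ (X₀ κ₀ κ₁ : ℝ), (∀ x ≥ X₀, 0 < 4 * x ^ 3 - a * x - b) ∧ ∀ x ≥ X₀, ∃ s : ℂ, s ∉ L.lattice ∧ ℘[L] s = x ∧
    s = ((κ₀ - ∫ v in X₀..x, 1 / √(4 * v ^ 3 - a * v - b) : ℝ) : ℂ) ∧
    zeta L s = ((κ₁ + ∫ v in X₀..x, v / √(4 * v ^ 3 - a * v - b) : ℝ) : ℂ)

/-- (QP) all points with a given value of `℘`, and the values of `ζ` at them -/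
def S_qp : Prop := ∀ L : PeriodPair, ∃ η₁ η₂ : ℂ, ∀ s p : ℂ, s ∉ L.lattice → p ∉ L.lattice → ℘[L] p = ℘[L] s →
  ∃ (ε m₁ m₂ : ℤ), (ε = 1 ∨ ε = -1) ∧ p = ε * s + m₁ * L.ω₁ + m₂ * L.ω₂ ∧
    zeta L p = ε * zeta L s + m₁ * η₁ + m₂ * η₂

end Pool.Agent.Y916.Hy
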