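import Pool.Agent.Y916.EFin

/-!
# The principal elliptic logarithms of integers: no constants
-/

set_option autoImplicit false

open Module Filter Topology

namespace Pool.Agent.Y916.Hy

open Pool.Agent.Y113 Pool.Agent.Y916.AW Pool.Agent.Y916.Fld Pool.Agent.Y37.GF Pool.Agent.Y574.HE
open scoped PeriodPair

theorem exists_SR {F : Polynomial ℤ} (hF : Good F) (g : ℕ) (j : Fin (F.natDegree - 1)) :
    ∃ r : ℝ, 0 < r ∧ SR r (Yf F g (Sum.inl j)) := by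
  obtain ⟨E0, hE0⟩ := Pool.Agent.Y419.HY.t_alg F.natDegree
  obtain ⟨K, hK⟩ := phi_bound F
  have h1 := hE0 ((g + 2) ^ K) (phi F g) (by rw [phi_zero]; exact hF.pos) (phi_deg F g) (hK g g le_rfl)
  set B : ℝ := ((((g + 2) ^ K : ℕ) : ℝ) + 2) ^ E0 with hB
  have hB0 : 0 < B := by positivity
  have h2 : ∀ m, |((PowerSeries.coeff m (Rt (phi F g)) : ℚ) : ℝ)| ≤ B * B ^ m := by
    intro m
    have h3 := h1.size true m
    rw [pow_succ, mul_comm] at h3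
    exact h3
  have h3 : SR (1 / (2 * B)) (Rt (phi F g)) := by
    refine SR.of_bound (by positivity) (by positivity) ?_ h2
    rw [mul_one_div, div_lt_one (by positivity)]
    linarith
  exact ⟨1 / (2 * B), by positivity, SR_Yf hF (by positivity) h3 j⟩

/-- the values tend to the constant coefficient, at the rate `1 / t` -/
theorem ev_lim {f : PowerSeries ℚ} {r : ℝ} (hr : 0 < r) (h : SR r f) :
    Tendsto (fun t : ℕ => ev (t : ℝ) f) atTop (𝓝 ((PowerSeries.constantCoeff f : ℚ) : ℝ)) ∧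
    Tendsto (fun t : ℕ => √(t : ℝ) * (ev (t : ℝ) f - ((PowerSeries.constantCoeff f : ℚ) : ℝ))) atTop (𝓝 0) := by
  have ha := analyticAt_E hr h
  have hz : Tendsto (fun t : ℕ => 1 / (t : ℝ)) atTop (𝓝 0) := tendsto_one_div_atTop_nhds_zero_nat
  have h1 : Tendsto (fun t : ℕ => ev (t : ℝ) f) atTop (𝓝 ((PowerSeries.constantCoeff f : ℚ) : ℝ)) := by
    have h2 := ha.continuousAt.tendsto.comp hz
    rw [E_zero'] at h2
    exact h2
  refine ⟨h1, ?_⟩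
  have hd := ha.differentiableAt.hasDerivAt.tendsto_slope
  have hz' : Tendsto (fun t : ℕ => 1 / (t : ℝ)) atTop (𝓝[≠] 0) := by
    rw [tendsto_nhdsWithin_iff]
    refine ⟨hz, ?_⟩
    filter_upwards [eventually_gt_atTop 0] with t ht
    have : (t : ℝ) ≠ 0 := by
      have : t ≠ 0 := by omega
      exact_mod_cast this
    exact one_div_ne_zero this
  have h3 := hd.comp hz'
  have h4 : Tendsto (fun t : ℕ => (√(t : ℝ))⁻¹) atTop (𝓝 0) :=
    tendsto_inv_atTop_zero.comp (Real.tendsto_sqrt_atTop.comp tendsto_natCast_atTop_atTop)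
  have h5 := h3.mul h4
  rw [mul_zero] at h5
  refine h5.congr' ?_
  filter_upwards [eventually_gt_atTop 0] with t ht
  have ht0 : (0 : ℝ) < t := by exact_mod_cast ht
  have hs : √(t : ℝ) * √(t : ℝ) = t := Real.mul_self_sqrt ht0.le
  have hs0 : √(t : ℝ) ≠ 0 := (Real.sqrt_pos.2 ht0).ne'
  rw [Function.comp_apply, slope_def_field, E_zero', sub_zero]
  change (ev (t : ℝ) f - _) / (1 / (t : ℝ)) * (√(t : ℝ))⁻¹ = _
  rw [div_div_eq_mul_div, div_one]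
  calc (ev (t : ℝ) f - ((PowerSeries.constantCoeff f : ℚ) : ℝ)) * (t : ℝ) * (√(t : ℝ))⁻¹
      = (ev (t : ℝ) f - ((PowerSeries.constantCoeff f : ℚ) : ℝ)) * (√(t : ℝ) * √(t : ℝ)) * (√(t : ℝ))⁻¹ := by rw [hs]
    _ = _ := by field_simp

theorem coeff_Yf {F : Polynomial ℤ} (hF : Good F) (j : Fin (F.natDegree - 1)) :
    PowerSeries.constantCoeff (Yf F 0 (Sum.inl j)) = 2 / ((F.natDegree : ℚ) - 2 - 2 * (j : ℕ)) := by
  have h1 := (Pool.Agent.Y419.HY.t_rt (phi F 0) (by rw [phi_zero]; exact hF.pos)).2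
  rw [← PowerSeries.coeff_zero_eq_constantCoeff_apply]
  change PowerSeries.coeff 0 (EU _ _) = _
  rw [coeff_EU, PowerSeries.coeff_zero_eq_constantCoeff_apply, map_mul, map_pow, h1]
  simp

theorem principal (L : PeriodPair) (a b : ℚ) (ha : L.g₂ = a) (hb : L.g₃ = b) (hF : Good (Fe a b))
    (i₀ i₁ : Fin ((Fe a b).natDegree - 1)) (hi₀ : (i₀ : ℕ) = 0) (hi₁ : (i₁ : ℕ) = 1) :
    ∃ (s : ℕ → ℂ) (X₁ : ℕ), (∀ m ≥ X₁, s m ∉ L.lattice ∧ ℘[L] (s m) = m) ∧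
      ∃ E : ℕ, ∀ H t : ℕ, (H + 2) ^ E ≤ t → ∀ g ≤ H,
        s (t + g) = (((√(t : ℝ))⁻¹ * ev t (Yf (Fe a b) g (Sum.inl i₀)) / 2 : ℝ) : ℂ) ∧
        zeta L (s (t + g)) = ((-(√(t : ℝ) * ev t (Yf (Fe a b) g (Sum.inl i₁)) / 2) : ℝ) : ℂ) := by
  obtain ⟨s, hst, hev⟩ := Pool.Agent.Y153.HE.exists_s L (a : ℝ) (b : ℝ) (by rw [ha]; simp) (by rw [hb]; simp)
  obtain ⟨X, hX⟩ := eventually_atTop.1 hev
  have hstz : Tendsto s atTop (𝓝 0) := hst.mono_right nhdsWithin_le_nhds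
  have hNr : (0 : ℝ) < Nab a b := by exact_mod_cast Nab_pos a b
  have hlead : √((Fe a b).leadingCoeff : ℝ) = 2 * Nab a b := by
    rw [Fe_lead]
    push_cast
    rw [show (4 : ℝ) * (Nab a b : ℝ) ^ 2 = (2 * Nab a b) ^ 2 by ring]
    exact Real.sqrt_sq (by positivity)
  have hFd : ((Fe a b).natDegree : ℤ) = 3 := by
    rw [Fe_deg]
    rfl
  have hc : ∀ x ≥ X, 0 < ((Fe a b).map (Int.castRingHom ℝ)).eval x := by
    intro x hx
    rw [Fe_eval]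
    exact mul_pos (by positivity) (hX x hx).1
  have hsq : ∀ x ≥ X, √(4 * x ^ 3 - (a : ℝ) * x - (b : ℝ)) ≠ 0 := fun x hx => (Real.sqrt_pos.2 (hX x hx).1).ne'
  -- `s`
  have hs1 : ∀ x ≥ X, s x = s X - (Nab a b : ℂ) * ((J (Fe a b) X 0 x : ℝ) : ℂ) := by
    intro x hx
    have h1 := Pool.Agent.Y153.HE.int_of (s := s) (fun y hy => (hX y hy).2.2.2) (X := X) (by
      intro y hy
      have h3 : ContinuousAt (fun v : ℝ => √(4 * v ^ 3 - (a : ℝ) * v - (b : ℝ))) y := by fun_prop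
      exact (continuousAt_const.div h3 (hsq y hy)).neg) hx
    rw [h1, intervalIntegral.integral_neg, J_Fe]
    simp only [pow_zero]
    have hNc : ((Nab a b : ℕ) : ℂ) ≠ 0 := by exact_mod_cast (Nab_pos a b).ne'
    push_cast
    field_simp
    ring
  have hz1 : ∀ x ≥ X, zeta L (s x) = zeta L (s X) + (Nab a b : ℂ) * ((J (Fe a b) X 1 x : ℝ) : ℂ) := by
    intro x hx
    have hz : ∀ x ≥ X, HasDerivAt (fun x => zeta L (s x)) (((x / √(4 * x ^ 3 - (a : ℝ) * x - (b : ℝ)) : ℝ)) : ℂ) x := by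
      intro x hx
      obtain ⟨h1, h2, h3, h4⟩ := hX x hx
      have h5 : HasDerivAt (zeta L) (-℘[L] (s x)) (s x) := H667R3.hasDerivAt_zeta L h2
      have h6 := HasDerivAt.comp x h5 h4
      refine h6.congr_deriv ?_
      rw [h3]
      push_cast
      ring
    have h1 := Pool.Agent.Y153.HE.int_of (s := fun x => zeta L (s x)) hz (X := X) (by
      intro y hy
      have h3 : ContinuousAt (fun v : ℝ => √(4 * v ^ 3 - (a : ℝ) * v - (b : ℝ))) y := by fun_prop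
      exact continuousAt_id.div h3 (hsq y hy)) hx
    rw [h1, J_Fe]
    simp only [pow_one]
    have hNc : ((Nab a b : ℕ) : ℂ) ≠ 0 := by exact_mod_cast (Nab_pos a b).ne'
    generalize (∫ v in X..x, v / √(4 * v ^ 3 - (a : ℝ) * v - (b : ℝ)) : ℝ) = I
    push_cast
    field_simp
  obtain ⟨κ, E, hE⟩ := hhevT (Fe a b) hF X hc
  -- the values with unknown constants
  set A₀ : ℂ := s X - (Nab a b : ℂ) * ((κ 0 : ℝ) : ℂ) with hA₀
  set A₁ : ℂ := zeta L (s X) + (Nab a b : ℂ) * ((κ 1 : ℝ) : ℂ) with hA₁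
  have hval : ∀ H t : ℕ, (H + 2) ^ E ≤ t → ⌈X⌉₊ ≤ t → ∀ g ≤ H,
      s ((t + g : ℕ) : ℝ) = A₀ + (((√(t : ℝ))⁻¹ * ev t (Yf (Fe a b) g (Sum.inl i₀)) / 2 : ℝ) : ℂ) ∧
      zeta L (s ((t + g : ℕ) : ℝ)) = A₁ - ((√(t : ℝ) * ev t (Yf (Fe a b) g (Sum.inl i₁)) / 2 : ℝ) : ℂ) := by
    intro H t ht htX g hg
    have hXx : X ≤ ((t + g : ℕ) : ℝ) := by
      refine (Nat.le_ceil X).trans ?_
      exact_mod_cast htX.trans (Nat.le_add_right t g)
    have hNc : ((Nab a b : ℕ) : ℂ) ≠ 0 := by exact_mod_cast (Nab_pos a b).ne'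
    have e0 := hE H t ht g hg i₀
    have e1 := hE H t ht g hg i₁
    rw [hlead, hi₀] at e0
    rw [hlead, hi₁] at e1
    have h6 : (2 * ((0 : ℕ) : ℤ) + 2 - ((Fe a b).natDegree : ℤ)) = -1 := by
      rw [hFd]
      norm_num
    have h7 : (2 * ((1 : ℕ) : ℤ) + 2 - ((Fe a b).natDegree : ℤ)) = 1 := by
      rw [hFd]
      norm_num
    rw [h6, zpow_neg_one] at e0
    rw [h7, zpow_one] at e1
    refine ⟨?_, ?_⟩
    · rw [hs1 _ hXx, Nat.cast_add, e0, hA₀]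
      push_cast
      field_simp
      ring
    · rw [hz1 _ hXx, Nat.cast_add, e1, hA₁]
      push_cast
      field_simp
      ring
  -- the constants vanish
  obtain ⟨r₀, hr₀, hSR₀⟩ := exists_SR hF 0 i₀
  obtain ⟨r₁, hr₁, hSR₁⟩ := exists_SR hF 0 i₁
  obtain ⟨l0, l0'⟩ := ev_lim hr₀ hSR₀
  obtain ⟨l1, l1'⟩ := ev_lim hr₁ hSR₁
  have hFdq : ((Fe a b).natDegree : ℚ) = 3 := by
    rw [Fe_deg]
    norm_num
  have c0 : ((PowerSeries.constantCoeff (Yf (Fe a b) 0 (Sum.inl i₀)) : ℚ) : ℝ) = 2 := by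
    rw [coeff_Yf hF, hi₀, hFdq]
    norm_num
  have c1 : ((PowerSeries.constantCoeff (Yf (Fe a b) 0 (Sum.inl i₁)) : ℚ) : ℝ) = -2 := by
    rw [coeff_Yf hF, hi₁, hFdq]
    norm_num
  rw [c0] at l0 l0'
  rw [c1] at l1 l1'
  have hlarge : ∀ᶠ t : ℕ in atTop, (0 + 2) ^ E ≤ t ∧ ⌈X⌉₊ ≤ t ∧ 0 < t :=
    (eventually_ge_atTop _).and ((eventually_ge_atTop _).and (eventually_gt_atTop 0))
  have hinv : Tendsto (fun t : ℕ => (√(t : ℝ))⁻¹) atTop (𝓝 0) :=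
    tendsto_inv_atTop_zero.comp (Real.tendsto_sqrt_atTop.comp tendsto_natCast_atTop_atTop)
  have hA₀z : A₀ = 0 := by
    have h1 : Tendsto (fun t : ℕ => s (t : ℝ)) atTop (𝓝 0) := hstz.comp tendsto_natCast_atTop_atTop
    have h2 : Tendsto (fun t : ℕ => A₀ + (((√(t : ℝ))⁻¹ * ev t (Yf (Fe a b) 0 (Sum.inl i₀)) / 2 : ℝ) : ℂ)) atTop
        (𝓝 (A₀ + ((0 * 2 / 2 : ℝ) : ℂ))) :=
      tendsto_const_nhds.add ((Complex.continuous_ofReal.tendsto _).comp ((hinv.mul l0).div_const 2))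
    have h3 : Tendsto (fun t : ℕ => s (t : ℝ)) atTop (𝓝 (A₀ + ((0 * 2 / 2 : ℝ) : ℂ))) := by
      refine h2.congr' ?_
      filter_upwards [hlarge] with t ht
      exact ((hval 0 t ht.1 ht.2.1 0 le_rfl).1).symm
    have h4 := tendsto_nhds_unique h1 h3
    simpa using h4.symm
  have hA₁z : A₁ = 0 := by
    have h1 : Tendsto (fun t : ℕ => zeta L (s (t : ℝ)) - 1 / s (t : ℝ)) atTop (𝓝 0) :=
      ((Pool.Agent.Y153.HE.zeta_lim L).comp hst).comp tendsto_natCast_atTop_atTop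
    have hne : ∀ᶠ t : ℕ in atTop, ev (t : ℝ) (Yf (Fe a b) 0 (Sum.inl i₀)) ≠ 0 := l0.eventually_ne two_ne_zero
    -- the difference
    have h2 : Tendsto (fun t : ℕ => ((√(t : ℝ) * (ev (t : ℝ) (Yf (Fe a b) 0 (Sum.inl i₀)) - 2)) *
        (ev (t : ℝ) (Yf (Fe a b) 0 (Sum.inl i₁)) - -2) +
        2 * (√(t : ℝ) * (ev (t : ℝ) (Yf (Fe a b) 0 (Sum.inl i₁)) - -2)) -
        2 * (√(t : ℝ) * (ev (t : ℝ) (Yf (Fe a b) 0 (Sum.inl i₀)) - 2))) /
        (2 * ev (t : ℝ) (Yf (Fe a b) 0 (Sum.inl i₀)))) atTop (𝓝 ((0 * (-2 - -2) + 2 * 0 - 2 * 0) / (2 * 2))) :=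
      (((l0'.mul (l1.sub_const _)).add (l1'.const_mul 2)).sub (l0'.const_mul 2)).div (l0.const_mul 2) (by norm_num)
    have h3 : Tendsto (fun t : ℕ => A₁ - (zeta L (s (t : ℝ)) - 1 / s (t : ℝ))) atTop (𝓝 (A₁ - 0)) :=
      tendsto_const_nhds.sub h1
    have h4 : Tendsto (fun t : ℕ => A₁ - (zeta L (s (t : ℝ)) - 1 / s (t : ℝ))) atTop
        (𝓝 ((((0 * (-2 - -2) + 2 * 0 - 2 * 0) / (2 * 2) : ℝ)) : ℂ)) := by
      refine ((Complex.continuous_ofReal.tendsto _).comp h2).congr' ?_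
      filter_upwards [hlarge, hne] with t ht hn
      obtain ⟨e0, e1⟩ := hval 0 t ht.1 ht.2.1 0 le_rfl
      rw [Nat.add_zero] at e0 e1
      have ht0 : (0 : ℝ) < t := by exact_mod_cast ht.2.2
      have hst0 : √(t : ℝ) ≠ 0 := (Real.sqrt_pos.2 ht0).ne'
      rw [e1, e0, hA₀z, zero_add, Function.comp_apply]
      generalize ev (t : ℝ) (Yf (Fe a b) 0 (Sum.inl i₀)) = x at hn
      generalize ev (t : ℝ) (Yf (Fe a b) 0 (Sum.inl i₁)) = y
      generalize √(t : ℝ) = u at hst0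
      have hn' : (x : ℂ) ≠ 0 := by exact_mod_cast hn
      have hu' : (u : ℂ) ≠ 0 := by exact_mod_cast hst0
      push_cast
      field_simp
      ring
    have h5 := tendsto_nhds_unique h3 h4
    rw [sub_zero] at h5
    rw [h5]
    norm_num
  refine ⟨fun m => s (m : ℝ), ⌈X⌉₊, fun m hm => ?_, E + ⌈X⌉₊, fun H t ht g hg => ?_⟩
  · have h1 := hX (m : ℝ) ((Nat.le_ceil X).trans (by exact_mod_cast hm))
    refine ⟨h1.2.1, ?_⟩
    rw [h1.2.2.1]
    simp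
  · have ht1 : (H + 2) ^ E ≤ t := (Nat.pow_le_pow_right (by omega) (by omega)).trans ht
    have ht2 : ⌈X⌉₊ ≤ t := by
      refine le_trans ?_ ((Nat.pow_le_pow_right (by omega) (Nat.le_add_left ⌈X⌉₊ E)).trans ht)
      exact (Nat.lt_two_pow_self).le.trans (Nat.pow_le_pow_left (by omega) _)
    obtain ⟨e0, e1⟩ := hval H t ht1 ht2 g hg
    rw [hA₀z, zero_add] at e0
    rw [hA₁z, zero_sub] at e1
    refine ⟨e0, ?_⟩
    rw [e1]
    push_cast
    ring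

end Pool.Agent.Y916.Hy
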