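import Pool.Agent.Y916.AW
import Pool.Agent.Y113.W.Count

/-!
# `k`-tuples for arbitrary families
-/

set_option autoImplicit false

open Module

namespace Pool.Agent.Y916.AW

open Pool.Agent.Y113

/-- coordinates -/
theorem coords (V : Submodule ℚ ℂ) (hV : Module.Finite ℚ V) (D : ℕ) (hD : finrank ℚ V ≤ D) :
    ∃ (w : Fin D → ℂ) (c : ℂ → Fin D → ℚ), ∀ v ∈ V, v = ∑ j, ((c v j : ℚ) : ℂ) * w j := by
  classical
  set b := Module.finBasis ℚ V with hb
  set w : Fin D → ℂ := fun j => if h : (j : ℕ) < finrank ℚ V then (b ⟨j, h⟩ : ℂ) else 0 with hw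
  have hbw : ∀ i, (b i : ℂ) ∈ Submodule.span ℚ (Set.range w) := by
    intro i
    refine Submodule.subset_span ⟨Fin.castLE hD i, ?_⟩
    rw [hw]
    simp only
    have h4 : ((Fin.castLE hD i : Fin D) : ℕ) < finrank ℚ V := i.2
    rw [dif_pos h4]
    rfl
  have key : ∀ v ∈ V, ∃ c : Fin D → ℚ, v = ∑ j, ((c j : ℚ) : ℂ) * w j := by
    intro v hv
    have h2 : v ∈ Submodule.span ℚ (Set.range w) := by
      have h3 := congrArg (fun u : V => (u : ℂ)) (b.sum_repr ⟨v, hv⟩)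
      simp only [Submodule.coe_sum, Submodule.coe_smul] at h3
      rw [← h3]
      exact Submodule.sum_mem _ fun i _ => Submodule.smul_mem _ _ (hbw i)
    obtain ⟨c, hc⟩ := (Submodule.mem_span_range_iff_exists_fun ℚ).1 h2
    refine ⟨c, ?_⟩
    rw [← hc]
    refine Finset.sum_congr rfl fun j _ => ?_
    rw [Algebra.smul_def]
    rfl
  choose! c hc using key
  exact ⟨w, c, hc⟩

section Lin

variable {D τ : ℕ} {κ : Type} [Fintype κ] (K : IntermediateField ℚ ℂ) (w : Fin D → ℂ) (w₀ : Fin τ → ℂ)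
  (c : ℂ → Fin D → ℚ) (P : MvPolynomial κ ℂ)

/-- the relation with the coordinates of the coefficients -/
noncomputable def Pt : MvPolynomial (Fin (D + τ) ⊕ κ) K :=
  ∑ e ∈ P.support, ∑ j : Fin D, MvPolynomial.C (algebraMap ℚ K (c (P.coeff e) j)) *
    (MvPolynomial.X (Sum.inl (Fin.castAdd τ j)) * ∏ i : κ, MvPolynomial.X (Sum.inr i) ^ e i)

theorem Pt_deg {δ : ℕ} (hP : P.totalDegree ≤ δ) : (Pt (τ := τ) K c P).totalDegree ≤ δ + 1 := by
  unfold Pt
  refine (MvPolynomial.totalDegree_finset_sum _ _).trans (Finset.sup_le fun e he => ?_)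
  refine (MvPolynomial.totalDegree_finset_sum _ _).trans (Finset.sup_le fun j _ => ?_)
  refine (MvPolynomial.totalDegree_mul _ _).trans ?_
  rw [MvPolynomial.totalDegree_C, zero_add]
  refine (MvPolynomial.totalDegree_mul _ _).trans ?_
  have h1 : (MvPolynomial.X (Sum.inl (Fin.castAdd τ j)) : MvPolynomial (Fin (D + τ) ⊕ κ) K).totalDegree ≤ 1 :=
    (MvPolynomial.totalDegree_X _).le
  have h2 : (∏ i : κ, (MvPolynomial.X (Sum.inr i) : MvPolynomial (Fin (D + τ) ⊕ κ) K) ^ e i).totalDegree ≤ δ := by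
    refine (MvPolynomial.totalDegree_finset_prod _ _).trans ?_
    refine (Finset.sum_le_sum (g := fun i => e i) fun i _ => ?_).trans ?_
    · refine (MvPolynomial.totalDegree_pow _ _).trans ?_
      rw [MvPolynomial.totalDegree_X, mul_one]
    · have h3 := (MvPolynomial.le_totalDegree he).trans hP
      rwa [Finsupp.sum_fintype _ _ (fun _ => rfl)] at h3
  omega

theorem Pt_val (hc : ∀ e, P.coeff e = ∑ j, ((c (P.coeff e) j : ℚ) : ℂ) * w j) {A : Type*} [CommRing A] [Algebra ℂ A]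
    [Algebra K A] (h1 : ∀ q : ℚ, algebraMap K A (algebraMap ℚ K q) = algebraMap ℂ A (q : ℂ)) (y : κ → A) :
    MvPolynomial.aeval (Sum.elim (fun j => algebraMap ℂ A (Fin.append w w₀ j)) y) (Pt K c P)
      = MvPolynomial.aeval y P := by
  unfold Pt
  rw [map_sum, MvPolynomial.aeval_def y, MvPolynomial.eval₂_eq']
  refine Finset.sum_congr rfl fun e _ => ?_
  rw [map_sum]
  conv_rhs => rw [hc e, map_sum, Finset.sum_mul]
  refine Finset.sum_congr rfl fun j _ => ?_
  rw [map_mul, map_mul, map_prod, MvPolynomial.aeval_C, MvPolynomial.aeval_X, h1, Sum.elim_inl, Fin.append_left, map_mul]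
  simp only [map_pow, MvPolynomial.aeval_X, Sum.elim_inr]
  ring

end Lin

/-- the link between the numbers `x n s` and the values: up to an algebraic factor and unknown constants -/
def Link {σ : Type} (val : ℕ → ℕ → σ → ℂ) (x : ℕ → σ → ℂ) (d τ E : ℕ) : Prop :=
  ∀ t : ℕ, ∃ K : IntermediateField ℚ ℂ, FiniteDimensional ℚ K ∧ finrank ℚ K ≤ d ∧ ∃ w : Fin τ → ℂ,
    ∀ g : ℕ, 1 ≤ g → (g + 2) ^ E ≤ t → ∀ s, ∃ a : K, a ≠ 0 ∧
      x (t + g) s - a * val t g s ∈ Submodule.span K (insert 1 (Set.range w))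

/-- windows -/
theorem hwin {σ : Type} [Fintype σ] [DecidableEq σ] (val : ℕ → ℕ → σ → ℂ) (hval : Inp val) (x : ℕ → σ → ℂ)
    (d τ E₁ : ℕ) (hlink : Link val x d τ E₁) {r : ℕ} (θ : Fin r → ℕ) (hθ : Function.Injective θ) (δ D : ℕ) :
    ∃ M E : ℕ, ∀ (V : Submodule ℚ ℂ), Module.Finite ℚ V → finrank ℚ V ≤ D → ∀ (H t : ℕ), (H + 2) ^ E ≤ t →
      ∀ S : Finset ℕ, (∀ g ∈ S, g ≤ H ∧ Rel δ V (fun p : Fin r × σ => x (t - g + θ p.1) p.2)) → S.card ≤ M := by
  classical
  obtain ⟨E₀, hE₀⟩ := aw val hval r d (δ + 1) (D + τ)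
  set m : ℕ := ∑ j, θ j with hm
  have hmj : ∀ j, θ j ≤ m := fun j => Finset.single_le_sum (f := θ) (fun _ _ => Nat.zero_le _) (Finset.mem_univ j)
  refine ⟨r * (D + τ), (m + 2) * (E₀ + E₁) + 2, ?_⟩
  intro V hV hVD H t ht S hS
  obtain ⟨w, c, hwc⟩ := coords V hV D hVD
  set H' : ℕ := H + 1 + m with hH'
  set t₀ : ℕ := t - (H + 1) with ht₀
  have hH2 : H' + 2 ≤ (H + 2) ^ (m + 2) := by
    have h1 : m + 2 ≤ 2 ^ (m + 1) := by
      have := (Nat.lt_two_pow_self : m + 1 < 2 ^ (m + 1))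
      omega
    have h2 : (m + 2) * (H + 2) ≤ (H + 2) ^ (m + 1) * (H + 2) :=
      Nat.mul_le_mul_right _ (h1.trans (Nat.pow_le_pow_left (by omega) _))
    have h3 : (H + 2) ^ (m + 2) = (H + 2) ^ (m + 1) * (H + 2) := by rw [← pow_succ]
    rw [h3]
    nlinarith
  have hpow : (H' + 2) ^ (E₀ + E₁) ≤ t₀ := by
    have h1 : (H' + 2) ^ (E₀ + E₁) ≤ (H + 2) ^ ((m + 2) * (E₀ + E₁)) := by
      rw [pow_mul]
      exact Nat.pow_le_pow_left hH2 _
    have h2 : (H + 2) ^ ((m + 2) * (E₀ + E₁) + 2) = (H + 2) ^ ((m + 2) * (E₀ + E₁)) * ((H + 2) * (H + 2)) := by ring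
    have h3 : 1 ≤ (H + 2) ^ ((m + 2) * (E₀ + E₁)) := Nat.one_le_pow _ _ (by omega)
    rw [h2] at ht
    set X := (H + 2) ^ ((m + 2) * (E₀ + E₁)) with hX
    have h4 : X + (H + 1) ≤ X * ((H + 2) * (H + 2)) := by
      have h5 : X * (1 + (H + 1)) ≤ X * ((H + 2) * (H + 2)) := Nat.mul_le_mul_left _ (by nlinarith)
      have h6 : 1 * (H + 1) ≤ X * (H + 1) := Nat.mul_le_mul_right _ h3
      have h7 : X * (1 + (H + 1)) = X + X * (H + 1) := by ring
      omega
    omega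
  have ht₁ : (H' + 2) ^ E₀ ≤ t₀ := (Nat.pow_le_pow_right (by omega) (by omega)).trans hpow
  have ht₂ : (H' + 2) ^ E₁ ≤ t₀ := (Nat.pow_le_pow_right (by omega) (by omega)).trans hpow
  have ht₃ : t = t₀ + (H + 1) := by
    have h1 : H + 1 < t := by
      refine lt_of_lt_of_le ?_ ht
      have h2 : (H + 2) ^ ((m + 2) * (E₀ + E₁) + 2) = (H + 2) ^ ((m + 2) * (E₀ + E₁)) * ((H + 2) * (H + 2)) := by ring
      have h3 : 1 ≤ (H + 2) ^ ((m + 2) * (E₀ + E₁)) := Nat.one_le_pow _ _ (by omega)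
      rw [h2]
      nlinarith
    omega
  obtain ⟨K, hKf, hKd, w₀, hlk⟩ := hlink t₀
  obtain ⟨X, hX, hwin⟩ := hE₀ H' t₀ ht₁ K hKf hKd (Fin.append w w₀)
  have hbad : ∀ g ∈ S, ∃ j : Fin r, H + 1 - g + θ j ∈ X := by
    intro g hg
    obtain ⟨hgH, P, hP0, hPd, hPc, hPv⟩ := hS g hg
    by_contra hcon
    push Not at hcon
    have hc : ∀ e, P.coeff e = ∑ j, ((c (P.coeff e) j : ℚ) : ℂ) * w j := fun e => hwc _ (hPc e)
    have hinj : Function.Injective fun j => H + 1 - g + θ j := by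
      intro i j hij
      have h1 : H + 1 - g + θ i = H + 1 - g + θ j := hij
      exact hθ (by omega)
    have hg1 : ∀ j, 1 ≤ H + 1 - g + θ j ∧ H + 1 - g + θ j ≤ H' ∧ H + 1 - g + θ j ∉ X := by
      intro j
      have := hmj j
      exact ⟨by omega, by omega, hcon j⟩
    have hx : ∀ p : Fin r × σ, ∃ a : K, a ≠ 0 ∧ x (t - g + θ p.1) p.2 - a * val t₀ (H + 1 - g + θ p.1) p.2 ∈
        Submodule.span K (insert 1 (Set.range (Fin.append w w₀))) := by
      rintro ⟨j, s⟩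
      have h1 : (H + 1 - g + θ j + 2) ^ E₁ ≤ t₀ := by
        refine (Nat.pow_le_pow_left ?_ _).trans ht₂
        have := (hg1 j).2.1
        omega
      obtain ⟨a, ha, hax⟩ := hlk (H + 1 - g + θ j) (hg1 j).1 h1 s
      refine ⟨a, ha, ?_⟩
      have h2 : t₀ + (H + 1 - g + θ j) = t - g + θ j := by omega
      rw [h2] at hax
      refine Submodule.span_mono (Set.insert_subset_insert ?_) hax
      rintro _ ⟨i, rfl⟩
      exact ⟨Fin.natAdd D i, by rw [Fin.append_right]⟩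
    have h9 := hwin (fun j => H + 1 - g + θ j) hinj hg1 (fun p : Fin r × σ => x (t - g + θ p.1) p.2) hx
      (Pt K c P) (Pt_deg K c P hPd) (by
        have h10 := Pt_val K w w₀ c P hc (A := ℂ) (fun q => rfl) (fun p : Fin r × σ => x (t - g + θ p.1) p.2)
        exact h10.trans hPv)
    have h11 := Pt_val K w w₀ c P hc (A := MvPolynomial (Fin r × σ) ℂ) (fun q => rfl) MvPolynomial.X
    rw [MvPolynomial.aeval_X_left_apply] at h11
    exact hP0 (h11.symm.trans h9)
  rcases S.eq_empty_or_nonempty with rfl | ⟨g0, hg0⟩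
  · simp
  obtain ⟨j0, -⟩ := hbad g0 hg0
  have : Nonempty (Fin r) := ⟨j0⟩
  choose! j hj using hbad
  have h1 : S.card ≤ ((Finset.univ : Finset (Fin r)) ×ˢ X).card := by
    refine Finset.card_le_card_of_injOn (fun g => (j g, H + 1 - g + θ (j g))) ?_ ?_
    · intro g hg
      rw [Finset.mem_coe, Finset.mem_product]
      exact ⟨Finset.mem_univ _, hj g hg⟩
    · intro g hg g' hg' hgg
      simp only [Prod.mk.injEq] at hgg
      have h2 := hgg.2
      rw [hgg.1] at h2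
      have h3 := (hS g hg).1
      have h4 := (hS g' hg').1
      omega
  rw [Finset.card_product, Finset.card_univ, Fintype.card_fin] at h1
  exact h1.trans (Nat.mul_le_mul_left _ hX)

/-- linear substitutions with rational factors -/
theorem rel_lin {ι : Type} [Fintype ι] {δ : ℕ} {V W : Submodule ℚ ℂ} (hW : (1 : ℂ) ∈ W) {x l : ι → ℂ} (ε : ι → ℚ)
    (hε : ∀ i, ε i ≠ 0) (hl : ∀ i, l i - ε i * x i ∈ W) (h : Rel δ V l) : Rel δ (V * W ^ δ) x := by
  classical
  obtain ⟨P, hP0, hPd, hPc, hPv⟩ := h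
  set v : ι → ℂ := fun i => l i - ε i * x i with hv
  set L : ι → MvPolynomial ι ℂ := fun i => MvPolynomial.C (ε i : ℂ) * MvPolynomial.X i + MvPolynomial.C (v i) with hL
  have hLD : ∀ i, DC 1 W (L i) := by
    intro i
    refine ⟨?_, fun s => ?_⟩
    · refine (MvPolynomial.totalDegree_add _ _).trans (max_le ?_ ?_)
      · refine (MvPolynomial.totalDegree_mul _ _).trans ?_
        rw [MvPolynomial.totalDegree_C, zero_add]
        exact (MvPolynomial.totalDegree_X i).le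
      · rw [MvPolynomial.totalDegree_C]
        exact Nat.zero_le _
    · rw [hL, MvPolynomial.coeff_add, MvPolynomial.coeff_C_mul, MvPolynomial.coeff_X', MvPolynomial.coeff_C]
      refine Submodule.add_mem _ ?_ ?_
      · split_ifs
        · have h2 := Submodule.smul_mem W (ε i) hW
          rw [Algebra.smul_def] at h2
          exact h2
        · rw [mul_zero]
          exact Submodule.zero_mem _
      · split_ifs
        · exact hl i
        · exact Submodule.zero_mem _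
  have hQ := DC.subst' hW L hLD ⟨hPd, hPc⟩
  refine ⟨MvPolynomial.aeval L P, ?_, hQ.1, hQ.2, ?_⟩
  · intro h0
    apply hP0
    have h2 : (MvPolynomial.aeval (fun i => MvPolynomial.C ((ε i : ℂ)⁻¹) * (MvPolynomial.X i - MvPolynomial.C (v i))) :
        MvPolynomial ι ℂ →ₐ[ℂ] MvPolynomial ι ℂ).comp (MvPolynomial.aeval L) = AlgHom.id ℂ _ := by
      refine MvPolynomial.algHom_ext fun i => ?_
      have h4 : (ε i : ℂ) ≠ 0 := by exact_mod_cast hε i
      have h3 : (MvPolynomial.C (ε i : ℂ) * MvPolynomial.C ((ε i : ℂ)⁻¹) : MvPolynomial ι ℂ) = 1 := by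
        rw [← MvPolynomial.C_mul, mul_inv_cancel₀ h4, MvPolynomial.C_1]
      rw [AlgHom.comp_apply, MvPolynomial.aeval_X, hL]
      simp only
      rw [map_add, map_mul, MvPolynomial.aeval_X, MvPolynomial.aeval_C,
        MvPolynomial.aeval_C, AlgHom.id_apply, MvPolynomial.algebraMap_eq, ← mul_assoc, h3]
      ring
    have h3 := DFunLike.congr_fun h2 P
    rw [AlgHom.comp_apply, h0, map_zero, AlgHom.id_apply] at h3
    exact h3.symm
  · have h2 : (MvPolynomial.aeval x : MvPolynomial ι ℂ →ₐ[ℂ] ℂ).comp (MvPolynomial.aeval L) = MvPolynomial.aeval l := by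
      refine MvPolynomial.algHom_ext fun i => ?_
      simp [hL, hv]
    exact (DFunLike.congr_fun h2 P).trans hPv

open Classical in
/-- **Tuples for arbitrary families.** -/
theorem at_count {σ : Type} [Fintype σ] [DecidableEq σ] (val : ℕ → ℕ → σ → ℂ) (hval : Inp val) (x : ℕ → σ → ℂ)
    (d τ E₁ : ℕ) (hlink : Link val x d τ E₁) {r : ℕ} (θ : Fin r → ℕ) (hθ : Function.Injective θ) (δ k D : ℕ) :
    ∃ c : ℝ, 0 < c ∧ ∃ C : ℝ, 0 ≤ C ∧ ∀ V : Submodule ℚ ℂ, Module.Finite ℚ V → finrank ℚ V ≤ D → ∀ T : ℕ, 1 ≤ T →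
      (((Fintype.piFinset fun _ : Fin k => Finset.Icc 2 T).filter fun n =>
        Rel δ V (tup (fun (n : ℕ) (p : Fin r × σ) => x (n + θ p.1) p.2) n)).card : ℝ) ≤ C * (T : ℝ) ^ ((k : ℝ) - c) :=
  count_tuples (fun (n : ℕ) (p : Fin r × σ) => x (n + θ p.1) p.2)
    (fun δ D => hwin val hval x d τ E₁ hlink θ hθ δ D) δ k D

end Pool.Agent.Y916.AW
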