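import Pool.Agent.Y916.SW
import Pool.Agent.Y916.Om.Box

/-!
# Integrals of all three kinds on several hyperelliptic curves at tuples of integers
-/

set_option autoImplicit false

open Module
open scoped Pointwise

namespace Pool.Agent.Y916.Sa

open Pool.Agent.Y113 Pool.Agent.Y916.Hy Pool.Agent.Y916.Fld Pool.Agent.Y916.AW

theorem linkS {s : ℕ} {F q : Fin s → Polynomial ℤ} (hG : ∀ a, GoodP (F a) (q a)) {c : ℝ}
    (hc : ∀ a, ∀ x ≥ c, 0 < ((PP F q a).map (Int.castRingHom ℝ)).eval x) :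
    ∃ E, Link (vs (PP F q) (mm F q)) (xs (PP F q) (mm F q) c) (2 ^ (s + 1)) (Fintype.card (Tau (mm F q))) E := by
  obtain ⟨κ, E, h⟩ := linkX hG hc
  refine ⟨E, fun t => ?_⟩
  obtain ⟨K, h1, h2, h3⟩ := h t
  refine ⟨K, h1, h2, fun i => ws (mm F q) κ t ((Fintype.equivFin (Tau (mm F q))).symm i), fun g _ hg s => ?_⟩
  obtain ⟨a, ha, h4⟩ := h3 g hg s
  refine ⟨a, ha, ?_⟩
  rw [h4]
  exact Submodule.subset_span (Set.mem_insert_of_mem _ ⟨Fintype.equivFin (Tau (mm F q)) s, by simp⟩)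

/-- affine changes of the numbers over a number field -/
theorem relL_affine {ι : Type} [Fintype ι] {δ d : ℕ} {V : Submodule ℚ ℂ} {x y : ι → ℂ} (L : IntermediateField ℚ ℂ)
    (hLf : FiniteDimensional ℚ L) (hLd : finrank ℚ L ≤ d)
    (hy : ∀ i, ∃ a : L, a ≠ 0 ∧ y i - a * x i ∈ Submodule.span L (V : Set ℂ))
    (h : ∃ P : MvPolynomial ι ℂ, P ≠ 0 ∧ P.totalDegree ≤ δ ∧ (∀ s, P.coeff s ∈ Submodule.span L (V : Set ℂ)) ∧
      MvPolynomial.aeval y P = 0) : RelL δ d ((V ⊔ 1) ^ (δ + 1)) x := by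
  classical
  obtain ⟨P, hP0, hPd, hPc, hPv⟩ := h
  choose a ha hya using hy
  set W : Submodule L ℂ := Submodule.span L ((V ⊔ 1 : Submodule ℚ ℂ) : Set ℂ) with hW
  have hVW : Submodule.span L (V : Set ℂ) ≤ W := Submodule.span_mono fun z hz => Submodule.mem_sup_left hz
  have h1 : (1 : ℂ) ∈ W := Submodule.subset_span (Submodule.mem_sup_right (Submodule.one_le.1 le_rfl))
  set v : ι → ℂ := fun i => y i - a i * x i with hv
  set Lf : ι → MvPolynomial ι ℂ := fun i => MvPolynomial.C ((a i : L) : ℂ) * MvPolynomial.X i + MvPolynomial.C (v i) with hL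
  have hLD : ∀ i, DC 1 (W.restrictScalars ℚ) (Lf i) := by
    intro i
    refine ⟨?_, fun s => ?_⟩
    · refine (MvPolynomial.totalDegree_add _ _).trans (max_le ?_ ?_)
      · refine (MvPolynomial.totalDegree_mul _ _).trans ?_
        rw [MvPolynomial.totalDegree_C, MvPolynomial.totalDegree_X]
      · rw [MvPolynomial.totalDegree_C]
        exact Nat.zero_le _
    · rw [hL]
      simp only [MvPolynomial.coeff_add, MvPolynomial.coeff_C_mul, MvPolynomial.coeff_X, MvPolynomial.coeff_C]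
      refine Submodule.add_mem _ ?_ ?_
      · split_ifs
        · have := W.smul_mem (a i) h1
          exact this
        · rw [mul_zero]
          exact Submodule.zero_mem _
      · split_ifs
        · exact hVW (hya i)
        · exact Submodule.zero_mem _
  have hD := DC.subst' (V := W.restrictScalars ℚ) (W := W.restrictScalars ℚ) h1 Lf hLD (P := P)
    ⟨hPd, fun s => hVW (hPc s)⟩
  refine ⟨L, hLf, hLd, MvPolynomial.aeval Lf P, ?_, hD.1, fun s => ?_, ?_⟩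
  · intro h0
    exact hP0 (Om.shift_injh L a v ha (h0.trans (map_zero _).symm))
  · have h2 := hD.2 s
    have h3 : (W.restrictScalars ℚ) * (W.restrictScalars ℚ) ^ δ ≤ (W ^ (δ + 1)).restrictScalars ℚ := by
      rw [pow_succ']
      exact Om.res_mul (V := W) (W := W ^ δ) le_rfl (Om.res_pow W δ)
    have h4 : W ^ (δ + 1) = Submodule.span L (((V ⊔ 1 : Submodule ℚ ℂ) : Set ℂ) ^ (δ + 1)) := by
      rw [hW, Submodule.span_pow]
    have h5 := h3 h2
    change _ ∈ W ^ (δ + 1) at h5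
    rw [h4] at h5
    refine Submodule.span_mono ?_ h5
    intro z hz
    have h6 : ((V ⊔ 1 : Submodule ℚ ℂ)) ^ (δ + 1) =
        Submodule.span ℚ (((V ⊔ 1 : Submodule ℚ ℂ) : Set ℂ) ^ (δ + 1)) := by
      rw [← Submodule.span_pow, Submodule.span_eq]
    rw [h6]
    exact Submodule.subset_span hz
  · rw [MvPolynomial.comp_aeval_apply]
    have h3 : (fun i => MvPolynomial.aeval x (Lf i)) = y := by
      funext i
      simp [hL, hv]
    rw [h3]
    exact hPv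

/-- a relation between numbers `y` which are affine changes of `x` over a number field -/
def RelA {ι : Type} (δ d : ℕ) (V : Submodule ℚ ℂ) (x : ι → ℂ) : Prop :=
  ∃ L : IntermediateField ℚ ℂ, FiniteDimensional ℚ L ∧ finrank ℚ L ≤ d ∧ ∃ y : ι → ℂ,
    (∀ p, ∃ a : L, a ≠ 0 ∧ y p - a * x p ∈ Submodule.span L (V : Set ℂ)) ∧
    ∃ P : MvPolynomial ι ℂ, P ≠ 0 ∧ P.totalDegree ≤ δ ∧ (∀ s, P.coeff s ∈ Submodule.span L (V : Set ℂ)) ∧
      MvPolynomial.aeval y P = 0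

/-- tuples -/
theorem tuplesS {s : ℕ} {F q : Fin s → Polynomial ℤ} (hG : ∀ a, GoodP (F a) (q a)) (hD : Dist F) {c : ℝ}
    (hc : ∀ a, ∀ x ≥ c, 0 < ((PP F q a).map (Int.castRingHom ℝ)).eval x) {r : ℕ} (θ : Fin r → ℕ)
    (hθ : Function.Injective θ) (k δ d D : ℕ) :
    ∃ c₀ : ℝ, 0 < c₀ ∧ ∃ C : ℝ, 0 ≤ C ∧ ∀ V : Submodule ℚ ℂ, Module.Finite ℚ V → finrank ℚ V ≤ D → ∀ T : ℕ, 1 ≤ T →
      {n : Fin k → ℕ | (∀ i, 2 ≤ n i ∧ n i ≤ T) ∧ RelA δ d V fun p : (Fin k × Fin r) × Tau (mm F q) =>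
        xs (PP F q) (mm F q) c (n p.1.1 + θ p.1.2) p.2}.Finite ∧
      ({n : Fin k → ℕ | (∀ i, 2 ≤ n i ∧ n i ≤ T) ∧ RelA δ d V fun p : (Fin k × Fin r) × Tau (mm F q) =>
        xs (PP F q) (mm F q) c (n p.1.1 + θ p.1.2) p.2}.ncard : ℝ) ≤ C * (T : ℝ) ^ ((k : ℝ) - c₀) := by
  classical
  obtain ⟨E, hlink⟩ := linkS hG hc
  set m := d ^ d * (δ + 1) with hm
  obtain ⟨c₀, hc₀, C, hC, hcount⟩ := at_count (vs (PP F q) (mm F q)) (inpS hG hD) (xs (PP F q) (mm F q) c)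
    (2 ^ (s + 1)) _ E hlink θ hθ m k (((D + 1) ^ (δ + 1) + 1) ^ m)
  refine ⟨c₀, hc₀, C, hC, fun V hV hVD T hT => ?_⟩
  obtain ⟨hb1, hb2⟩ := NF.big (V := V) hVD (δ + 1)
  obtain ⟨hb3, hb4⟩ := NF.big (V := (V ⊔ 1) ^ (δ + 1)) hb2 m
  have h1 := hcount (((V ⊔ 1) ^ (δ + 1) ⊔ 1) ^ m) hb3 hb4 T hT
  set B := (Fintype.piFinset fun _ : Fin k => Finset.Icc 2 T).filter fun n =>
    Rel m (((V ⊔ 1) ^ (δ + 1) ⊔ 1) ^ m) (tup (fun (n : ℕ) (p : Fin r × Tau (mm F q)) =>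
      xs (PP F q) (mm F q) c (n + θ p.1) p.2) n) with hB
  have hsub : {n : Fin k → ℕ | (∀ i, 2 ≤ n i ∧ n i ≤ T) ∧ RelA δ d V fun p : (Fin k × Fin r) × Tau (mm F q) =>
        xs (PP F q) (mm F q) c (n p.1.1 + θ p.1.2) p.2} ⊆ (B : Set (Fin k → ℕ)) := by
    rintro n ⟨hn, L, hLf, hLd, y, hy, hrel⟩
    rw [hB, Finset.mem_coe, Finset.mem_filter, Fintype.mem_piFinset]
    refine ⟨fun i => Finset.mem_Icc.2 (hn i), ?_⟩
    have h2 := (relL_affine L hLf hLd hy hrel).rel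
    exact h2.reindex (Equiv.prodAssoc _ _ _).symm
  refine ⟨(Finset.finite_toSet B).subset hsub, le_trans ?_ h1⟩
  have h2 := Set.ncard_le_ncard hsub (Finset.finite_toSet B)
  rw [Set.ncard_coe_finset] at h2
  exact_mod_cast h2

end Pool.Agent.Y916.Sa
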