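import Pool.Agent.Y916.Win2
import Pool.Agent.Y419.LB.Base
import Pool.Agent.Y535.LG.Val
import Pool.Agent.Y535.LG.Part
import Pool.Agent.Y796.LI.Core

/-!
# The window theorem, unconditional
-/

set_option autoImplicit false

open Module

namespace Pool.Agent.Y916

open Pool.Agent.Y916.Ari

theorem t_val : S_val := Y535.LG.val_of Y419.LB.base_holds Y796.LI.t_LI

theorem t_window (r d δ τ : ℕ) : ∃ E : ℕ, ∀ H t : ℕ, (H + 2) ^ E ≤ t →
    ∀ K : IntermediateField ℚ ℂ, FiniteDimensional ℚ K → finrank ℚ K ≤ d → ∀ w : Fin τ → ℂ,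
    ∃ S : Finset ℂ, S.card ≤ τ ∧ ∀ β : Fin r → ℂ, Function.Injective β → (∀ i, β i ∉ S ∧ β i ≠ 0 ∧ Adm d H (β i)) →
      ∀ l : Fin r → ℂ, (∀ i, l i - Complex.log (1 + β i / t) ∈ Submodule.span K (insert 1 (Set.range w))) →
      ∀ P : MvPolynomial (Fin τ ⊕ Fin r) K, P.totalDegree ≤ δ → MvPolynomial.aeval (Sum.elim w l) P = 0 →
      MvPolynomial.aeval (Sum.elim (fun j => MvPolynomial.C (w j)) MvPolynomial.X) P
        = (0 : MvPolynomial (Fin r) ℂ) :=
  window t_val Y535.LG.t_part r d δ τ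

end Pool.Agent.Y916
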