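import Pool.Agent.Y916.NF
import Pool.Agent.Y916.Main
import Pool.Agent.H297R2.ThmJs

/-!
# Exponentials of algebraic numbers and logarithms in short windows
-/

set_option autoImplicit false

open Module

namespace Pool.Agent.Y916.Gel

open Pool.Agent.Y916.Ari

/-- the norm of a polynomial -/
theorem norm_poly {σ : Type} (L : IntermediateField ℚ ℂ) [FiniteDimensional ℚ L] {d δ : ℕ} (hL : finrank ℚ L ≤ d)
    (P : MvPolynomial σ L) (hP0 : P ≠ 0) (hPd : P.totalDegree ≤ δ) (x : σ → ℂ) (hx : MvPolynomial.aeval x P = 0) :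
    ∃ N : MvPolynomial σ ℚ, N ≠ 0 ∧ N.totalDegree ≤ d ^ d * δ ∧ MvPolynomial.aeval x N = 0 := by
  classical
  obtain ⟨L', hLL', hfd, hgal, hdeg⟩ := NF.closure L hL
  set j : L →+* L' := (IntermediateField.inclusion hLL' : L →+* L') with hj
  set Q : MvPolynomial σ L' := MvPolynomial.map j P with hQ
  set N : MvPolynomial σ L' := ∏ s : L' ≃ₐ[ℚ] L', MvPolynomial.map (s : L' →+* L') Q with hN
  have hNfix : ∀ (τ : L' ≃ₐ[ℚ] L') m, τ (N.coeff m) = N.coeff m := by
    intro τ m
    have h1 : MvPolynomial.map (τ : L' →+* L') N = N := by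
      rw [hN, map_prod]
      refine Fintype.prod_equiv (Equiv.mulLeft τ) _ _ fun s => ?_
      rw [MvPolynomial.map_map]
      rfl
    have h2 := congrArg (MvPolynomial.coeff m) h1
    rw [MvPolynomial.coeff_map] at h2
    exact h2
  obtain ⟨N₀, hN₀⟩ : ∃ N₀ : MvPolynomial σ ℚ, MvPolynomial.map (algebraMap ℚ L') N₀ = N := by
    have h1 : N ∈ Set.range (MvPolynomial.map (σ := σ) (algebraMap ℚ L')) := by
      rw [MvPolynomial.mem_range_map_iff_coeffs_subset]
      intro c hc
      obtain ⟨m, -, rfl⟩ := MvPolynomial.mem_coeffs_iff.1 hc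
      exact (IsGalois.mem_range_algebraMap_iff_fixed (F := ℚ) (E := L') _).2 fun τ => hNfix τ m
    exact h1
  have hcard : Fintype.card (L' ≃ₐ[ℚ] L') ≤ d ^ d := by
    have h1 := IsGalois.card_aut_eq_finrank ℚ L'
    rw [Nat.card_eq_fintype_card] at h1
    rw [h1]
    exact hdeg
  refine ⟨N₀, ?_, ?_, ?_⟩
  · rintro rfl
    rw [map_zero] at hN₀
    have h1 := hN₀.symm
    rw [hN, Finset.prod_eq_zero_iff] at h1
    obtain ⟨s, -, hs⟩ := h1
    have h2 := MvPolynomial.map_injective _ (s : L' ≃+* L').injective (hs.trans (map_zero _).symm)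
    exact hP0 (MvPolynomial.map_injective _ j.injective (h2.trans (map_zero _).symm))
  · have h1 : N₀.totalDegree = N.totalDegree := by
      rw [← hN₀]
      unfold MvPolynomial.totalDegree
      rw [MvPolynomial.support_map_of_injective _ (algebraMap ℚ L').injective]
    rw [h1, hN]
    refine (MvPolynomial.totalDegree_finset_prod _ _).trans ?_
    refine (Finset.sum_le_card_nsmul _ _ δ fun s _ => ?_).trans ?_
    · refine le_trans (le_of_eq ?_) hPd
      rw [hQ]
      unfold MvPolynomial.totalDegree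
      rw [MvPolynomial.support_map_of_injective _ (s : L' ≃+* L').injective,
        MvPolynomial.support_map_of_injective _ j.injective]
    · rw [smul_eq_mul]
      exact Nat.mul_le_mul_right _ hcard
  · have h1 : MvPolynomial.aeval x N₀ = MvPolynomial.aeval x N := by
      rw [← hN₀, MvPolynomial.aeval_map_algebraMap]
    rw [h1, hN, map_prod]
    refine Finset.prod_eq_zero (Finset.mem_univ (AlgEquiv.refl : L' ≃ₐ[ℚ] L')) ?_
    have h2 : MvPolynomial.map ((AlgEquiv.refl : L' ≃ₐ[ℚ] L') : L' →+* L') Q = Q := by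
      have : (((AlgEquiv.refl : L' ≃ₐ[ℚ] L') : L' →+* L')) = RingHom.id L' := rfl
      rw [this, MvPolynomial.map_id]
    rw [h2, hQ, MvPolynomial.aeval_def, MvPolynomial.eval₂_map]
    exact hx

theorem inj_sub {l r : ℕ} (e : Fin l → ℂ) (he : AlgebraicIndependent ℚ e) (N : MvPolynomial (Fin l ⊕ Fin r) ℚ)
    (h : MvPolynomial.aeval (Sum.elim (fun j => MvPolynomial.C (e j)) MvPolynomial.X) N
      = (0 : MvPolynomial (Fin r) ℂ)) : N = 0 := by
  have h1 : ∀ M : MvPolynomial (Fin l ⊕ Fin r) ℚ,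
      MvPolynomial.aeval (Sum.elim (fun j => MvPolynomial.C (e j)) MvPolynomial.X) M =
      MvPolynomial.map (MvPolynomial.aeval e : MvPolynomial (Fin l) ℚ →ₐ[ℚ] ℂ).toRingHom
        (MvPolynomial.sumAlgEquiv ℚ (Fin r) (Fin l) (MvPolynomial.rename Sum.swap M)) := by
    intro M
    induction M using MvPolynomial.induction_on with
    | C a => simp
    | add p q hp hq => rw [map_add, hp, hq, map_add, map_add, map_add]
    | mul_X p i hp =>
      rw [map_mul, hp, map_mul, map_mul, map_mul, MvPolynomial.aeval_X, MvPolynomial.rename_X]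
      congr 1
      rcases i with j | i
      · simp
      · simp
  rw [h1] at h
  have h2 := MvPolynomial.map_injective (MvPolynomial.aeval e : MvPolynomial (Fin l) ℚ →ₐ[ℚ] ℂ).toRingHom he
    (h.trans (map_zero _).symm)
  have h3 := (MvPolynomial.sumAlgEquiv ℚ (Fin r) (Fin l)).injective (h2.trans (map_zero _).symm)
  exact MvPolynomial.rename_injective _ Sum.swap_leftInverse.injective (h3.trans (map_zero _).symm)

theorem Q_val {l r : ℕ} {A : Type} [CommRing A] [Algebra ℚ A] [Algebra (⊥ : IntermediateField ℚ ℂ) A]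
    [IsScalarTower ℚ (⊥ : IntermediateField ℚ ℂ) A] (N : MvPolynomial (Fin l ⊕ Fin r) ℚ) (w : Fin (l + 2) → A)
    (y : Fin r → A) :
    MvPolynomial.aeval (Sum.elim w y) (MvPolynomial.map (algebraMap ℚ (⊥ : IntermediateField ℚ ℂ))
      (MvPolynomial.rename (Sum.map (Fin.castAdd 2) id) N)) =
      MvPolynomial.aeval (Sum.elim (fun j => w (Fin.castAdd 2 j)) y) N := by
  rw [MvPolynomial.aeval_map_algebraMap, MvPolynomial.aeval_rename]
  congr 2
  funext i
  rcases i with j | i
  · simp
  · simp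

theorem windows (l r d δ : ℕ) : ∃ E : ℕ, ∀ H t : ℕ, (H + 2) ^ E ≤ t →
    ∀ α : Fin l → ℂ, (∀ i, IsAlgebraic ℚ (α i)) → LinearIndependent ℚ α →
    ∃ S : Finset ℂ, S.card ≤ l + 2 ∧ ∀ β : Fin r → ℂ, Function.Injective β → (∀ i, β i ∉ S ∧ β i ≠ 0 ∧ Adm d H (β i)) →
      ∀ x : Fin r → ℂ, (∀ i, Complex.exp (x i) = t + β i) →
      ∀ K : IntermediateField ℚ ℂ, FiniteDimensional ℚ K → finrank ℚ K ≤ d →
      ∀ P : MvPolynomial (Fin l ⊕ Fin r) K, P ≠ 0 → P.totalDegree ≤ δ →
        MvPolynomial.aeval (Sum.elim (fun i => Complex.exp (α i)) x) P ≠ 0 := by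
  classical
  obtain ⟨E, hE⟩ := t_window r (d + 1) (d ^ d * δ) (l + 2)
  refine ⟨E, fun H t ht α hα hli => ?_⟩
  have ht0 : (t : ℂ) ≠ 0 := by
    have : 0 < t := lt_of_lt_of_le (by positivity) ht
    exact_mod_cast this.ne'
  set w : Fin (l + 2) → ℂ := Fin.append (fun i => Complex.exp (α i)) ![Complex.log t, 2 * Real.pi * Complex.I] with hw
  obtain ⟨S, hS, h⟩ := hE H t ht ⊥ inferInstance (by rw [IntermediateField.finrank_bot]; omega) w
  refine ⟨S, hS, ?_⟩
  intro β hinj hβ x hx K hK hKd P hP0 hPd hPv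
  obtain ⟨N, hN0, hNd, hNv⟩ := norm_poly K hKd P hP0 hPd _ hPv
  have hst : ∀ i, x i - Complex.log (1 + β i / t) ∈
      Submodule.span (⊥ : IntermediateField ℚ ℂ) (insert 1 (Set.range w)) := by
    intro i
    have h1 : (1 : ℂ) + β i / t ≠ 0 := by
      intro h0
      have h2 : (t : ℂ) + β i = 0 := by
        have h3 : (t : ℂ) * (1 + β i / t) = t + β i := by
          field_simp
        rw [← h3, h0, mul_zero]
      rw [← hx i] at h2
      exact Complex.exp_ne_zero _ h2
    have h2 : Complex.exp (x i) = Complex.exp (Complex.log (1 + β i / t) + Complex.log t) := by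
      rw [Complex.exp_add, Complex.exp_log h1, Complex.exp_log ht0, hx i]
      field_simp
    obtain ⟨m, hm⟩ := Complex.exp_eq_exp_iff_exists_int.1 h2
    have h3 : x i - Complex.log (1 + β i / t) = w (Fin.natAdd l 0) + (m : ℂ) * w (Fin.natAdd l 1) := by
      rw [hw, Fin.append_right, Fin.append_right, hm]
      simp
      ring
    rw [h3]
    refine Submodule.add_mem _ (Submodule.subset_span (Set.mem_insert_of_mem _ ⟨_, rfl⟩)) ?_
    have h4 : (m : ℂ) * w (Fin.natAdd l 1) = (m : (⊥ : IntermediateField ℚ ℂ)) • w (Fin.natAdd l 1) := by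
      rw [Algebra.smul_def]
      simp
    rw [h4]
    exact Submodule.smul_mem _ _ (Submodule.subset_span (Set.mem_insert_of_mem _ ⟨_, rfl⟩))
  refine hN0 ?_
  have hind : AlgebraicIndependent ℚ (fun i => Complex.exp (α i)) :=
    (Pool.Agent.H297R2.exp_algebraicIndependent α hα hli).restrictScalars
      (algebraMap ℚ (algebraicClosure ℚ ℂ)).injective
  refine inj_sub _ hind N ?_
  set Q : MvPolynomial (Fin (l + 2) ⊕ Fin r) (⊥ : IntermediateField ℚ ℂ) :=
    MvPolynomial.map (algebraMap ℚ _) (MvPolynomial.rename (Sum.map (Fin.castAdd 2) id) N) with hQ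
  have hwe : ∀ j : Fin l, w (Fin.castAdd 2 j) = Complex.exp (α j) := by
    intro j
    rw [hw, Fin.append_left]
  have key := h β hinj (fun i => ⟨(hβ i).1, (hβ i).2.1, by
      obtain ⟨p, h1, h2, h3, h4⟩ := (hβ i).2.2
      exact ⟨p, h1, h2.trans (by omega), h3, h4⟩⟩) x hst Q (by
        refine le_trans (le_trans (le_of_eq ?_) (MvPolynomial.totalDegree_rename_le (Sum.map (Fin.castAdd 2) id) N)) hNd
        rw [hQ]
        unfold MvPolynomial.totalDegree
        rw [MvPolynomial.support_map_of_injective _ (algebraMap ℚ _).injective]) (by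
        rw [hQ, Q_val]
        simp only [hwe]
        exact hNv)
  rw [hQ, Q_val] at key
  simp only [hwe] at key
  exact key

end Pool.Agent.Y916.Gel
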