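import Pool.Agent.Y113.P.SD

/-!
# Logarithms in short windows (MP_60829e_nt): definitions and statements of the parts

`T` is an integer polynomial with `T(0) = 1`, and `F T s = ∫ z^s / T(z) dz`. The logarithms `log (1 - θ z)`, where
`T(z) = ∏ (1 - θ z)`, are linear combinations of the `F T s`, `s < deg T`.
-/

set_option autoImplicit false

open PowerSeries

namespace Pool.Agent.Y916

open Pool.Agent.Y113

/-- the power series `1 / T` -/
noncomputable def U (T : Polynomial ℤ) : ℚ⟦X⟧ := (ps T)⁻¹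

/-- `∫ z^s / T(z) dz` -/
noncomputable def F (T : Polynomial ℤ) (s : ℕ) : ℚ⟦X⟧ :=
  PowerSeries.mk fun m => if m ≤ s then 0 else coeff (m - 1 - s) (U T) / m

/-- exponents of total degree at most `Δ` -/
def Mn (n Δ : ℕ) : Type := {e : Fin n → Fin (Δ + 1) // ∑ i, (e i : ℕ) ≤ Δ}

instance (n Δ : ℕ) : Fintype (Mn n Δ) := by unfold Mn; infer_instance
instance (n Δ : ℕ) : DecidableEq (Mn n Δ) := by unfold Mn; infer_instance

/-- the monomials in the `n` functions `y s` -/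
noncomputable def mo {n : ℕ} (y : Fin n → ℚ⟦X⟧) (Δ : ℕ) (e : Mn n Δ) : ℚ⟦X⟧ := ∏ s : Fin n, y s ^ (e.1 s : ℕ)

/-- (BASE) the functions `1, F T 0, ..., F T (n - 1)` form a G-system -/
def S_base : Prop := ∀ n : ℕ, ∃ E : ℕ, ∀ (H : ℕ) (T : Polynomial ℤ), T.coeff 0 = 1 → T.natDegree ≤ n →
  (∀ l, |T.coeff l| ≤ H) →
  GSys n (((H : ℝ) + 2) ^ E) T (fun i : Option (Fin n) => i.elim (1 : ℚ⟦X⟧) fun s => F T s)

/-- (MON) monomials in a G-system which contains `1` form a G-system -/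
def S_mon : Prop := ∀ q n Δ : ℕ, ∃ E : ℕ, ∀ (C : ℝ) (T : Polynomial ℤ) (y : Fin n → ℚ⟦X⟧),
  GSys q C T (fun i : Option (Fin n) => i.elim (1 : ℚ⟦X⟧) y) → GSys q ((2 * C) ^ E) T (mo y Δ)

/-- (LI) functional independence -/
def S_LI : Prop := ∀ (n Δ : ℕ) (T : Polynomial ℤ), T.coeff 0 = 1 → T.natDegree = n →
  Squarefree (T.map (Int.castRingHom ℚ)) →
  LinearIndependent (Polynomial ℚ) (mo (fun s : Fin n => F T s) Δ)

/-- (VAL) the values at `1 / t` have no polynomial relation of degree at most `Δ` over `ℚ` -/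
def S_val : Prop := ∀ n Δ : ℕ, ∃ E : ℕ, ∀ (H t : ℕ) (T : Polynomial ℤ), (H + 2) ^ E ≤ t → T.coeff 0 = 1 →
  T.natDegree = n → Squarefree (T.map (Int.castRingHom ℚ)) → (∀ l, |T.coeff l| ≤ H) →
  ∀ P : MvPolynomial (Fin n) ℚ, P.totalDegree ≤ Δ → MvPolynomial.aeval (fun s : Fin n => ev t (F T s)) P = 0 → P = 0

/-- (PART) partial fractions -/
def S_part : Prop := ∀ (Θ : Finset ℂ) (T : Polynomial ℤ), (0 : ℂ) ∉ Θ →
  T.map (Int.castRingHom ℂ) = ∏ θ ∈ Θ, (1 - Polynomial.C θ * Polynomial.X) →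
  ∀ s < Θ.card, ∃ b : ℂ → ℂ, (∀ θ, b θ ∈ IntermediateField.adjoin ℚ (Θ : Set ℂ)) ∧
    ∀ t : ℝ, 0 < t → (∀ θ ∈ Θ, ‖θ‖ < t) →
      ((ev t (F T s) : ℝ) : ℂ) = ∑ θ ∈ Θ, b θ * Complex.log (1 - θ / t)

end Pool.Agent.Y916
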