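import Pool.Agent.Y916.Main
import Pool.Agent.Y113.W.Count

/-!
# From windows to `k`-tuples
-/

set_option autoImplicit false

open Module

namespace Pool.Agent.Y916

open Pool.Agent.Y916.Ari Pool.Agent.Y113

theorem log_split {x z : ℂ} {m : ℕ} (hm : 0 < m) (hx : (m : ℂ) * z = x) (hx0 : x ≠ 0) :
    Complex.log z = Complex.log x - Complex.log (m : ℂ) := by
  have hz : z ≠ 0 := by
    rintro rfl
    exact hx0 (by rw [← hx, mul_zero])
  have hm' : (0 : ℝ) < (m : ℝ) := by exact_mod_cast hm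
  have h1 := Complex.log_ofReal_mul hm' hz
  have h2 : ((m : ℝ) : ℂ) = (m : ℂ) := Complex.ofReal_natCast m
  rw [h2, hx] at h1
  rw [h1, ← Complex.natCast_log]
  push_cast
  ring

/-- shifting an algebraic number -/
theorem adm_shift {d h : ℕ} {z : ℂ} (hz : Adm d h z) {g H : ℕ} (hg : g ≤ H) :
    Adm d ((H + 2) ^ (3 * d + h + 1)) (z - g) := by
  obtain ⟨p, hp0, hpd, hpH, hpz⟩ := hz
  refine ⟨Polynomial.taylor (g : ℤ) p, ?_, ?_, ?_, ?_⟩
  · intro h0
    exact hp0 ((Polynomial.taylor_eq_zero _ _).1 h0)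
  · rw [Polynomial.natDegree_taylor]
    exact hpd
  · intro n
    rw [Polynomial.taylor_coeff, Polynomial.hasseDeriv_apply, Polynomial.sum_def, Polynomial.eval_finset_sum]
    refine (Finset.abs_sum_le_sum_abs _ _).trans ?_
    have h1 : ∀ i ∈ p.support, |Polynomial.eval (g : ℤ) (Polynomial.monomial (i - n) (((i.choose n : ℕ) : ℤ) * p.coeff i))|
        ≤ (((H + 2) ^ (2 * d + h) : ℕ) : ℤ) := by
      intro i hi
      have hid : i ≤ d := (Polynomial.le_natDegree_of_mem_supp i hi).trans hpd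
      rw [Polynomial.eval_monomial, abs_mul, abs_mul, abs_pow, Nat.abs_cast, Nat.abs_cast]
      have h2 : ((i.choose n : ℕ) : ℤ) ≤ (((H + 2) ^ d : ℕ) : ℤ) := by
        exact_mod_cast (Nat.choose_le_two_pow i n).trans ((Nat.pow_le_pow_left (by omega) i).trans
          (Nat.pow_le_pow_right (by omega) hid))
      have h3 : |p.coeff i| ≤ (((H + 2) ^ h : ℕ) : ℤ) := by
        refine (hpH i).trans ?_
        have h4 : h ≤ (H + 2) ^ h := (Nat.lt_pow_self (by omega)).le
        exact_mod_cast h4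
      have h4 : (g : ℤ) ^ (i - n) ≤ (((H + 2) ^ d : ℕ) : ℤ) := by
        have h5 : g ^ (i - n) ≤ (H + 2) ^ d :=
          (Nat.pow_le_pow_left (by omega) _).trans (Nat.pow_le_pow_right (by omega) (by omega))
        exact_mod_cast h5
      calc ((i.choose n : ℕ) : ℤ) * |p.coeff i| * (g : ℤ) ^ (i - n)
          ≤ (((H + 2) ^ d : ℕ) : ℤ) * (((H + 2) ^ h : ℕ) : ℤ) * (((H + 2) ^ d : ℕ) : ℤ) := by
            refine mul_le_mul (mul_le_mul h2 h3 (abs_nonneg _) (by positivity)) h4 (by positivity) (by positivity)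
        _ = _ := by push_cast; ring
    refine (Finset.sum_le_card_nsmul _ _ _ h1).trans ?_
    have hc : p.support.card ≤ (H + 2) ^ (d + 1) := by
      refine (Polynomial.card_supp_le_succ_natDegree p).trans ?_
      have h5 : d + 1 ≤ (H + 2) ^ (d + 1) := (Nat.lt_pow_self (by omega)).le
      omega
    rw [nsmul_eq_mul]
    have h6 : p.support.card * (H + 2) ^ (2 * d + h) ≤ (H + 2) ^ (3 * d + h + 1) := by
      calc p.support.card * (H + 2) ^ (2 * d + h) ≤ (H + 2) ^ (d + 1) * (H + 2) ^ (2 * d + h) :=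
            Nat.mul_le_mul_right _ hc
        _ = _ := by rw [← pow_add]; congr 1; ring
    exact_mod_cast h6
  · rw [Polynomial.taylor_apply, Polynomial.aeval_comp]
    have : Polynomial.aeval (z - (g : ℂ)) (Polynomial.X + Polynomial.C (g : ℤ)) = z := by
      simp
    rw [this]
    exact hpz

/-- coordinates -/
theorem coords (V : Submodule ℚ ℂ) (hV : Module.Finite ℚ V) (D : ℕ) (hD : finrank ℚ V ≤ D) :
    ∃ (w : Fin D → ℂ) (c : ℂ → Fin D → ℚ), ∀ v ∈ V, v = ∑ j, ((c v j : ℚ) : ℂ) * w j := by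
  classical
  set b := Module.finBasis ℚ V with hb
  set w : Fin D → ℂ := fun j => if h : (j : ℕ) < finrank ℚ V then (b ⟨j, h⟩ : ℂ) else 0 with hw
  have hbw : ∀ i, (b i : ℂ) ∈ Submodule.span ℚ (Set.range w) := by
    intro i
    refine Submodule.subset_span ⟨Fin.castLE hD i, ?_⟩
    rw [hw]
    simp only
    have h4 : ((Fin.castLE hD i : Fin D) : ℕ) < finrank ℚ V := i.2
    rw [dif_pos h4]
    rfl
  have key : ∀ v ∈ V, ∃ c : Fin D → ℚ, v = ∑ j, ((c j : ℚ) : ℂ) * w j := by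
    intro v hv
    have h2 : v ∈ Submodule.span ℚ (Set.range w) := by
      have h3 := congrArg (fun u : V => (u : ℂ)) (b.sum_repr ⟨v, hv⟩)
      simp only [Submodule.coe_sum, Submodule.coe_smul] at h3
      rw [← h3]
      exact Submodule.sum_mem _ fun i _ => Submodule.smul_mem _ _ (hbw i)
    obtain ⟨c, hc⟩ := (Submodule.mem_span_range_iff_exists_fun ℚ).1 h2
    refine ⟨c, ?_⟩
    rw [← hc]
    refine Finset.sum_congr rfl fun j _ => ?_
    rw [Algebra.smul_def]
    rfl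
  choose! c hc using key
  exact ⟨w, c, hc⟩

section Lin

variable {D r : ℕ} (w : Fin D → ℂ) (c : ℂ → Fin D → ℚ) (L : ℂ) (P : MvPolynomial (Fin r) ℂ)

/-- the relation with the coordinates of the coefficients -/
noncomputable def Pt : MvPolynomial (Fin (D + 1) ⊕ Fin r) (⊥ : IntermediateField ℚ ℂ) :=
  ∑ e ∈ P.support, ∑ j : Fin D, MvPolynomial.C (algebraMap ℚ (⊥ : IntermediateField ℚ ℂ) (c (P.coeff e) j)) *
    (MvPolynomial.X (Sum.inl j.succ) * ∏ i : Fin r, MvPolynomial.X (Sum.inr i) ^ e i)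

theorem Pt_deg {δ : ℕ} (hP : P.totalDegree ≤ δ) : (Pt c P).totalDegree ≤ δ + 1 := by
  unfold Pt
  refine (MvPolynomial.totalDegree_finset_sum _ _).trans (Finset.sup_le fun e he => ?_)
  refine (MvPolynomial.totalDegree_finset_sum _ _).trans (Finset.sup_le fun j _ => ?_)
  refine (MvPolynomial.totalDegree_mul _ _).trans ?_
  rw [MvPolynomial.totalDegree_C, zero_add]
  refine (MvPolynomial.totalDegree_mul _ _).trans ?_
  have h1 : (MvPolynomial.X (Sum.inl j.succ) :
      MvPolynomial (Fin (D + 1) ⊕ Fin r) (⊥ : IntermediateField ℚ ℂ)).totalDegree ≤ 1 :=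
    (MvPolynomial.totalDegree_X _).le
  have h2 : (∏ i : Fin r, (MvPolynomial.X (Sum.inr i) :
      MvPolynomial (Fin (D + 1) ⊕ Fin r) (⊥ : IntermediateField ℚ ℂ)) ^ e i).totalDegree ≤ δ := by
    refine (MvPolynomial.totalDegree_finset_prod _ _).trans ?_
    refine (Finset.sum_le_sum (g := fun i => e i) fun i _ => ?_).trans ?_
    · refine (MvPolynomial.totalDegree_pow _ _).trans ?_
      rw [MvPolynomial.totalDegree_X, mul_one]
    · have h3 := (MvPolynomial.le_totalDegree he).trans hP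
      rwa [Finsupp.sum_fintype _ _ (fun _ => rfl)] at h3
  omega

theorem Pt_val (hc : ∀ e, P.coeff e = ∑ j, ((c (P.coeff e) j : ℚ) : ℂ) * w j) {A : Type*} [CommRing A] [Algebra ℂ A]
    [Algebra (⊥ : IntermediateField ℚ ℂ) A] (h1 : ∀ q : ℚ, algebraMap (⊥ : IntermediateField ℚ ℂ) A
      (algebraMap ℚ (⊥ : IntermediateField ℚ ℂ) q) = algebraMap ℂ A (q : ℂ)) (y : Fin r → A) :
    MvPolynomial.aeval (Sum.elim (fun j => algebraMap ℂ A ((Fin.cons L w : Fin (D + 1) → ℂ) j)) y) (Pt c P)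
      = MvPolynomial.aeval y P := by
  unfold Pt
  rw [map_sum, MvPolynomial.aeval_def y, MvPolynomial.eval₂_eq']
  refine Finset.sum_congr rfl fun e _ => ?_
  rw [map_sum]
  conv_rhs => rw [hc e, map_sum, Finset.sum_mul]
  refine Finset.sum_congr rfl fun j _ => ?_
  rw [map_mul, map_mul, map_prod, MvPolynomial.aeval_C, MvPolynomial.aeval_X, h1, Sum.elim_inl, Fin.cons_succ, map_mul]
  simp only [map_pow, MvPolynomial.aeval_X, Sum.elim_inr]
  ring

end Lin

/-- all determinations of the logarithms -/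
theorem all_logs {ι : Type} [Fintype ι] {δ : ℕ} {V : Submodule ℚ ℂ} {x l : ι → ℂ} (hx : ∀ i, x i ≠ 0)
    (hl : ∀ i, Complex.exp (l i) = x i) (h : Rel δ V l) :
    Rel δ (V * (sp fun _ : Unit => 2 * (Real.pi : ℂ) * Complex.I) ^ δ) (fun i => Complex.log (x i)) := by
  classical
  obtain ⟨P, hP0, hPd, hPc, hPv⟩ := h
  have h1 : ∀ i, ∃ m : ℤ, l i = Complex.log (x i) + m * (2 * Real.pi * Complex.I) := by
    intro i
    refine Complex.exp_eq_exp_iff_exists_int.1 ?_
    rw [hl, Complex.exp_log (hx i)]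
  choose m hm using h1
  set L : ι → MvPolynomial ι ℂ := fun i => MvPolynomial.X i + MvPolynomial.C ((m i : ℂ) * (2 * Real.pi * Complex.I))
    with hL
  have hLD : ∀ i, DC 1 (sp fun _ : Unit => 2 * (Real.pi : ℂ) * Complex.I) (L i) := by
    intro i
    refine ⟨?_, fun s => ?_⟩
    · refine (MvPolynomial.totalDegree_add _ _).trans (max_le (MvPolynomial.totalDegree_X i).le ?_)
      rw [MvPolynomial.totalDegree_C]
      exact Nat.zero_le _
    · rw [hL, MvPolynomial.coeff_add, MvPolynomial.coeff_X', MvPolynomial.coeff_C]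
      refine Submodule.add_mem _ ?_ ?_
      · split_ifs
        · exact sp_one _
        · exact Submodule.zero_mem _
      · split_ifs
        · have h2 := Submodule.smul_mem _ (m i : ℚ) (sp_mem (fun _ : Unit => 2 * (Real.pi : ℂ) * Complex.I) ())
          have h3 : ((m i : ℚ)) • (2 * (Real.pi : ℂ) * Complex.I) = (m i : ℂ) * (2 * Real.pi * Complex.I) := by
            rw [Algebra.smul_def]
            simp
          rwa [h3] at h2
        · exact Submodule.zero_mem _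
  have hQ := DC.subst' (sp_one fun _ : Unit => 2 * (Real.pi : ℂ) * Complex.I) L hLD ⟨hPd, hPc⟩
  refine ⟨MvPolynomial.aeval L P, ?_, hQ.1, hQ.2, ?_⟩
  · intro h0
    apply hP0
    have h2 : (MvPolynomial.aeval (fun i => MvPolynomial.X i - MvPolynomial.C ((m i : ℂ) *
        (2 * Real.pi * Complex.I))) : MvPolynomial ι ℂ →ₐ[ℂ] MvPolynomial ι ℂ).comp (MvPolynomial.aeval L)
        = AlgHom.id ℂ _ := by
      refine MvPolynomial.algHom_ext fun i => ?_
      simp [hL]
    have h3 := DFunLike.congr_fun h2 P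
    rw [AlgHom.comp_apply, h0, map_zero, AlgHom.id_apply] at h3
    exact h3.symm
  · have h2 : (MvPolynomial.aeval (fun i => Complex.log (x i)) : MvPolynomial ι ℂ →ₐ[ℂ] ℂ).comp
        (MvPolynomial.aeval L) = MvPolynomial.aeval l := by
      refine MvPolynomial.algHom_ext fun i => ?_
      simp [hL, hm i]
    exact (DFunLike.congr_fun h2 P).trans hPv

/-- windows of integers -/
theorem hwin {r : ℕ} (θ : Fin r → ℂ) (hθ : Function.Injective θ) (d h : ℕ) (hadm : ∀ j, Adm d h (θ j)) (δ D : ℕ) :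
    ∃ M E : ℕ, ∀ (V : Submodule ℚ ℂ), Module.Finite ℚ V → finrank ℚ V ≤ D → ∀ (H t : ℕ), (H + 2) ^ E ≤ t →
      ∀ S : Finset ℕ, (∀ g ∈ S, g ≤ H ∧ Rel δ V (fun j => Complex.log (((t - g : ℕ) : ℂ) + θ j))) → S.card ≤ M := by
  classical
  obtain ⟨E0, hE0⟩ := t_window r (d + 1) (δ + 1) (D + 1)
  set e := 3 * d + h + 1 with he
  refine ⟨r * (D + 2), (e + 2) * E0 + (e + 2), ?_⟩
  intro V hV hVD H t ht S hS
  obtain ⟨w, c, hwc⟩ := coords V hV D hVD
  set w' : Fin (D + 1) → ℂ := Fin.cons (Complex.log (t : ℂ)) w with hw'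
  have hH2 : (H + 2) ^ e + 2 ≤ (H + 2) ^ (e + 2) := by
    have h1 : 1 ≤ (H + 2) ^ e := Nat.one_le_pow _ _ (by omega)
    have h2 : (H + 2) ^ (e + 2) = (H + 2) ^ e * ((H + 2) * (H + 2)) := by ring
    have h7 : 2 * 2 ≤ (H + 2) * (H + 2) := Nat.mul_le_mul (by omega) (by omega)
    have h8 := Nat.mul_le_mul_left ((H + 2) ^ e) h7
    rw [h2]
    omega
  have ht1 : ((H + 2) ^ e + 2) ^ E0 ≤ t := by
    refine le_trans ?_ ht
    refine (Nat.pow_le_pow_left hH2 _).trans ?_
    rw [← pow_mul]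
    exact Nat.pow_le_pow_right (by omega) (by omega)
  have ht2 : (H + 2) ^ e + 2 ≤ t := by
    refine le_trans (hH2.trans ?_) ht
    exact Nat.pow_le_pow_right (by omega) (by omega)
  have ht3 : H ≤ t := by
    have h1 : H + 2 ≤ (H + 2) ^ e := Nat.le_self_pow (by omega) _
    omega
  obtain ⟨X, hX, hwin⟩ := hE0 ((H + 2) ^ e) t ht1 ⊥ inferInstance (by
    rw [IntermediateField.finrank_bot]
    omega) w'
  have hbad : ∀ g ∈ S, ∃ j : Fin r, θ j - g ∈ insert 0 X := by
    intro g hg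
    obtain ⟨hgH, P, hP0, hPd, hPc, hPv⟩ := hS g hg
    by_contra hcon
    push Not at hcon
    have hadm' : ∀ j, Adm (d + 1) ((H + 2) ^ e) (θ j - g) := by
      intro j
      obtain ⟨p, h1, h2, h3, h4⟩ := adm_shift (hadm j) hgH
      exact ⟨p, h1, by omega, h3, h4⟩
    have hβ : ∀ j, θ j - g ∉ X ∧ θ j - g ≠ 0 ∧ Adm (d + 1) ((H + 2) ^ e) (θ j - g) := by
      intro j
      have h1 := hcon j
      rw [Finset.mem_insert, not_or] at h1
      exact ⟨h1.2, h1.1, hadm' j⟩
    have hinj : Function.Injective fun j => θ j - (g : ℂ) := by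
      intro i j hij
      exact hθ (sub_left_injective hij)
    have hc : ∀ e, P.coeff e = ∑ j, ((c (P.coeff e) j : ℚ) : ℂ) * w j := fun e => hwc _ (hPc e)
    have hl : ∀ j, Complex.log (((t - g : ℕ) : ℂ) + θ j) - Complex.log (1 + (θ j - g) / t) ∈
        Submodule.span (⊥ : IntermediateField ℚ ℂ) (insert 1 (Set.range w')) := by
      intro j
      have ht0 : (t : ℂ) ≠ 0 := by
        have : t ≠ 0 := by omega
        exact_mod_cast this
      have h5 : (((t - g : ℕ) : ℂ) + θ j) ≠ 0 := by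
        intro h0
        rw [Nat.cast_sub (hgH.trans ht3)] at h0
        have h6 : θ j - g = - (t : ℂ) := by linear_combination h0
        obtain ⟨p, h1, -, h3, h4⟩ := hadm' j
        have h7 := root_bound h1 h3 h4
        rw [h6, norm_neg, Complex.norm_natCast] at h7
        have h8 : (((H + 2) ^ e : ℕ) : ℝ) + 2 ≤ t := by exact_mod_cast ht2
        linarith
      have h6 := log_split (x := ((t - g : ℕ) : ℂ) + θ j) (z := 1 + (θ j - g) / t) (m := t) (by omega) (by
        rw [Nat.cast_sub (hgH.trans ht3)]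
        field_simp
        ring) h5
      rw [h6]
      have h7 : Complex.log (((t - g : ℕ) : ℂ) + θ j) - (Complex.log (((t - g : ℕ) : ℂ) + θ j) - Complex.log (t : ℂ))
          = Complex.log (t : ℂ) := by ring
      rw [h7]
      exact Submodule.subset_span (Set.mem_insert_of_mem _ ⟨0, by simp [hw']⟩)
    have h9 := hwin (fun j => θ j - g) hinj hβ (fun j => Complex.log (((t - g : ℕ) : ℂ) + θ j)) hl
      (Pt c P) (Pt_deg c P hPd) (by
        have h10 := Pt_val w c (Complex.log (t : ℂ)) P hc (A := ℂ) (fun q => rfl)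
          (fun j => Complex.log (((t - g : ℕ) : ℂ) + θ j))
        exact h10.trans hPv)
    have h11 := Pt_val w c (Complex.log (t : ℂ)) P hc (A := MvPolynomial (Fin r) ℂ) (fun q => rfl) MvPolynomial.X
    rw [MvPolynomial.aeval_X_left_apply] at h11
    exact hP0 (h11.symm.trans h9)
  rcases S.eq_empty_or_nonempty with rfl | ⟨g0, hg0⟩
  · simp
  obtain ⟨j0, -⟩ := hbad g0 hg0
  have : Nonempty (Fin r) := ⟨j0⟩
  choose! j hj using hbad
  have h1 : S.card ≤ ((Finset.univ : Finset (Fin r)) ×ˢ insert 0 X).card := by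
    refine Finset.card_le_card_of_injOn (fun g => (j g, θ (j g) - g)) ?_ ?_
    · intro g hg
      rw [Finset.mem_coe, Finset.mem_product]
      exact ⟨Finset.mem_univ _, hj g hg⟩
    · intro g _ g' _ hgg
      simp only [Prod.mk.injEq] at hgg
      have h2 := hgg.2
      rw [hgg.1] at h2
      have h3 : (g : ℂ) = g' := sub_right_injective h2
      exact_mod_cast h3
  rw [Finset.card_product, Finset.card_univ, Fintype.card_fin] at h1
  refine h1.trans (Nat.mul_le_mul_left _ ?_)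
  exact (Finset.card_insert_le _ _).trans (by omega)

/-- finitely many algebraic numbers have bounded degree and height -/
theorem adm_all {r : ℕ} (θ : Fin r → ℂ) (hθ : ∀ j, IsAlgebraic ℚ (θ j)) : ∃ d h : ℕ, ∀ j, Adm d h (θ j) := by
  have h1 : ∀ j, ∃ n : ℕ, Adm n n (θ j) := by
    intro j
    have h2 : IsAlgebraic ℤ (θ j) := (IsFractionRing.isAlgebraic_iff ℤ ℚ ℂ).2 (hθ j)
    obtain ⟨p, hp0, hp⟩ := h2
    refine ⟨p.natDegree + ∑ l ∈ p.support, (p.coeff l).natAbs, p, hp0, by omega, fun l => ?_, hp⟩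
    by_cases hl : l ∈ p.support
    · have h3 : (p.coeff l).natAbs ≤ ∑ l ∈ p.support, (p.coeff l).natAbs :=
        Finset.single_le_sum (f := fun l => (p.coeff l).natAbs) (fun _ _ => Nat.zero_le _) hl
      rw [Int.abs_eq_natAbs]
      exact_mod_cast h3.trans (Nat.le_add_left _ _)
    · rw [Polynomial.notMem_support_iff.1 hl, abs_zero]
      positivity
  choose n hn using h1
  refine ⟨∑ j, n j, ∑ j, n j, fun j => ?_⟩
  have h3 : n j ≤ ∑ j, n j := Finset.single_le_sum (f := n) (fun _ _ => Nat.zero_le _) (Finset.mem_univ j)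
  obtain ⟨p, hp0, hpd, hpH, hp⟩ := hn j
  exact ⟨p, hp0, hpd.trans h3, fun l => (hpH l).trans (by exact_mod_cast h3), hp⟩

/-- tuples -/
theorem tuples {r : ℕ} (θ : Fin r → ℂ) (hθ : ∀ j, IsAlgebraic ℚ (θ j)) (hinj : Function.Injective θ) (k δ D : ℕ) :
    ∃ c : ℝ, 0 < c ∧ ∃ C : ℝ, ∀ V : Submodule ℚ ℂ, Module.Finite ℚ V → finrank ℚ V ≤ D → ∀ T : ℕ, 1 ≤ T →
      {n : Fin k → ℕ | (∀ i, 2 ≤ n i ∧ n i ≤ T) ∧ ∃ l : Fin k × Fin r → ℂ,
        (∀ p, Complex.exp (l p) = n p.1 + θ p.2) ∧ Rel δ V l}.Finite ∧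
      ({n : Fin k → ℕ | (∀ i, 2 ≤ n i ∧ n i ≤ T) ∧ ∃ l : Fin k × Fin r → ℂ,
        (∀ p, Complex.exp (l p) = n p.1 + θ p.2) ∧ Rel δ V l}.ncard : ℝ) ≤ C * (T : ℝ) ^ ((k : ℝ) - c) := by
  classical
  obtain ⟨d, h, hadm⟩ := adm_all θ hθ
  obtain ⟨c, hc, C, hC, hcount⟩ := count_tuples (fun (n : ℕ) (j : Fin r) => Complex.log ((n : ℂ) + θ j))
    (fun δ D => hwin θ hinj d h hadm δ D) δ k (D * 2 ^ δ)
  refine ⟨c, hc, C, fun V hV hVD T hT => ?_⟩
  set W : Submodule ℚ ℂ := V * (sp fun _ : Unit => 2 * (Real.pi : ℂ) * Complex.I) ^ δ with hW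
  obtain ⟨hs1, hs2⟩ := sp_fin (fun _ : Unit => 2 * (Real.pi : ℂ) * Complex.I)
  obtain ⟨hp1, hp2⟩ := finrank_pow_le (sp fun _ : Unit => 2 * (Real.pi : ℂ) * Complex.I) δ
  obtain ⟨hq1, hq2⟩ := finrank_mul_le V ((sp fun _ : Unit => 2 * (Real.pi : ℂ) * Complex.I) ^ δ)
  have h1 := hcount W hq1 (hq2.trans (Nat.mul_le_mul hVD (hp2.trans (Nat.pow_le_pow_left (by simpa using hs2) _)))) T hT
  set B := (Fintype.piFinset fun _ : Fin k => Finset.Icc 2 T).filter
    fun t => Rel δ W (tup (fun (n : ℕ) (j : Fin r) => Complex.log ((n : ℂ) + θ j)) t) with hB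
  have hsub : {n : Fin k → ℕ | (∀ i, 2 ≤ n i ∧ n i ≤ T) ∧ ∃ l : Fin k × Fin r → ℂ,
        (∀ p, Complex.exp (l p) = n p.1 + θ p.2) ∧ Rel δ V l} ⊆ (B : Set (Fin k → ℕ)) := by
    rintro n ⟨hn, l, hl, hrel⟩
    rw [hB, Finset.mem_coe, Finset.mem_filter, Fintype.mem_piFinset]
    refine ⟨fun i => Finset.mem_Icc.2 (hn i), ?_⟩
    exact all_logs (x := fun p : Fin k × Fin r => (n p.1 : ℂ) + θ p.2)
      (fun p h0 => Complex.exp_ne_zero (l p) ((hl p).trans h0)) hl hrel
  refine ⟨(Finset.finite_toSet B).subset hsub, le_trans ?_ h1⟩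
  have h2 := Set.ncard_le_ncard hsub (Finset.finite_toSet B)
  rw [Set.ncard_coe_finset] at h2
  exact_mod_cast h2

end Pool.Agent.Y916
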