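import Pool.Agent.Y916.NF
import Pool.Agent.Y916.Tup

/-!
# Logarithms at tuples, relations over number fields
-/

set_option autoImplicit false

open Module

namespace Pool.Agent.Y916

open Pool.Agent.Y113

theorem tuples_nf {r : ℕ} (θ : Fin r → ℂ) (hθ : ∀ j, IsAlgebraic ℚ (θ j)) (hinj : Function.Injective θ) (k δ d D : ℕ) :
    ∃ c : ℝ, 0 < c ∧ ∃ C : ℝ, ∀ V : Submodule ℚ ℂ, Module.Finite ℚ V → finrank ℚ V ≤ D → ∀ T : ℕ, 1 ≤ T →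
      {n : Fin k → ℕ | (∀ i, 2 ≤ n i ∧ n i ≤ T) ∧ ∃ l : Fin k × Fin r → ℂ,
        (∀ p, Complex.exp (l p) = n p.1 + θ p.2) ∧ ∃ L : IntermediateField ℚ ℂ, FiniteDimensional ℚ L ∧
        finrank ℚ L ≤ d ∧ ∃ P : MvPolynomial (Fin k × Fin r) ℂ, P ≠ 0 ∧ P.totalDegree ≤ δ ∧
        (∀ s, P.coeff s ∈ Submodule.span L (V : Set ℂ)) ∧ MvPolynomial.aeval l P = 0}.Finite ∧
      ({n : Fin k → ℕ | (∀ i, 2 ≤ n i ∧ n i ≤ T) ∧ ∃ l : Fin k × Fin r → ℂ,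
        (∀ p, Complex.exp (l p) = n p.1 + θ p.2) ∧ ∃ L : IntermediateField ℚ ℂ, FiniteDimensional ℚ L ∧
        finrank ℚ L ≤ d ∧ ∃ P : MvPolynomial (Fin k × Fin r) ℂ, P ≠ 0 ∧ P.totalDegree ≤ δ ∧
        (∀ s, P.coeff s ∈ Submodule.span L (V : Set ℂ)) ∧ MvPolynomial.aeval l P = 0}.ncard : ℝ)
        ≤ C * (T : ℝ) ^ ((k : ℝ) - c) := by
  obtain ⟨c, hc, C, hC⟩ := tuples θ hθ hinj k (d ^ d * (δ + 1)) ((D + 1) ^ (d ^ d * (δ + 1)))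
  refine ⟨c, hc, C, fun V hV hVD T hT => ?_⟩
  obtain ⟨hb1, hb2⟩ := NF.big (V := V) hVD (d ^ d * (δ + 1))
  obtain ⟨hf, hn⟩ := hC ((V ⊔ 1) ^ (d ^ d * (δ + 1))) hb1 hb2 T hT
  have hsub : {n : Fin k → ℕ | (∀ i, 2 ≤ n i ∧ n i ≤ T) ∧ ∃ l : Fin k × Fin r → ℂ,
        (∀ p, Complex.exp (l p) = n p.1 + θ p.2) ∧ ∃ L : IntermediateField ℚ ℂ, FiniteDimensional ℚ L ∧
        finrank ℚ L ≤ d ∧ ∃ P : MvPolynomial (Fin k × Fin r) ℂ, P ≠ 0 ∧ P.totalDegree ≤ δ ∧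
        (∀ s, P.coeff s ∈ Submodule.span L (V : Set ℂ)) ∧ MvPolynomial.aeval l P = 0} ⊆
      {n : Fin k → ℕ | (∀ i, 2 ≤ n i ∧ n i ≤ T) ∧ ∃ l : Fin k × Fin r → ℂ,
        (∀ p, Complex.exp (l p) = n p.1 + θ p.2) ∧ Rel (d ^ d * (δ + 1)) ((V ⊔ 1) ^ (d ^ d * (δ + 1))) l} := by
    rintro n ⟨hn, l, hl, L, hLf, hLd, P, hP0, hPd, hPc, hPv⟩
    exact ⟨hn, l, hl, NF.rel_nf L hLd P hP0 hPd hPc hPv⟩
  refine ⟨hf.subset hsub, le_trans ?_ hn⟩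
  exact_mod_cast Set.ncard_le_ncard hsub hf

end Pool.Agent.Y916
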