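import Pool.Agent.Y916.Win

/-!
# The window theorem
-/

set_option autoImplicit false

open Module

namespace Pool.Agent.Y916

open Pool.Agent.Y916.Hil Pool.Agent.Y916.Gre Pool.Agent.Y916.Low Pool.Agent.Y916.Ari Pool.Agent.Y916.Fld
open Pool.Agent.Y113

theorem window (hval : S_val) (hpart : S_part) (r d δ τ : ℕ) : ∃ E : ℕ, ∀ H t : ℕ, (H + 2) ^ E ≤ t →
    ∀ K : IntermediateField ℚ ℂ, FiniteDimensional ℚ K → finrank ℚ K ≤ d → ∀ w : Fin τ → ℂ,
    ∃ S : Finset ℂ, S.card ≤ τ ∧ ∀ β : Fin r → ℂ, Function.Injective β → (∀ i, β i ∉ S ∧ β i ≠ 0 ∧ Adm d H (β i)) →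
      ∀ l : Fin r → ℂ, (∀ i, l i - Complex.log (1 + β i / t) ∈ Submodule.span K (insert 1 (Set.range w))) →
      ∀ P : MvPolynomial (Fin τ ⊕ Fin r) K, P.totalDegree ≤ δ → MvPolynomial.aeval (Sum.elim w l) P = 0 →
      MvPolynomial.aeval (Sum.elim (fun j => MvPolynomial.C (w j)) MvPolynomial.X) P
        = (0 : MvPolynomial (Fin r) ℂ) := by
  classical
  set q : ℕ := τ + 1 with hq
  set N0 : ℕ := q * r with hN0
  set nm : ℕ := N0 * d with hnm
  set D : ℕ := d * d ^ nm with hD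
  choose Ev hEv using fun n : ℕ => hval n (n * Mb D δ q n)
  set E0 : ℕ := (N0 + 3) * (N0 * d) with hE0
  refine ⟨(E0 + 2) * (∑ n ∈ Finset.range (nm + 1), Ev n) + 1, ?_⟩
  intro H t ht K hKf hKd w
  by_contra hcon
  push Not at hcon
  have hd1 : 1 ≤ d := le_trans (Module.finrank_pos) hKd
  have htH : H + 2 ≤ t := by
    refine le_trans ?_ ht
    exact Nat.le_self_pow (by omega) _
  set y : ℂ → ℂ := fun z => Complex.log (1 + z / t) with hy
  set V0 : Submodule K ℂ := Submodule.span K (insert (1 : ℂ) (Set.range w)) with hV0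
  obtain ⟨S, B, hS, hSB, hBr, hBa, hrk⟩ := greedy (y := y) (Co := ((V0 ^ δ : Submodule K ℂ) : Set ℂ))
    (Submodule.zero_mem _) (δ := δ) q r (fun z => z ≠ 0 ∧ Adm d H z) (by
      intro S hS
      obtain ⟨β, hinj, hβ, l, hl, P, hP, hP0, hPne⟩ := hcon S (by omega)
      refine ⟨Finset.univ.image β, ?_, ?_, ?_, Qs K w β (fun i => l i - y (β i)) P, ?_,
        Qs_ok K w β _ P hP (fun i => hl i), ?_⟩
      · refine Finset.card_image_le.trans ?_
        simp
      · intro b hb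
        obtain ⟨i, -, rfl⟩ := Finset.mem_image.1 hb
        exact (hβ i).2
      · rw [Finset.disjoint_left]
        intro b hb
        obtain ⟨i, -, rfl⟩ := Finset.mem_image.1 hb
        exact (hβ i).1
      · rw [Qs_eq]
        intro h0
        have h1 := MvPolynomial.rename_injective β hinj (h0.trans (map_zero _).symm)
        exact hPne (shift_inj _ (h1.trans (map_zero _).symm))
      · rw [aeval_Qs]
        have : (fun i => y (β i) + (l i - y (β i))) = l := by
          funext i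
          ring
        rw [this]
        exact hP0)
  obtain ⟨a, T, Θ, ha1, hBΘ, hT0, hTn, hΘc, hTsq, hTH, hTm, hΘa, hΘb, hΘ0⟩ := arith d H N0 B hBr
    (fun b hb => (hBa b hb).2) (fun b hb => (hBa b hb).1)
  obtain ⟨K', hKK', hΘK', hK'f, hK'd⟩ := field K hKf d Θ fun z hz => adm_deg (hΘa z hz)
  set n : ℕ := Θ.card with hn
  have hΘc : n ≤ nm := hΘc
  set V : Submodule K' ℂ := Submodule.span K' (insert (1 : ℂ) (Set.range w)) with hV
  have hD' : finrank ℚ K' ≤ D := hK'd.trans (Nat.mul_le_mul hKd (Nat.pow_le_pow_right hd1 hΘc))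
  have hCo : ∀ c ∈ ((V0 ^ δ : Submodule K ℂ) : Set ℂ), c ∈ V ^ δ := by
    intro c hc
    exact pow_field K K' hKK' _ _ subset_rfl δ c hc
  have hV1 : (1 : ℂ) ∈ V := Submodule.subset_span (Set.mem_insert _ _)
  have hub := hrk K' V (Submodule.fg_span ((Set.finite_range w).insert 1)) hV1 hCo Θ hBΘ
  refine contra K' (τ := τ) hD' w y Θ S (hSB.trans hBΘ) hS rfl
    (fun s : Fin n => ((ev ((a * t : ℕ) : ℝ) (F T s) : ℝ) : ℂ)) ?_ hub ?_
  · intro s
    refine val_mem hpart ha1 htH hTm hΘb hΘ0 K' hΘK' (V ⊔ Submodule.span K' (y '' (Θ : Set ℂ))) ?_ s s.2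
    intro z hz
    exact Submodule.mem_sup_right (Submodule.subset_span ⟨z, hz, rfl⟩)
  · intro P hP hP0
    have hbig : ((H + 2) ^ E0 + 2) ^ Ev n ≤ a * t := by
      calc ((H + 2) ^ E0 + 2) ^ Ev n ≤ ((H + 2) ^ (E0 + 2)) ^ Ev n := by
            refine Nat.pow_le_pow_left ?_ _
            have h1 : 1 ≤ (H + 2) ^ E0 := Nat.one_le_pow _ _ (by omega)
            have h2 : (H + 2) ^ (E0 + 2) = (H + 2) ^ E0 * ((H + 2) * (H + 2)) := by ring
            have h7 : 2 * 2 ≤ (H + 2) * (H + 2) := Nat.mul_le_mul (by omega) (by omega)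
            have h8 := Nat.mul_le_mul_left ((H + 2) ^ E0) h7
            rw [h2]
            omega
        _ = (H + 2) ^ ((E0 + 2) * Ev n) := by rw [← pow_mul]
        _ ≤ (H + 2) ^ ((E0 + 2) * (∑ n ∈ Finset.range (nm + 1), Ev n) + 1) := by
            refine Nat.pow_le_pow_right (by omega) ?_
            have h3 : Ev n ≤ ∑ n ∈ Finset.range (nm + 1), Ev n :=
              Finset.single_le_sum (f := Ev) (fun i _ => Nat.zero_le _) (Finset.mem_range.2 (by omega))
            have h4 := Nat.mul_le_mul_left (E0 + 2) h3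
            omega
        _ ≤ t := ht
        _ ≤ a * t := Nat.le_mul_of_pos_left _ (by omega)
    refine hEv n ((H + 2) ^ E0) (a * t) T hbig hT0 hTn hTsq hTH P hP ?_
    have h5 := MvPolynomial.aeval_algebraMap_apply (A := ℝ) ℂ
      (fun s : Fin n => ev ((a * t : ℕ) : ℝ) (F T s)) P
    have h6 : MvPolynomial.aeval (algebraMap ℝ ℂ ∘ fun s : Fin n => ev ((a * t : ℕ) : ℝ) (F T s)) P
        = (0 : ℂ) := hP0
    rw [h6] at h5
    exact (algebraMap ℝ ℂ).injective (h5.symm.trans (map_zero _).symm)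

end Pool.Agent.Y916
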