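import Mathlib

/-!
# The polynomial `T` of a finite set of algebraic numbers of bounded degree and height
-/

set_option autoImplicit false

namespace Pool.Agent.Y916.Ari

open Polynomial

/-- `z` is a root of a nonzero integer polynomial of degree at most `d` and height at most `H` -/
def Adm (d H : ℕ) (z : ℂ) : Prop :=
  ∃ p : ℤ[X], p ≠ 0 ∧ p.natDegree ≤ d ∧ (∀ l, |p.coeff l| ≤ (H : ℤ)) ∧ aeval z p = 0

theorem root_bound {H : ℕ} {p : ℤ[X]} (hp : p ≠ 0) (hH : ∀ l, |p.coeff l| ≤ (H : ℤ)) {z : ℂ} (hz : aeval z p = 0) :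
    ‖z‖ ≤ H + 1 := by
  set P : ℂ[X] := p.map (Int.castRingHom ℂ) with hP
  have hinj : Function.Injective (Int.castRingHom ℂ) := Int.cast_injective
  have hP0 : P ≠ 0 := (Polynomial.map_ne_zero_iff hinj).2 hp
  have hroot : P.IsRoot z := by
    rw [IsRoot.def, hP, eval_map]
    exact hz
  have h1 := (IsRoot.norm_lt_cauchyBound hP0 hroot).le
  have h2 : cauchyBound P ≤ (H : NNReal) + 1 := by
    unfold cauchyBound
    gcongr
    have hlc : (1 : NNReal) ≤ ‖P.leadingCoeff‖₊ := by
      rw [hP, leadingCoeff_map_of_injective hinj]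
      have h3 : (1 : ℝ) ≤ ‖((p.leadingCoeff : ℤ) : ℂ)‖ := by
        rw [Complex.norm_intCast]
        have := Int.one_le_abs (leadingCoeff_ne_zero.2 hp)
        exact_mod_cast this
      rw [← NNReal.coe_le_coe, coe_nnnorm]
      exact h3
    refine div_le_of_le_mul₀ (by positivity) (by positivity) ?_
    refine le_trans (Finset.sup_le fun i _ => ?_) (le_mul_of_one_le_right (by positivity) hlc)
    have h4 : ‖((p.coeff i : ℤ) : ℂ)‖ ≤ (H : ℝ) := by
      rw [Complex.norm_intCast]
      exact_mod_cast hH i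
    rw [hP, coeff_map, ← NNReal.coe_le_coe, coe_nnnorm]
    exact h4
  have h5 : ‖z‖₊ ≤ (H : NNReal) + 1 := h1.trans h2
  exact_mod_cast h5

theorem reverse_prod (s : Finset ℂ) :
    (∏ z ∈ s, (X - C z : ℂ[X])).reverse = ∏ z ∈ s, (1 - C z * X) := by
  classical
  induction s using Finset.induction_on with
  | empty =>
    simp only [Finset.prod_empty]
    exact reverse_C 1
  | insert a s ha ih =>
    rw [Finset.prod_insert ha, Finset.prod_insert ha, reverse_mul_of_domain, ih]
    congr 1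
    have h1 : (X : ℂ[X]).reverse = 1 := by
      have := reverse_mul_X (1 : ℂ[X])
      rw [one_mul] at this
      rw [this]
      exact reverse_C 1
    rw [sub_eq_add_neg, ← C_neg, reverse_add_C, h1, natDegree_X, pow_one, C_neg]
    ring

theorem reverse_map (G : ℤ[X]) : (G.reverse).map (Int.castRingHom ℂ) = (G.map (Int.castRingHom ℂ)).reverse := by
  ext i
  rw [coeff_map, coeff_reverse, coeff_reverse, coeff_map, natDegree_map_eq_of_injective Int.cast_injective]

theorem sep_prod (s : Finset ℂ) (h0 : ∀ z ∈ s, z ≠ 0) : (∏ z ∈ s, (1 - C z * X : ℂ[X])).Separable := by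
  refine separable_prod' ?_ ?_
  · intro x _ y _ hxy
    have hne : y - x ≠ 0 := sub_ne_zero.2 (Ne.symm hxy)
    refine ⟨C (y / (y - x)), C (- x / (y - x)), ?_⟩
    have h1 : C (y / (y - x)) - C (x / (y - x)) = (1 : ℂ[X]) := by
      rw [← C_sub, ← sub_div, div_self hne, C_1]
    have h2 : C (y / (y - x)) * C x = C (x / (y - x)) * (C y : ℂ[X]) := by
      rw [← C_mul, ← C_mul]
      congr 1
      ring
    have h3 : (C (- x / (y - x)) : ℂ[X]) = - C (x / (y - x)) := by
      rw [← C_neg, neg_div]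
    rw [h3]
    linear_combination h1 - X * h2
  · intro x hx
    rw [separable_def]
    have : derivative (1 - C x * X : ℂ[X]) = C (- x) := by
      simp
    rw [this]
    exact ⟨0, C (- x)⁻¹, by rw [zero_mul, zero_add, ← C_mul, inv_mul_cancel₀ (neg_ne_zero.2 (h0 x hx)), C_1]⟩

theorem natDegree_prod' (s : Finset ℂ) (h0 : ∀ z ∈ s, z ≠ 0) :
    (∏ z ∈ s, (1 - C z * X : ℂ[X])).natDegree = s.card := by
  have h1 : ∀ z ∈ s, (1 - C z * X : ℂ[X]).natDegree = 1 := by
    intro z hz
    have : (1 - C z * X : ℂ[X]) = C (- z) * X + C 1 := by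
      rw [C_neg, C_1]
      ring
    rw [this]
    exact natDegree_linear (neg_ne_zero.2 (h0 z hz))
  rw [natDegree_prod _ _ fun z hz h => by
    have := h1 z hz
    rw [h, natDegree_zero] at this
    exact absurd this (by norm_num)]
  rw [Finset.sum_congr rfl h1]
  simp

theorem natDegree_lin {a : ℕ} (ha : a ≠ 0) : (C (-(1 / (a : ℚ))) * X : ℚ[X]).natDegree = 1 := by
  refine natDegree_C_mul_X _ (neg_ne_zero.2 ?_)
  have : (a : ℚ) ≠ 0 := by exact_mod_cast ha
  positivity

/-- the polynomial `p (- X / a)` -/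
theorem comp_facts {p : ℤ[X]} (hp : p ≠ 0) {a : ℕ} (ha : a ≠ 0) :
    ((p.map (Int.castRingHom ℚ)).comp (C (-(1 / (a : ℚ))) * X)) ≠ 0 ∧
    ((p.map (Int.castRingHom ℚ)).comp (C (-(1 / (a : ℚ))) * X)).natDegree = p.natDegree ∧
    ∀ x : ℂ, aeval x ((p.map (Int.castRingHom ℚ)).comp (C (-(1 / (a : ℚ))) * X)) = aeval (-(x / a)) p := by
  refine ⟨?_, ?_, ?_⟩
  · rw [Ne, comp_eq_zero_iff, Polynomial.map_eq_zero_iff Int.cast_injective]
    rintro (h1 | ⟨_, h1⟩)
    · exact hp h1
    · have h2 := natDegree_lin ha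
      rw [h1, natDegree_C] at h2
      exact absurd h2 (by norm_num)
  · rw [natDegree_comp, natDegree_lin ha, mul_one, natDegree_map_eq_of_injective Int.cast_injective]
  · intro x
    rw [aeval_comp]
    have e : aeval x (C (-(1 / (a : ℚ))) * X : ℚ[X]) = -(x / a) := by
      simp only [map_mul, aeval_C, aeval_X, eq_ratCast]
      push_cast
      ring
    rw [e]
    exact aeval_map_algebraMap ℚ (-(x / a)) p

/-- `G`: the product of the distinct minimal polynomials -/
noncomputable def Gp (x : ℂ → ℂ) (B : Finset ℂ) : ℤ[X] := ∏ m ∈ B.image (fun b => minpoly ℤ (x b)), m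

section G

variable {x : ℂ → ℂ} {B : Finset ℂ} (hx : ∀ b ∈ B, IsIntegral ℤ (x b))

include hx

theorem Gp_monic : (Gp x B).Monic := by
  refine monic_prod_of_monic _ _ fun m hm => ?_
  obtain ⟨b, hb, rfl⟩ := Finset.mem_image.1 hm
  exact minpoly.monic (hx b hb)

theorem minpoly_map (b : ℂ) (hb : b ∈ B) : (minpoly ℤ (x b)).map (Int.castRingHom ℚ) = minpoly ℚ (x b) :=
  (minpoly.isIntegrallyClosed_eq_field_fractions' ℚ (hx b hb)).symm

theorem Gp_sep : ((Gp x B).map (Int.castRingHom ℚ)).Separable := by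
  unfold Gp
  rw [Polynomial.map_prod]
  have hirr : ∀ b ∈ B, Irreducible ((minpoly ℤ (x b)).map (Int.castRingHom ℚ)) := by
    intro b hb
    rw [minpoly_map hx b hb]
    exact minpoly.irreducible ((hx b hb).tower_top)
  refine separable_prod' ?_ ?_
  · intro m hm m' hm' hne
    obtain ⟨b, hb, rfl⟩ := Finset.mem_image.1 hm
    obtain ⟨b', hb', rfl⟩ := Finset.mem_image.1 hm'
    refine ((hirr b hb).coprime_iff_not_dvd).2 fun hdvd => hne ?_
    have h1 := (hirr b hb).associated_of_dvd (hirr b' hb') hdvd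
    have h2 := eq_of_monic_of_associated ((minpoly.monic (hx b hb)).map _) ((minpoly.monic (hx b' hb')).map _) h1
    exact Polynomial.map_injective _ Int.cast_injective h2
  · intro m hm
    obtain ⟨b, hb, rfl⟩ := Finset.mem_image.1 hm
    exact (hirr b hb).separable

theorem Gp_map : (Gp x B).map (Int.castRingHom ℂ)
    = ∏ z ∈ ((Gp x B).map (Int.castRingHom ℂ)).roots.toFinset, (X - C z) := by
  have h1 : ((Gp x B).map (Int.castRingHom ℂ)).Separable := by
    have h2 := (Gp_sep hx).map (f := algebraMap ℚ ℂ)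
    rw [Polynomial.map_map] at h2
    have e : (algebraMap ℚ ℂ).comp (Int.castRingHom ℚ) = Int.castRingHom ℂ := RingHom.ext_int _ _
    rwa [e] at h2
  have h3 := (IsAlgClosed.splits ((Gp x B).map (Int.castRingHom ℂ))).eq_prod_roots_of_monic
    ((Gp_monic hx).map _)
  have h4 := nodup_roots h1
  conv_lhs => rw [h3]
  rw [Finset.prod_multiset_map_count]
  refine Finset.prod_congr rfl fun z hz => ?_
  rw [Multiset.count_eq_one_of_mem h4 (Multiset.mem_toFinset.1 hz), pow_one]

theorem Gp_root {z : ℂ} (hz : z ∈ ((Gp x B).map (Int.castRingHom ℂ)).roots.toFinset) :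
    ∃ b ∈ B, aeval z (minpoly ℚ (x b)) = 0 := by
  rw [Multiset.mem_toFinset, mem_roots', IsRoot.def, eval_map, Gp, eval₂_finset_prod, Finset.prod_eq_zero_iff] at hz
  obtain ⟨-, m, hm, hz⟩ := hz
  obtain ⟨b, hb, rfl⟩ := Finset.mem_image.1 hm
  refine ⟨b, hb, ?_⟩
  rw [← minpoly_map hx b hb]
  exact (aeval_map_algebraMap ℚ z (minpoly ℤ (x b))).trans hz

theorem Gp_mem (b : ℂ) (hb : b ∈ B) : x b ∈ ((Gp x B).map (Int.castRingHom ℂ)).roots.toFinset := by
  rw [Multiset.mem_toFinset, mem_roots', IsRoot.def, eval_map, Gp, eval₂_finset_prod]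
  refine ⟨((Gp_monic hx).map _).ne_zero, Finset.prod_eq_zero (Finset.mem_image_of_mem _ hb) ?_⟩
  exact minpoly.aeval ℤ (x b)

theorem Gp_degree (d : ℕ) (hd : ∀ b ∈ B, (minpoly ℚ (x b)).natDegree ≤ d) : (Gp x B).natDegree ≤ B.card * d := by
  unfold Gp
  refine (natDegree_prod_le _ _).trans ?_
  refine (Finset.sum_le_card_nsmul _ _ d ?_).trans ?_
  · intro m hm
    obtain ⟨b, hb, rfl⟩ := Finset.mem_image.1 hm
    have h1 := hd b hb
    rwa [← minpoly_map hx b hb, natDegree_map_eq_of_injective Int.cast_injective] at h1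
  · rw [smul_eq_mul]
    exact Nat.mul_le_mul_right _ Finset.card_image_le

end G

end Pool.Agent.Y916.Ari
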