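import Pool.Agent.Y916.Ari

/-!
# The polynomial `T` of a finite set of algebraic numbers of bounded degree and height
-/

set_option autoImplicit false

namespace Pool.Agent.Y916.Ari

open Polynomial

theorem arith (d H N0 : ℕ) (B : Finset ℂ) (hB : B.card ≤ N0) (hadm : ∀ b ∈ B, Adm d H b) (hB0 : ∀ b ∈ B, b ≠ 0) :
    ∃ (a : ℕ) (T : ℤ[X]) (Θ : Finset ℂ), 1 ≤ a ∧ B ⊆ Θ ∧ T.coeff 0 = 1 ∧ T.natDegree = Θ.card ∧ Θ.card ≤ N0 * d ∧
      Squarefree (T.map (Int.castRingHom ℚ)) ∧ (∀ l, |T.coeff l| ≤ (((H + 2) ^ ((N0 + 3) * (N0 * d)) : ℕ) : ℤ)) ∧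
      T.map (Int.castRingHom ℂ) = ∏ z ∈ Θ, (1 - C (-((a : ℂ) * z)) * X) ∧
      (∀ z ∈ Θ, Adm d H z) ∧ (∀ z ∈ Θ, ‖z‖ ≤ H + 1) ∧ ∀ z ∈ Θ, z ≠ 0 := by
  classical
  choose! p hp0 hpd hpH hpz using hadm
  set a : ℕ := ∏ b ∈ B, (p b).leadingCoeff.natAbs with ha
  have hlc : ∀ b ∈ B, 1 ≤ (p b).leadingCoeff.natAbs := fun b hb =>
    Nat.one_le_iff_ne_zero.2 (Int.natAbs_ne_zero.2 (leadingCoeff_ne_zero.2 (hp0 b hb)))
  have ha1 : 1 ≤ a := Finset.one_le_prod' hlc
  have ha0 : a ≠ 0 := by omega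
  have ha0' : (a : ℂ) ≠ 0 := by exact_mod_cast ha0
  have haH : a ≤ (H + 2) ^ N0 := by
    calc a ≤ ∏ _b ∈ B, (H + 2) := by
          refine Finset.prod_le_prod' fun b hb => ?_
          have h1 := hpH b hb (p b).natDegree
          have h2 : ((p b).leadingCoeff.natAbs : ℤ) ≤ H := by
            rw [Int.natCast_natAbs]
            exact h1
          have h3 : (p b).leadingCoeff.natAbs ≤ H := by exact_mod_cast h2
          omega
      _ = (H + 2) ^ B.card := by rw [Finset.prod_const]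
      _ ≤ (H + 2) ^ N0 := Nat.pow_le_pow_right (by omega) hB
  set x : ℂ → ℂ := fun b => -((a : ℂ) * b) with hx
  have hxint : ∀ b ∈ B, IsIntegral ℤ (x b) := by
    intro b hb
    have h1 : IsIntegral ℤ ((p b).leadingCoeff • b) := isIntegral_leadingCoeff_smul _ _ (hpz b hb)
    have hdvd : (p b).leadingCoeff ∣ (a : ℤ) := by
      have h2 : (p b).leadingCoeff.natAbs ∣ a := Finset.dvd_prod_of_mem _ hb
      exact Int.natAbs_dvd.1 (Int.natCast_dvd_natCast.2 h2)
    obtain ⟨k, hk⟩ := hdvd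
    have h3 : (a : ℂ) * b = k • ((p b).leadingCoeff • b) := by
      rw [smul_smul, zsmul_eq_mul, mul_comm k, ← hk]
      push_cast
      ring
    have h4 : IsIntegral ℤ ((a : ℂ) * b) := by
      rw [h3]
      exact h1.smul k
    exact h4.neg
  have hback : ∀ z : ℂ, x (-(z / a)) = z := by
    intro z
    rw [hx]
    field_simp
  have hback2 : ∀ b : ℂ, -(x b / a) = b := by
    intro b
    rw [hx]
    field_simp
  have hminp : ∀ b ∈ B, (minpoly ℚ (x b)) ∣ ((p b).map (Int.castRingHom ℚ)).comp (C (-(1 / (a : ℚ))) * X) := by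
    intro b hb
    refine minpoly.dvd ℚ (x b) ?_
    rw [(comp_facts (hp0 b hb) ha0).2.2 (x b), hback2 b]
    exact hpz b hb
  have hdeg : ∀ b ∈ B, (minpoly ℚ (x b)).natDegree ≤ d := by
    intro b hb
    have h1 := natDegree_le_of_dvd (hminp b hb) (comp_facts (hp0 b hb) ha0).1
    rw [(comp_facts (hp0 b hb) ha0).2.1] at h1
    exact h1.trans (hpd b hb)
  set Θ' := ((Gp x B).map (Int.castRingHom ℂ)).roots.toFinset with hΘ'
  have hroot : ∀ z ∈ Θ', ∃ b ∈ B, aeval (-(z / a)) (p b) = 0 := by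
    intro z hz
    obtain ⟨b, hb, hzb⟩ := Gp_root hxint hz
    refine ⟨b, hb, ?_⟩
    rw [← (comp_facts (hp0 b hb) ha0).2.2 z]
    obtain ⟨g, hg⟩ := hminp b hb
    rw [hg, map_mul, hzb, zero_mul]
  set Θ : Finset ℂ := Θ'.image (fun z => -(z / a)) with hΘ
  have hinj : Function.Injective (fun z : ℂ => -(z / a)) := by
    intro z z' hzz
    have := congrArg x hzz
    simp only [hback] at this
    exact this
  have hcard : Θ.card = Θ'.card := Finset.card_image_of_injective _ hinj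
  have hΘadm : ∀ z ∈ Θ, Adm d H z := by
    intro z hz
    obtain ⟨z', hz', rfl⟩ := Finset.mem_image.1 hz
    obtain ⟨b, hb, hzb⟩ := hroot z' hz'
    exact ⟨p b, hp0 b hb, hpd b hb, hpH b hb, hzb⟩
  have hΘbd : ∀ z ∈ Θ, ‖z‖ ≤ H + 1 := by
    intro z hz
    obtain ⟨q, hq0, -, hqH, hqz⟩ := hΘadm z hz
    exact root_bound hq0 hqH hqz
  have hx0 : ∀ z ∈ Θ', z ≠ 0 := by
    intro z hz h0
    obtain ⟨b, hb, hzb⟩ := Gp_root hxint hz
    rw [h0, ← coeff_zero_eq_aeval_zero'] at hzb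
    refine minpoly.coeff_zero_ne_zero ((hxint b hb).tower_top) ?_ ((algebraMap ℚ ℂ).injective (hzb.trans (map_zero _).symm))
    exact neg_ne_zero.2 (mul_ne_zero ha0' (hB0 b hb))
  have hΘ0 : ∀ z ∈ Θ, z ≠ 0 := by
    intro z hz
    obtain ⟨z', hz', rfl⟩ := Finset.mem_image.1 hz
    exact neg_ne_zero.2 (div_ne_zero (hx0 z' hz') ha0')
  have hG := Gp_map hxint
  have hmono := Gp_monic hxint
  have hGdeg : (Gp x B).natDegree = Θ'.card := by
    have h1 := natDegree_map_eq_of_injective (f := Int.castRingHom ℂ) Int.cast_injective (Gp x B)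
    rw [← h1, hG, natDegree_prod_of_monic _ _ fun z _ => monic_X_sub_C z]
    simp [hΘ']
  have hTmap : ((Gp x B).reverse).map (Int.castRingHom ℂ) = ∏ z ∈ Θ', (1 - C z * X) := by
    rw [reverse_map, hG, reverse_prod]
  have hcardle : Θ.card ≤ N0 * d := by
    rw [hcard, ← hGdeg]
    exact (Gp_degree hxint d hdeg).trans (Nat.mul_le_mul_right _ hB)
  refine ⟨a, (Gp x B).reverse, Θ, ha1, ?_, ?_, ?_, hcardle, ?_, ?_, ?_, hΘadm, hΘbd, hΘ0⟩
  · intro b hb
    rw [hΘ, Finset.mem_image]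
    exact ⟨x b, Gp_mem hxint b hb, hback2 b⟩
  · rw [coeff_zero_reverse]
    exact hmono
  · rw [hcard, ← natDegree_map_eq_of_injective (f := Int.castRingHom ℂ) Int.cast_injective, hTmap]
    exact natDegree_prod' _ hx0
  · refine Separable.squarefree ?_
    have h1 := sep_prod Θ' hx0
    rw [← hTmap] at h1
    have e : (algebraMap ℚ ℂ).comp (Int.castRingHom ℚ) = Int.castRingHom ℂ := RingHom.ext_int _ _
    rw [← e, ← Polynomial.map_map] at h1
    exact (separable_map (algebraMap ℚ ℂ)).1 h1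
  · intro l
    rw [coeff_reverse]
    set i := revAt (Gp x B).natDegree l
    have h1 := coeff_bdd_of_roots_le (Int.castRingHom ℂ) (B := ((H : ℝ) + 2) ^ (N0 + 2)) (d := N0 * d) hmono
      (IsAlgClosed.splits _) (by rw [hGdeg, ← hcard]; exact hcardle) (by
        intro z hz
        have hz' : z ∈ Θ' := Multiset.mem_toFinset.2 hz
        have h2 := hΘbd _ (Finset.mem_image_of_mem (fun z : ℂ => -(z / a)) hz')
        have h3 : z = -((a : ℂ) * (-(z / a))) := (hback z).symm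
        rw [h3, norm_neg, norm_mul, Complex.norm_natCast]
        have h5 : (a : ℝ) ≤ ((H : ℝ) + 2) ^ N0 := by exact_mod_cast haH
        calc (a : ℝ) * ‖-(z / a)‖ ≤ ((H : ℝ) + 2) ^ N0 * (((H : ℝ) + 2) ^ 2) := by
              refine mul_le_mul h5 (h2.trans ?_) (norm_nonneg _) (by positivity)
              nlinarith [(Nat.cast_nonneg H : (0 : ℝ) ≤ (H : ℝ))]
          _ = _ := by rw [← pow_add]) i
    have h6 : ‖((Gp x B).map (Int.castRingHom ℂ)).coeff i‖ = ((|(Gp x B).coeff i| : ℤ) : ℝ) := by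
      rw [coeff_map, eq_intCast, Complex.norm_intCast]
      push_cast
      rfl
    rw [h6] at h1
    have hmax : max (((H : ℝ) + 2) ^ (N0 + 2)) 1 = ((H : ℝ) + 2) ^ (N0 + 2) :=
      max_eq_left (one_le_pow₀ (by linarith [(Nat.cast_nonneg H : (0 : ℝ) ≤ (H : ℝ))]))
    rw [hmax] at h1
    have h7 : (((N0 * d).choose (N0 * d / 2) : ℕ) : ℝ) ≤ ((H : ℝ) + 2) ^ (N0 * d) := by
      have h8 : (N0 * d).choose (N0 * d / 2) ≤ (H + 2) ^ (N0 * d) :=
        (Nat.choose_le_two_pow _ _).trans (Nat.pow_le_pow_left (by omega) _)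
      exact_mod_cast h8
    have h9 : ((|(Gp x B).coeff i| : ℤ) : ℝ) ≤ ((H : ℝ) + 2) ^ ((N0 + 3) * (N0 * d)) := by
      refine h1.trans ?_
      calc (((H : ℝ) + 2) ^ (N0 + 2)) ^ (N0 * d) * (((N0 * d).choose (N0 * d / 2) : ℕ) : ℝ)
          ≤ (((H : ℝ) + 2) ^ (N0 + 2)) ^ (N0 * d) * ((H : ℝ) + 2) ^ (N0 * d) := by gcongr
        _ = _ := by rw [← pow_mul, ← pow_add]; congr 1; ring
    exact_mod_cast h9
  · rw [hTmap, hΘ, Finset.prod_image fun z _ z' _ hzz => hinj hzz]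
    refine Finset.prod_congr rfl fun z _ => ?_
    have := hback z
    rw [hx] at this
    simp only at this
    rw [this]

end Pool.Agent.Y916.Ari
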