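import Pool.Agent.Y916.EW

/-!
# Elliptic logarithms, zeta values and logarithms at tuples of integers: the count
-/

set_option autoImplicit false

open Module

namespace Pool.Agent.Y916.Hy

open Pool.Agent.Y113 Pool.Agent.Y916.AW
open scoped PeriodPair

/-- the three numbers at an integer, as integrals -/
noncomputable def tri (F : Polynomial ℤ) (c : ℝ) (m : ℕ) : Fin 3 → ℂ :=
  ![((J F c 0 m : ℝ) : ℂ), ((J F c 1 m : ℝ) : ℂ), ((Real.log m : ℝ) : ℂ)]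

/-- the local comparison -/
theorem compare (hwp : S_wp) (hqp : S_qp) (L : PeriodPair) (a b : ℚ) (ha : L.g₂ = a) (hb : L.g₃ = b) :
    ∃ (c : ℝ) (X₁ : ℕ) (W : Submodule ℚ ℂ), (∀ x ≥ c, 0 < ((Fe a b).map (Int.castRingHom ℝ)).eval x) ∧ (1 : ℂ) ∈ W ∧
      Module.Finite ℚ W ∧ ∀ m : ℕ, X₁ ≤ m → ∀ p l : ℂ, p ∉ L.lattice → ℘[L] p = m → Complex.exp l = m →
        ∃ ε : Fin 3 → ℚ, (∀ j, ε j ≠ 0) ∧ ∀ j, (![p, zeta L p, l] : Fin 3 → ℂ) j - ε j * tri (Fe a b) c m j ∈ W := by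
  obtain ⟨X₀, κ₀, κ₁, hpos, hX⟩ := hwp L a b (by rw [ha]; simp) (by rw [hb]; simp)
  obtain ⟨η₁, η₂, hq⟩ := hqp L
  have hN : (0 : ℝ) < Nab a b := by exact_mod_cast Nab_pos a b
  have hN0 : ((Nab a b : ℕ) : ℚ) ≠ 0 := by exact_mod_cast (Nab_pos a b).ne'
  have hNc : ((Nab a b : ℕ) : ℂ) ≠ 0 := by exact_mod_cast (Nab_pos a b).ne'
  set v : Fin 7 → ℂ := ![(κ₀ : ℂ), (κ₁ : ℂ), L.ω₁, L.ω₂, η₁, η₂, 2 * Real.pi * Complex.I] with hv
  have hmem : ∀ i, v i ∈ sp v := fun i => sp_mem v i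
  have hz : ∀ (n : ℤ) (w : ℂ), w ∈ sp v → (n : ℂ) * w ∈ sp v := by
    intro n w hw
    have h1 := Submodule.smul_mem (sp v) (n : ℚ) hw
    rw [Algebra.smul_def] at h1
    simpa using h1
  refine ⟨X₀, max 1 ⌈X₀⌉₊, sp v, ?_, sp_one v, (sp_fin v).1, ?_⟩
  · intro x hx
    rw [Fe_eval]
    exact mul_pos (by positivity) (hpos x hx)
  intro m hm p l hp hpm hl
  have hmX : X₀ ≤ m := by
    have h1 : ⌈X₀⌉₊ ≤ m := (le_max_right _ _).trans hm
    exact (Nat.le_ceil X₀).trans (by exact_mod_cast h1)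
  have hm0 : (m : ℂ) ≠ 0 := by
    have h1 : 1 ≤ m := (le_max_left _ _).trans hm
    have h2 : m ≠ 0 := by omega
    exact_mod_cast h2
  obtain ⟨s, hs, hsm, hs0, hs1⟩ := hX m hmX
  obtain ⟨ε, m₁, m₂, hε, hp1, hp2⟩ := hq s p hs hp (by rw [hpm, hsm]; simp)
  have hε0 : ((ε : ℤ) : ℚ) ≠ 0 := by
    rcases hε with h | h <;> rw [h] <;> norm_num
  have hJ0 : ((J (Fe a b) X₀ 0 m : ℝ) : ℂ) = (Nab a b : ℂ)⁻¹ *
      ((∫ v in X₀..(m : ℝ), 1 / √(4 * v ^ 3 - (a : ℝ) * v - (b : ℝ)) : ℝ) : ℂ) := by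
    rw [J_Fe]
    push_cast
    simp only [pow_zero]
  have hJ1 : ((J (Fe a b) X₀ 1 m : ℝ) : ℂ) = (Nab a b : ℂ)⁻¹ *
      ((∫ v in X₀..(m : ℝ), v / √(4 * v ^ 3 - (a : ℝ) * v - (b : ℝ)) : ℝ) : ℂ) := by
    rw [J_Fe]
    push_cast
    simp only [pow_one]
  obtain ⟨u, hu⟩ : ∃ u : ℤ, l = Complex.log m + u * (2 * Real.pi * Complex.I) :=
    Complex.exp_eq_exp_iff_exists_int.1 (by rw [hl, Complex.exp_log hm0])
  refine ⟨![-((ε : ℤ) : ℚ) * (Nab a b : ℕ), ((ε : ℤ) : ℚ) * (Nab a b : ℕ), 1], ?_, ?_⟩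
  · intro j
    fin_cases j
    · simpa using ⟨by exact_mod_cast hε0, by exact_mod_cast hN0⟩
    · simpa using ⟨by exact_mod_cast hε0, by exact_mod_cast hN0⟩
    · simp
  · intro j
    fin_cases j
    · have h1 : (![p, zeta L p, l] : Fin 3 → ℂ) 0 - (((-((ε : ℤ) : ℚ) * (Nab a b : ℕ) : ℚ)) : ℂ) * tri (Fe a b) X₀ m 0
          = ε * v 0 + m₁ * v 2 + m₂ * v 3 := by
        have e1 : tri (Fe a b) X₀ m 0 = ((J (Fe a b) X₀ 0 m : ℝ) : ℂ) := rfl
        have e2 : v 0 = κ₀ := rfl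
        have e3 : v 2 = L.ω₁ := rfl
        have e4 : v 3 = L.ω₂ := rfl
        have e5 : (![p, zeta L p, l] : Fin 3 → ℂ) 0 = p := rfl
        rw [e1, e2, e3, e4, e5, hp1, hs0, hJ0]
        generalize (∫ v in X₀..(m : ℝ), 1 / √(4 * v ^ 3 - (a : ℝ) * v - (b : ℝ)) : ℝ) = I
        push_cast
        field_simp
        ring
      refine Set.mem_of_eq_of_mem h1 ?_
      exact add_mem (add_mem (hz _ _ (hmem 0)) (hz _ _ (hmem 2))) (hz _ _ (hmem 3))
    · have h1 : (![p, zeta L p, l] : Fin 3 → ℂ) 1 - (((((ε : ℤ) : ℚ) * (Nab a b : ℕ) : ℚ)) : ℂ) * tri (Fe a b) X₀ m 1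
          = ε * v 1 + m₁ * v 4 + m₂ * v 5 := by
        have e1 : tri (Fe a b) X₀ m 1 = ((J (Fe a b) X₀ 1 m : ℝ) : ℂ) := rfl
        have e2 : v 1 = κ₁ := rfl
        have e3 : v 4 = η₁ := rfl
        have e4 : v 5 = η₂ := rfl
        have e5 : (![p, zeta L p, l] : Fin 3 → ℂ) 1 = zeta L p := rfl
        rw [e1, e2, e3, e4, e5, hp2, hs1, hJ1]
        generalize (∫ v in X₀..(m : ℝ), v / √(4 * v ^ 3 - (a : ℝ) * v - (b : ℝ)) : ℝ) = I
        push_cast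
        field_simp
        ring
      refine Set.mem_of_eq_of_mem h1 ?_
      exact add_mem (add_mem (hz _ _ (hmem 1)) (hz _ _ (hmem 4))) (hz _ _ (hmem 5))
    · have h1 : (![p, zeta L p, l] : Fin 3 → ℂ) 2 - ((1 : ℚ) : ℂ) * tri (Fe a b) X₀ m 2 = u * v 6 := by
        have e1 : tri (Fe a b) X₀ m 2 = ((Real.log m : ℝ) : ℂ) := rfl
        have e2 : v 6 = 2 * Real.pi * Complex.I := rfl
        have e3 : (![p, zeta L p, l] : Fin 3 → ℂ) 2 = l := rfl
        rw [e1, e2, e3, hu, ← Complex.natCast_log]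
        push_cast
        ring
      refine Set.mem_of_eq_of_mem h1 ?_
      exact hz _ _ (hmem 6)

open Classical in
/-- tuples with a small coordinate -/
theorem small_count (k X T : ℕ) : ((Fintype.piFinset fun _ : Fin k => Finset.Icc 2 T).filter fun n => ∃ i, n i < X).card
    ≤ k * (X * T ^ (k - 1)) := by
  set B : Fin k → Finset (Fin k → ℕ) := fun i =>
    Fintype.piFinset (Function.update (fun _ => Finset.Icc 2 T) i (Finset.range X)) with hB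
  have hsub : ((Fintype.piFinset fun _ : Fin k => Finset.Icc 2 T).filter fun n => ∃ i, n i < X) ⊆
      Finset.univ.biUnion B := by
    intro n hn
    obtain ⟨hn1, i, hi⟩ := Finset.mem_filter.1 hn
    rw [Fintype.mem_piFinset] at hn1
    rw [Finset.mem_biUnion]
    refine ⟨i, Finset.mem_univ _, ?_⟩
    rw [hB, Fintype.mem_piFinset]
    intro j
    by_cases hij : j = i
    · subst hij
      rw [Function.update_self]
      exact Finset.mem_range.2 hi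
    · rw [Function.update_of_ne hij]
      exact hn1 j
  refine (Finset.card_le_card hsub).trans ((Finset.card_biUnion_le_card_mul _ _ (X * T ^ (k - 1)) ?_).trans ?_)
  · intro i _
    rw [hB, Fintype.card_piFinset, ← Finset.mul_prod_erase Finset.univ _ (Finset.mem_univ i), Function.update_self,
      Finset.card_range]
    refine Nat.mul_le_mul_left _ ?_
    refine (Finset.prod_le_pow_card _ _ T fun j hj => ?_).trans ?_
    · rw [Function.update_of_ne (Finset.ne_of_mem_erase hj), Nat.card_Icc]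
      omega
    · rw [Finset.card_erase_of_mem (Finset.mem_univ _), Finset.card_univ, Fintype.card_fin]
  · rw [Finset.card_univ, Fintype.card_fin]

/-- elliptic tuples -/
theorem ell_tuples (hval : S_hval) (hhev : S_hev) (hwp : S_wp) (hqp : S_qp) (L : PeriodPair) (a b : ℚ) (ha : L.g₂ = a)
    (hb : L.g₃ = b) {r : ℕ} (θ : Fin r → ℕ) (hθ : Function.Injective θ) (k δ d D : ℕ) :
    ∃ c₀ : ℝ, 0 < c₀ ∧ ∃ C : ℝ, 0 ≤ C ∧ ∀ V : Submodule ℚ ℂ, Module.Finite ℚ V → finrank ℚ V ≤ D → ∀ T : ℕ, 1 ≤ T →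
      {n : Fin k → ℕ | (∀ i, 2 ≤ n i ∧ n i ≤ T) ∧ ∃ p l : Fin k × Fin r → ℂ, (∀ q, p q ∉ L.lattice ∧
        ℘[L] (p q) = n q.1 + θ q.2 ∧ Complex.exp (l q) = n q.1 + θ q.2) ∧
        RelL δ d V fun x : (Fin k × Fin r) × Fin 3 => (![p x.1, zeta L (p x.1), l x.1] : Fin 3 → ℂ) x.2}.Finite ∧
      ({n : Fin k → ℕ | (∀ i, 2 ≤ n i ∧ n i ≤ T) ∧ ∃ p l : Fin k × Fin r → ℂ, (∀ q, p q ∉ L.lattice ∧
        ℘[L] (p q) = n q.1 + θ q.2 ∧ Complex.exp (l q) = n q.1 + θ q.2) ∧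
        RelL δ d V fun x : (Fin k × Fin r) × Fin 3 => (![p x.1, zeta L (p x.1), l x.1] : Fin 3 → ℂ) x.2}.ncard : ℝ)
        ≤ C * (T : ℝ) ^ ((k : ℝ) - c₀) := by
  classical
  have hab : a ^ 3 - 27 * b ^ 2 ≠ 0 := by
    have h1 := disc_ne hqp L
    rw [ha, hb] at h1
    exact_mod_cast h1
  have hF := Fe_good a b hab
  obtain ⟨c, X₁, W, hc, hW1, hWf, hcmp⟩ := compare hwp hqp L a b ha hb
  obtain ⟨E, hlink⟩ := link hhev hF hc
  set m := d ^ d * (δ + 1) with hm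
  obtain ⟨c₀, hc₀, C, hC, hcount⟩ := at_count (vl (Fe a b)) (inp hval hF) (xx (Fe a b) c) 4 _ E hlink θ hθ m k
    ((D + 1) ^ m * finrank ℚ W ^ m)
  refine ⟨min c₀ 1, lt_min hc₀ one_pos, C + k * X₁, by positivity, fun V hV hVD T hT => ?_⟩
  obtain ⟨hb1, hb2⟩ := NF.big (V := V) hVD m
  obtain ⟨hw1, hw2⟩ := finrank_pow_le W m
  obtain ⟨hv1, hv2⟩ := finrank_mul_le ((V ⊔ 1) ^ m) (W ^ m)
  have h1 := hcount ((V ⊔ 1) ^ m * W ^ m) hv1 (hv2.trans (Nat.mul_le_mul hb2 hw2)) T hT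
  set B := (Fintype.piFinset fun _ : Fin k => Finset.Icc 2 T).filter fun n =>
    Rel m ((V ⊔ 1) ^ m * W ^ m) (tup (fun (n : ℕ) (p : Fin r × (Fin ((Fe a b).natDegree - 1) ⊕ Unit)) =>
      xx (Fe a b) c (n + θ p.1) p.2) n) with hB
  set S := (Fintype.piFinset fun _ : Fin k => Finset.Icc 2 T).filter fun n => ∃ i, n i < X₁ with hS
  have hsub : {n : Fin k → ℕ | (∀ i, 2 ≤ n i ∧ n i ≤ T) ∧ ∃ p l : Fin k × Fin r → ℂ, (∀ q, p q ∉ L.lattice ∧
        ℘[L] (p q) = n q.1 + θ q.2 ∧ Complex.exp (l q) = n q.1 + θ q.2) ∧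
        RelL δ d V fun x : (Fin k × Fin r) × Fin 3 => (![p x.1, zeta L (p x.1), l x.1] : Fin 3 → ℂ) x.2} ⊆
      ((B ∪ S : Finset (Fin k → ℕ)) : Set (Fin k → ℕ)) := by
    rintro n ⟨hn, p, l, hpl, hrel⟩
    rw [Finset.mem_coe, Finset.mem_union]
    have hnT : n ∈ Fintype.piFinset fun _ : Fin k => Finset.Icc 2 T := by
      rw [Fintype.mem_piFinset]
      exact fun i => Finset.mem_Icc.2 (hn i)
    by_cases hsm : ∃ i, n i < X₁
    · exact Or.inr (Finset.mem_filter.2 ⟨hnT, hsm⟩)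
    left
    push Not at hsm
    refine Finset.mem_filter.2 ⟨hnT, ?_⟩
    have h2 : ∀ q : Fin k × Fin r, ∃ ε : Fin 3 → ℚ, (∀ j, ε j ≠ 0) ∧
        ∀ j, (![p q, zeta L (p q), l q] : Fin 3 → ℂ) j - ε j * tri (Fe a b) c (n q.1 + θ q.2) j ∈ W := by
      intro q
      obtain ⟨hq1, hq2, hq3⟩ := hpl q
      refine hcmp (n q.1 + θ q.2) (le_trans (hsm q.1) (Nat.le_add_right _ _)) (p q) (l q) hq1 ?_ ?_
      · rw [hq2]
        push_cast
        ring
      · rw [hq3]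
        push_cast
        ring
    choose ε hε0 hε using h2
    have h3 := rel_lin (W := W) hW1 (x := fun x : (Fin k × Fin r) × Fin 3 => tri (Fe a b) c (n x.1.1 + θ x.1.2) x.2)
      (fun x => ε x.1 x.2) (fun x => hε0 x.1 x.2) (fun x => hε x.1 x.2) hrel.rel
    -- reindexing
    have hdeg : (Fe a b).natDegree - 1 = 2 := by rw [Fe_deg]
    let f : Fin ((Fe a b).natDegree - 1) ⊕ Unit ≃ Fin 3 :=
      ((finCongr hdeg).sumCongr (Equiv.ofUnique Unit (Fin 1))).trans finSumFinEquiv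
    let e : Fin k × (Fin r × (Fin ((Fe a b).natDegree - 1) ⊕ Unit)) ≃ (Fin k × Fin r) × Fin 3 :=
      (Equiv.prodAssoc _ _ _).symm.trans ((Equiv.refl _).prodCongr f)
    have h4 := h3.reindex e
    have h5 : (fun j => (fun x : (Fin k × Fin r) × Fin 3 => tri (Fe a b) c (n x.1.1 + θ x.1.2) x.2) (e j)) =
        tup (fun (n : ℕ) (p : Fin r × (Fin ((Fe a b).natDegree - 1) ⊕ Unit)) => xx (Fe a b) c (n + θ p.1) p.2) n := by
      funext y
      obtain ⟨i, j, s⟩ := y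
      change tri (Fe a b) c (n i + θ j) (f s) = xx (Fe a b) c (n i + θ j) s
      rcases s with s | u
      · obtain ⟨s, hs⟩ := s
        have hs2 : s < 2 := by omega
        interval_cases s
        · rfl
        · rfl
      · rfl
    rw [h5] at h4
    exact h4
  refine ⟨(Finset.finite_toSet _).subset hsub, ?_⟩
  have h2 := Set.ncard_le_ncard hsub (Finset.finite_toSet _)
  rw [Set.ncard_coe_finset] at h2
  have h3 : ((B ∪ S).card : ℝ) ≤ B.card + S.card := by exact_mod_cast Finset.card_union_le B S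
  have h4 : (S.card : ℝ) ≤ k * (X₁ * (T : ℝ) ^ (k - 1)) := by exact_mod_cast small_count k X₁ T
  have hT1 : (1 : ℝ) ≤ T := by exact_mod_cast hT
  have h5 : (B.card : ℝ) ≤ C * (T : ℝ) ^ ((k : ℝ) - min c₀ 1) := by
    refine h1.trans (mul_le_mul_of_nonneg_left ?_ hC)
    exact Real.rpow_le_rpow_of_exponent_le hT1 (by linarith [min_le_left c₀ 1])
  have h6 : (S.card : ℝ) ≤ k * X₁ * (T : ℝ) ^ ((k : ℝ) - min c₀ 1) := by
    rcases Nat.eq_zero_or_pos k with hk | hk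
    · subst hk
      simpa using h4
    · refine h4.trans ?_
      rw [← mul_assoc]
      refine mul_le_mul_of_nonneg_left ?_ (by positivity)
      rw [← Real.rpow_natCast]
      refine Real.rpow_le_rpow_of_exponent_le hT1 ?_
      rw [Nat.cast_sub hk]
      push_cast
      linarith [min_le_right c₀ 1]
  calc _ ≤ ((B ∪ S).card : ℝ) := by exact_mod_cast h2
    _ ≤ B.card + S.card := h3
    _ ≤ C * (T : ℝ) ^ ((k : ℝ) - min c₀ 1) + k * X₁ * (T : ℝ) ^ ((k : ℝ) - min c₀ 1) := add_le_add h5 h6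
    _ = _ := by ring

end Pool.Agent.Y916.Hy
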