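import Pool.Agent.Y916.HFin
import Pool.Agent.Y916.ET
import Pool.Agent.Y153.HE.WP
import Pool.Agent.Y153.HE.QP

/-!
# Elliptic integrals at tuples of integers: unconditional statements
-/

set_option autoImplicit false

open Module

namespace Pool.Agent.Y916.Hy

open scoped PeriodPair

theorem ell_tuplesT (L : PeriodPair) (a b : ℚ) (ha : L.g₂ = a)
    (hb : L.g₃ = b) {r : ℕ} (θ : Fin r → ℕ) (hθ : Function.Injective θ) (k δ d D : ℕ) :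
    ∃ c₀ : ℝ, 0 < c₀ ∧ ∃ C : ℝ, 0 ≤ C ∧ ∀ V : Submodule ℚ ℂ, Module.Finite ℚ V → finrank ℚ V ≤ D → ∀ T : ℕ, 1 ≤ T →
      {n : Fin k → ℕ | (∀ i, 2 ≤ n i ∧ n i ≤ T) ∧ ∃ p l : Fin k × Fin r → ℂ, (∀ q, p q ∉ L.lattice ∧
        ℘[L] (p q) = n q.1 + θ q.2 ∧ Complex.exp (l q) = n q.1 + θ q.2) ∧
        RelL δ d V fun x : (Fin k × Fin r) × Fin 3 => (![p x.1, zeta L (p x.1), l x.1] : Fin 3 → ℂ) x.2}.Finite ∧
      ({n : Fin k → ℕ | (∀ i, 2 ≤ n i ∧ n i ≤ T) ∧ ∃ p l : Fin k × Fin r → ℂ, (∀ q, p q ∉ L.lattice ∧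
        ℘[L] (p q) = n q.1 + θ q.2 ∧ Complex.exp (l q) = n q.1 + θ q.2) ∧
        RelL δ d V fun x : (Fin k × Fin r) × Fin 3 => (![p x.1, zeta L (p x.1), l x.1] : Fin 3 → ℂ) x.2}.ncard : ℝ)
        ≤ C * (T : ℝ) ^ ((k : ℝ) - c₀) :=
  ell_tuples hvalT hhevT Pool.Agent.Y153.HE.t_wp Pool.Agent.Y153.HE.t_qp L a b ha hb θ hθ k δ d D

end Pool.Agent.Y916.Hy
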