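import Pool.Agent.Y916.HT

/-!
# Elliptic logarithms, zeta values and logarithms at tuples of integers
-/

set_option autoImplicit false

open Module

namespace Pool.Agent.Y916.Hy

open Pool.Agent.Y113 Pool.Agent.Y916.AW
open scoped PeriodPair

section Disc

/-- half periods -/
theorem half (L : PeriodPair) {w : ℂ} (hw : w ∈ L.lattice) (hw2 : w / 2 ∉ L.lattice) :
    4 * ℘[L] (w / 2) ^ 3 - L.g₂ * ℘[L] (w / 2) - L.g₃ = 0 := by
  have h1 := L.derivWeierstrassP_sq (w / 2) hw2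
  have h2 : ℘'[L] (w / 2) = 0 := by
    have h3 : ℘'[L] (w / 2) = ℘'[L] (-(w / 2)) := by
      have h4 := L.derivWeierstrassP_add_coe (-(w / 2)) ⟨w, hw⟩
      rw [← h4]
      congr 1
      simp only
      ring
    rw [L.derivWeierstrassP_neg] at h3
    have h5 : (2 : ℂ) * ℘'[L] (w / 2) = 0 := by linear_combination h3
    exact (mul_eq_zero.1 h5).resolve_left two_ne_zero
  rw [h2] at h1
  linear_combination -h1

theorem indep_z (L : PeriodPair) {x y : ℝ} (h : (x : ℂ) * L.ω₁ + y * L.ω₂ = 0) : x = 0 ∧ y = 0 := by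
  have h1 := LinearIndependent.pair_iff.1 L.indep x y
  refine h1 ?_
  rw [Complex.real_smul, Complex.real_smul]
  exact h

/-- the discriminant -/
theorem disc_ne (hqp : S_qp) (L : PeriodPair) : L.g₂ ^ 3 - 27 * L.g₃ ^ 2 ≠ 0 := by
  obtain ⟨η₁, η₂, h⟩ := hqp L
  have m1 : L.ω₁ / 2 ∉ L.lattice := L.ω₁_div_two_notMem_lattice
  have m2 : L.ω₂ / 2 ∉ L.lattice := L.ω₂_div_two_notMem_lattice
  have m3 : (L.ω₁ + L.ω₂) / 2 ∉ L.lattice := by
    have h1 := (L.mul_ω₁_add_mul_ω₂_mem_lattice (α := 1 / 2) (β := 1 / 2)).not.mpr (by norm_num)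
    intro h2
    apply h1
    convert h2 using 1
    push_cast
    ring
  have d12 : ℘[L] (L.ω₁ / 2) ≠ ℘[L] (L.ω₂ / 2) := by
    intro he
    obtain ⟨ε, m₁, m₂, hε, h1, -⟩ := h _ _ m2 m1 he
    have h2 := (indep_z L (x := 1 / 2 - m₁) (y := -(ε / 2 + m₂)) (by push_cast; linear_combination h1)).1
    have h3 : (1 : ℝ) = 2 * m₁ := by linarith
    have h4 : (1 : ℤ) = 2 * m₁ := by exact_mod_cast h3
    omega
  have d13 : ℘[L] (L.ω₁ / 2) ≠ ℘[L] ((L.ω₁ + L.ω₂) / 2) := by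
    intro he
    obtain ⟨ε, m₁, m₂, hε, h1, -⟩ := h _ _ m3 m1 he
    have h2 := (indep_z L (x := 1 / 2 - ε / 2 - m₁) (y := -(ε / 2 + m₂)) (by push_cast; linear_combination h1)).2
    have h3 : (ε : ℝ) = - 2 * m₂ := by linarith
    have h4 : (ε : ℤ) = - 2 * m₂ := by exact_mod_cast h3
    omega
  have d23 : ℘[L] (L.ω₂ / 2) ≠ ℘[L] ((L.ω₁ + L.ω₂) / 2) := by
    intro he
    obtain ⟨ε, m₁, m₂, hε, h1, -⟩ := h _ _ m3 m2 he
    have h2 := (indep_z L (x := -(ε / 2 + m₁)) (y := 1 / 2 - ε / 2 - m₂) (by push_cast; linear_combination h1)).1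
    have h3 : (ε : ℝ) = - 2 * m₁ := by linarith
    have h4 : (ε : ℤ) = - 2 * m₁ := by exact_mod_cast h3
    omega
  have r1 := half L L.ω₁_mem_lattice m1
  have r2 := half L L.ω₂_mem_lattice m2
  have r3 := half L (L.lattice.add_mem L.ω₁_mem_lattice L.ω₂_mem_lattice) m3
  set e₁ := ℘[L] (L.ω₁ / 2)
  set e₂ := ℘[L] (L.ω₂ / 2)
  set e₃ := ℘[L] ((L.ω₁ + L.ω₂) / 2)
  have s12 : 4 * (e₁ ^ 2 + e₁ * e₂ + e₂ ^ 2) = L.g₂ := by
    have h1 : (e₁ - e₂) * (4 * (e₁ ^ 2 + e₁ * e₂ + e₂ ^ 2) - L.g₂) = 0 := by linear_combination r1 - r2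
    exact sub_eq_zero.1 ((mul_eq_zero.1 h1).resolve_left (sub_ne_zero.2 d12))
  have s13 : 4 * (e₁ ^ 2 + e₁ * e₃ + e₃ ^ 2) = L.g₂ := by
    have h1 : (e₁ - e₃) * (4 * (e₁ ^ 2 + e₁ * e₃ + e₃ ^ 2) - L.g₂) = 0 := by linear_combination r1 - r3
    exact sub_eq_zero.1 ((mul_eq_zero.1 h1).resolve_left (sub_ne_zero.2 d13))
  have s : e₃ = -(e₁ + e₂) := by
    have h1 : (e₂ - e₃) * (e₁ + e₂ + e₃) = 0 := by linear_combination (s12 - s13) / 4
    have h2 := (mul_eq_zero.1 h1).resolve_left (sub_ne_zero.2 d23)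
    linear_combination h2
  have hg3 : L.g₃ = -4 * e₁ * e₂ * (e₁ + e₂) := by linear_combination -r1 + e₁ * s12
  have h13 : e₁ - e₃ ≠ 0 := sub_ne_zero.2 d13
  have h23 : e₂ - e₃ ≠ 0 := sub_ne_zero.2 d23
  have h12 : e₁ - e₂ ≠ 0 := sub_ne_zero.2 d12
  have hfin : L.g₂ ^ 3 - 27 * L.g₃ ^ 2 = 16 * ((e₁ - e₂) * (e₁ - e₃) * (e₂ - e₃)) ^ 2 := by
    rw [← s12, hg3, s]
    ring
  rw [hfin]
  exact mul_ne_zero (by norm_num) (pow_ne_zero _ (mul_ne_zero (mul_ne_zero h12 h13) h23))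

end Disc

section Poly

/-- the denominator -/
def Nab (a b : ℚ) : ℕ := a.den * b.den

/-- the integer polynomial `N² (4 X³ - a X - b)` -/
noncomputable def Fe (a b : ℚ) : Polynomial ℤ :=
  Polynomial.C (4 * (Nab a b : ℤ) ^ 2) * Polynomial.X ^ 3 + Polynomial.C 0 * Polynomial.X ^ 2 +
    Polynomial.C (-(a.num * a.den * b.den ^ 2)) * Polynomial.X + Polynomial.C (-(b.num * b.den * a.den ^ 2))

theorem Nab_pos (a b : ℚ) : 0 < Nab a b := Nat.mul_pos a.den_pos b.den_pos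

theorem Nab_a (a b : ℚ) : ((a.num * a.den * b.den ^ 2 : ℤ) : ℚ) = (Nab a b : ℚ) ^ 2 * a := by
  have h1 : (a.num : ℚ) = a * a.den := by
    have := Rat.mul_den_eq_num a
    exact this.symm
  unfold Nab
  push_cast
  rw [h1]
  ring

theorem Nab_b (a b : ℚ) : ((b.num * b.den * a.den ^ 2 : ℤ) : ℚ) = (Nab a b : ℚ) ^ 2 * b := by
  have h1 : (b.num : ℚ) = b * b.den := by
    have := Rat.mul_den_eq_num b
    exact this.symm
  unfold Nab
  push_cast
  rw [h1]
  ring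

theorem Fe_deg (a b : ℚ) : (Fe a b).natDegree = 3 := by
  unfold Fe
  refine Polynomial.natDegree_cubic ?_
  have := Nab_pos a b
  positivity

theorem Fe_lead (a b : ℚ) : (Fe a b).leadingCoeff = 4 * (Nab a b : ℤ) ^ 2 := by
  unfold Fe
  refine Polynomial.leadingCoeff_cubic ?_
  have := Nab_pos a b
  positivity

theorem Fe_eval (a b : ℚ) (x : ℝ) : ((Fe a b).map (Int.castRingHom ℝ)).eval x
    = (Nab a b : ℝ) ^ 2 * (4 * x ^ 3 - (a : ℝ) * x - (b : ℝ)) := by
  have h1 : ((a.num * a.den * b.den ^ 2 : ℤ) : ℝ) = (Nab a b : ℝ) ^ 2 * a := by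
    have := congrArg (fun q : ℚ => (q : ℝ)) (Nab_a a b)
    simpa using this
  have h2 : ((b.num * b.den * a.den ^ 2 : ℤ) : ℝ) = (Nab a b : ℝ) ^ 2 * b := by
    have := congrArg (fun q : ℚ => (q : ℝ)) (Nab_b a b)
    simpa using this
  unfold Fe
  rw [Polynomial.eval_map, Polynomial.eval₂_add, Polynomial.eval₂_add, Polynomial.eval₂_add]
  rw [Polynomial.eval₂_mul, Polynomial.eval₂_mul, Polynomial.eval₂_mul, Polynomial.eval₂_C, Polynomial.eval₂_C,
    Polynomial.eval₂_C, Polynomial.eval₂_C, Polynomial.eval₂_pow, Polynomial.eval₂_pow, Polynomial.eval₂_X]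
  simp only [eq_intCast, map_zero, zero_mul, add_zero]
  rw [Int.cast_neg, Int.cast_neg, h1, h2]
  push_cast
  ring

theorem Fe_sf (a b : ℚ) (hab : a ^ 3 - 27 * b ^ 2 ≠ 0) : Squarefree ((Fe a b).map (Int.castRingHom ℚ)) := by
  have hN : (Nab a b : ℚ) ≠ 0 := by exact_mod_cast (Nab_pos a b).ne'
  set f : Polynomial ℚ := 4 * Polynomial.X ^ 3 - Polynomial.C a * Polynomial.X - Polynomial.C b with hf
  have hF : (Fe a b).map (Int.castRingHom ℚ) = Polynomial.C ((Nab a b : ℚ) ^ 2) * f := by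
    unfold Fe
    rw [Polynomial.map_add, Polynomial.map_add, Polynomial.map_add, Polynomial.map_mul, Polynomial.map_mul,
      Polynomial.map_mul, Polynomial.map_C, Polynomial.map_C, Polynomial.map_C, Polynomial.map_C, Polynomial.map_pow,
      Polynomial.map_pow, Polynomial.map_X, eq_intCast, eq_intCast, eq_intCast, eq_intCast, Int.cast_neg, Int.cast_neg,
      Nab_a, Nab_b, hf]
    push_cast
    simp only [map_mul, map_neg, map_pow, map_zero, zero_mul, add_zero, map_natCast, map_ofNat]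
    ring
  have hsep : f.Separable := by
    rw [Polynomial.separable_def']
    have hd : Polynomial.derivative f = 12 * Polynomial.X ^ 2 - Polynomial.C a := by
      rw [hf]
      simp only [Polynomial.derivative_sub, Polynomial.derivative_mul, Polynomial.derivative_X_pow,
        Polynomial.derivative_X, Polynomial.derivative_C, Polynomial.derivative_ofNat]
      simp only [map_natCast]
      push_cast
      ring
    set D := a ^ 3 - 27 * b ^ 2 with hD
    have hDD : Polynomial.C (D⁻¹) * (Polynomial.C a ^ 3 - 27 * Polynomial.C b ^ 2) = 1 := by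
      have : (Polynomial.C a ^ 3 - 27 * Polynomial.C b ^ 2 : Polynomial ℚ) = Polynomial.C D := by
        rw [hD, map_sub, map_mul, map_pow, map_pow, map_ofNat]
      rw [this, ← Polynomial.C_mul, inv_mul_cancel₀ hab, Polynomial.C_1]
    refine ⟨Polynomial.C (D⁻¹) * (-9 * (2 * Polynomial.C a * Polynomial.X - 3 * Polynomial.C b)),
      Polynomial.C (D⁻¹) * (3 * Polynomial.X * (2 * Polynomial.C a * Polynomial.X - 3 * Polynomial.C b) -
        Polynomial.C a ^ 2), ?_⟩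
    rw [hd, ← hDD, hf]
    ring
  rw [hF]
  have h1 : Squarefree f := hsep.squarefree
  have h2 : Associated f (Polynomial.C ((Nab a b : ℚ) ^ 2) * f) := by
    have hu : IsUnit (Polynomial.C ((Nab a b : ℚ) ^ 2)) := Polynomial.isUnit_C.2 (isUnit_iff_ne_zero.2 (pow_ne_zero _ hN))
    exact (associated_unit_mul_left f _ hu).symm
  exact h2.squarefree_iff.1 h1

theorem Fe_good (a b : ℚ) (hab : a ^ 3 - 27 * b ^ 2 ≠ 0) : Good (Fe a b) where
  sf := Fe_sf a b hab
  odd := by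
    rw [Fe_deg]
    decide
  deg := (Fe_deg a b).ge
  pos := by
    rw [Fe_lead]
    have := Nab_pos a b
    positivity

/-- the integrals -/
theorem J_Fe (a b : ℚ) (c : ℝ) (j : ℕ) (x : ℝ) :
    J (Fe a b) c j x = (Nab a b : ℝ)⁻¹ * ∫ v in c..x, v ^ j / √(4 * v ^ 3 - (a : ℝ) * v - (b : ℝ)) := by
  have hN : (0 : ℝ) < Nab a b := by exact_mod_cast Nab_pos a b
  unfold J
  rw [← intervalIntegral.integral_const_mul]
  refine intervalIntegral.integral_congr fun v _ => ?_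
  change v ^ j / √(((Fe a b).map (Int.castRingHom ℝ)).eval v) =
    (Nab a b : ℝ)⁻¹ * (v ^ j / √(4 * v ^ 3 - (a : ℝ) * v - (b : ℝ)))
  rw [Fe_eval, Real.sqrt_mul (by positivity), Real.sqrt_sq hN.le]
  field_simp

end Poly

end Pool.Agent.Y916.Hy
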