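import Pool.Agent.Y916.ET

/-!
# Elliptic logarithms, zeta values and logarithms at the integers of a short window
-/

set_option autoImplicit false

open Module

namespace Pool.Agent.Y916.Hy

open Pool.Agent.Y113 Pool.Agent.Y916.AW Pool.Agent.Y916.Fld
open scoped PeriodPair

/-- the local comparison, explicit constants -/
theorem compare' (hwp : S_wp) (hqp : S_qp) (L : PeriodPair) (a b : ℚ) (ha : L.g₂ = a) (hb : L.g₃ = b) :
    ∃ (c : ℝ) (X₁ : ℕ) (κ₀ κ₁ η₁ η₂ : ℂ), (∀ x ≥ c, 0 < ((Fe a b).map (Int.castRingHom ℝ)).eval x) ∧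
      ∀ m : ℕ, X₁ ≤ m → ∀ p l : ℂ, p ∉ L.lattice → ℘[L] p = m → Complex.exp l = m →
        ∃ ε m₁ m₂ u : ℤ, ε ≠ 0 ∧ p = ε * (κ₀ - (Nab a b : ℂ) * ((J (Fe a b) c 0 m : ℝ) : ℂ)) + m₁ * L.ω₁ + m₂ * L.ω₂ ∧
          zeta L p = ε * (κ₁ + (Nab a b : ℂ) * ((J (Fe a b) c 1 m : ℝ) : ℂ)) + m₁ * η₁ + m₂ * η₂ ∧
          l = ((Real.log m : ℝ) : ℂ) + u * (2 * Real.pi * Complex.I) := by
  obtain ⟨X₀, κ₀, κ₁, hpos, hX⟩ := hwp L a b (by rw [ha]; simp) (by rw [hb]; simp)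
  obtain ⟨η₁, η₂, hq⟩ := hqp L
  have hN : (0 : ℝ) < Nab a b := by exact_mod_cast Nab_pos a b
  have hNc : ((Nab a b : ℕ) : ℂ) ≠ 0 := by exact_mod_cast (Nab_pos a b).ne'
  refine ⟨X₀, max 1 ⌈X₀⌉₊, κ₀, κ₁, η₁, η₂, ?_, ?_⟩
  · intro x hx
    rw [Fe_eval]
    exact mul_pos (by positivity) (hpos x hx)
  intro m hm p l hp hpm hl
  have hmX : X₀ ≤ m := by
    have h1 : ⌈X₀⌉₊ ≤ m := (le_max_right _ _).trans hm
    exact (Nat.le_ceil X₀).trans (by exact_mod_cast h1)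
  have hm0 : (m : ℂ) ≠ 0 := by
    have h1 : 1 ≤ m := (le_max_left _ _).trans hm
    have h2 : m ≠ 0 := by omega
    exact_mod_cast h2
  obtain ⟨s, hs, hsm, hs0, hs1⟩ := hX m hmX
  obtain ⟨ε, m₁, m₂, hε, hp1, hp2⟩ := hq s p hs hp (by rw [hpm, hsm]; simp)
  obtain ⟨u, hu⟩ : ∃ u : ℤ, l = Complex.log m + u * (2 * Real.pi * Complex.I) :=
    Complex.exp_eq_exp_iff_exists_int.1 (by rw [hl, Complex.exp_log hm0])
  have hJ0 : ((J (Fe a b) X₀ 0 m : ℝ) : ℂ) = (Nab a b : ℂ)⁻¹ *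
      ((∫ v in X₀..(m : ℝ), 1 / √(4 * v ^ 3 - (a : ℝ) * v - (b : ℝ)) : ℝ) : ℂ) := by
    rw [J_Fe]
    push_cast
    simp only [pow_zero]
  have hJ1 : ((J (Fe a b) X₀ 1 m : ℝ) : ℂ) = (Nab a b : ℂ)⁻¹ *
      ((∫ v in X₀..(m : ℝ), v / √(4 * v ^ 3 - (a : ℝ) * v - (b : ℝ)) : ℝ) : ℂ) := by
    rw [J_Fe]
    push_cast
    simp only [pow_one]
  refine ⟨ε, m₁, m₂, u, by rcases hε with h | h <;> rw [h] <;> norm_num, ?_, ?_, ?_⟩
  · rw [hp1, hs0, hJ0]
    generalize (∫ v in X₀..(m : ℝ), 1 / √(4 * v ^ 3 - (a : ℝ) * v - (b : ℝ)) : ℝ) = I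
    push_cast
    field_simp
  · rw [hp2, hs1, hJ1]
    generalize (∫ v in X₀..(m : ℝ), v / √(4 * v ^ 3 - (a : ℝ) * v - (b : ℝ)) : ℝ) = I
    push_cast
    field_simp
  · rw [hu, ← Complex.natCast_log]

/-- the eight constants -/
noncomputable def w8 (A₀ A₁ ω₁ ω₂ η₁ η₂ lt : ℂ) : Fin 8 → ℂ :=
  ![A₀, A₁, ω₁, ω₂, η₁, η₂, 2 * Real.pi * Complex.I, lt]

/-- the numbers at the point `p` -/
noncomputable def trip (L : PeriodPair) (p l : ℂ) : Fin 3 → ℂ := ![p, zeta L p, l]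

theorem mem_span {K : IntermediateField ℚ ℂ} {τ : ℕ} (w : Fin τ → ℂ) (i : Fin τ) (n : ℤ) :
    (n : ℂ) * w i ∈ Submodule.span K (insert 1 (Set.range w)) := by
  have h4 : (n : ℂ) * w i = (n : K) • w i := by
    rw [Algebra.smul_def]
    simp
  rw [h4]
  exact Submodule.smul_mem _ _ (Submodule.subset_span (Set.mem_insert_of_mem _ ⟨_, rfl⟩))

theorem alg0 {p ε κ₀ N κ J s v m₁ ω₁ m₂ ω₂ : ℂ} (hN : N ≠ 0) (hs : s ≠ 0)
    (h : p = ε * (κ₀ - N * J) + m₁ * ω₁ + m₂ * ω₂) (hJ : J = κ - s⁻¹ * v / (2 * N)) :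
    p - ε * s⁻¹ / 2 * v = ε * (κ₀ - N * κ) + m₁ * ω₁ + m₂ * ω₂ := by
  rw [h, hJ]
  field_simp
  ring

theorem alg1 {p ε κ₀ N κ J s v m₁ ω₁ m₂ ω₂ : ℂ} (hN : N ≠ 0)
    (h : p = ε * (κ₀ + N * J) + m₁ * ω₁ + m₂ * ω₂) (hJ : J = κ - s * v / (2 * N)) :
    p - -(ε * s / 2) * v = ε * (κ₀ + N * κ) + m₁ * ω₁ + m₂ * ω₂ := by
  rw [h, hJ]
  field_simp
  ring

/-- **Windows** -/
theorem ell_window (hval : S_hval) (hhev : S_hev) (hwp : S_wp) (hqp : S_qp) (L : PeriodPair) (a b : ℚ) (ha : L.g₂ = a)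
    (hb : L.g₃ = b) (r d δ τ : ℕ) : ∃ E : ℕ, ∀ H t : ℕ, (H + 2) ^ E ≤ t →
    ∀ K : IntermediateField ℚ ℂ, FiniteDimensional ℚ K → finrank ℚ K ≤ d → ∀ w : Fin τ → ℂ,
    ∃ S : Finset ℕ, S.card ≤ τ + 8 ∧ ∀ n : Fin r → ℕ, Function.Injective n →
      (∀ i, t < n i ∧ n i ≤ t + H ∧ n i ∉ S) → ∀ p l : Fin r → ℂ,
      (∀ i, p i ∉ L.lattice ∧ ℘[L] (p i) = n i ∧ Complex.exp (l i) = n i) →
      ∀ P : MvPolynomial (Fin τ ⊕ Fin r × Fin 3) K, P.totalDegree ≤ δ →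
        MvPolynomial.aeval (Sum.elim w fun x => trip L (p x.1) (l x.1) x.2) P = 0 →
        MvPolynomial.aeval (Sum.elim (fun j => MvPolynomial.C (w j)) MvPolynomial.X) P
          = (0 : MvPolynomial (Fin r × Fin 3) ℂ) := by
  classical
  have hab : a ^ 3 - 27 * b ^ 2 ≠ 0 := by
    have h1 := disc_ne hqp L
    rw [ha, hb] at h1
    exact_mod_cast h1
  have hF := Fe_good a b hab
  obtain ⟨c, X₁, κ₀, κ₁, η₁, η₂, hc, hcmp⟩ := compare' hwp hqp L a b ha hb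
  obtain ⟨κ, E₁, hE₁⟩ := hhev (Fe a b) hF c hc
  obtain ⟨E₂, hE₂⟩ := aw (vl (Fe a b)) (inp hval hF) r (2 * d) δ (τ + 8)
  refine ⟨E₁ + E₂ + X₁ + 1, fun H t ht K hKf hKd w => ?_⟩
  have hbig : ∀ E ≤ E₁ + E₂ + X₁ + 1, (H + 2) ^ E ≤ t := fun E hE => (Nat.pow_le_pow_right (by omega) hE).trans ht
  have htX : X₁ ≤ t := by
    refine le_trans ?_ (hbig X₁ (by omega))
    exact (Nat.lt_two_pow_self).le.trans (Nat.pow_le_pow_left (by omega) _)
  have hHt : H < t := by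
    have h1 := hbig 1 (by omega)
    rw [pow_one] at h1
    omega
  have ht0 : (0 : ℝ) < t := by
    have : 0 < t := by omega
    exact_mod_cast this
  have hst0 : ((√(t : ℝ) : ℝ) : ℂ) ≠ 0 := by
    rw [Complex.ofReal_ne_zero]
    exact (Real.sqrt_pos.2 ht0).ne'
  have hNp : (0 : ℝ) < Nab a b := by exact_mod_cast Nab_pos a b
  have hlead : √((Fe a b).leadingCoeff : ℝ) = 2 * Nab a b := by
    rw [Fe_lead]
    push_cast
    rw [show (4 : ℝ) * (Nab a b : ℝ) ^ 2 = (2 * Nab a b) ^ 2 by ring]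
    exact Real.sqrt_sq (by positivity)
  obtain ⟨K', hKK', hK1, hK2, hK3⟩ := field K hKf 2 ({((√(t : ℝ) : ℝ) : ℂ)})
    (by
      intro z hz
      rw [Finset.mem_singleton] at hz
      rw [hz]
      exact sqrt_deg _ (t : ℤ) (Nat.cast_nonneg _) (by simp))
  have hst : ((√(t : ℝ) : ℝ) : ℂ) ∈ K' := hK1 (IntermediateField.subset_adjoin ℚ _ (by simp))
  set N : ℂ := (Nab a b : ℂ) with hN
  have hNc : N ≠ 0 := by
    rw [hN]
    exact_mod_cast (Nab_pos a b).ne'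
  have hFd : ((Fe a b).natDegree : ℤ) = 3 := by
    rw [Fe_deg]
    rfl
  set w' : Fin (τ + 8) → ℂ := Fin.append w (w8 (κ₀ - N * ((κ 0 : ℝ) : ℂ)) (κ₁ + N * ((κ 1 : ℝ) : ℂ)) L.ω₁ L.ω₂ η₁ η₂
    ((Real.log t : ℝ) : ℂ)) with hw'
  obtain ⟨S, hS, hwin⟩ := hE₂ H t (hbig E₂ (by omega)) K' hK2 (by
    refine hK3.trans ?_
    rw [Finset.card_singleton, pow_one, mul_comm]
    exact Nat.mul_le_mul_left _ hKd) w'
  refine ⟨S.image fun g => t + g, Finset.card_image_le.trans hS, ?_⟩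
  intro n hn hnb p l hpl P hPd hPv
  set g : Fin r → ℕ := fun i => n i - t with hg
  have hng : ∀ i, n i = t + g i := fun i => by have := (hnb i).1; simp only [hg]; omega
  have hdeg : (Fe a b).natDegree - 1 = 2 := by rw [Fe_deg]
  let f : Fin ((Fe a b).natDegree - 1) ⊕ Unit ≃ Fin 3 :=
    ((finCongr hdeg).sumCongr (Equiv.ofUnique Unit (Fin 1))).trans finSumFinEquiv
  have hcard8 : ∀ i : Fin 8, w' (Fin.natAdd τ i) = w8 (κ₀ - N * ((κ 0 : ℝ) : ℂ)) (κ₁ + N * ((κ 1 : ℝ) : ℂ)) L.ω₁ L.ω₂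
      η₁ η₂ ((Real.log t : ℝ) : ℂ) i := fun i => by rw [hw', Fin.append_right]
  have key : ∀ q : Fin r × (Fin ((Fe a b).natDegree - 1) ⊕ Unit), ∃ c : K', c ≠ 0 ∧
      trip L (p q.1) (l q.1) (f q.2) - c * vl (Fe a b) t (g q.1) q.2 ∈
        Submodule.span K' (insert 1 (Set.range w')) := by
    rintro ⟨i, s⟩
    have hgH : g i ≤ H := by have := (hnb i).2.1; have := hng i; omega
    obtain ⟨ε, m₁, m₂, u, hε, h1, h2, h3⟩ := hcmp (n i) (htX.trans (hnb i).1.le) (p i) (l i) (hpl i).1 (hpl i).2.1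
      (hpl i).2.2
    have hcast : ((n i : ℕ) : ℝ) = (t : ℝ) + (g i : ℝ) := by rw [hng i]; push_cast; ring
    rcases s with s | s
    · obtain ⟨s, hs⟩ := s
      have hs2 : s < 2 := by omega
      have hJ := hE₁ H t (hbig E₁ (by omega)) (g i) hgH ⟨s, hs⟩
      interval_cases s
      · refine ⟨(ε : K') * (⟨_, hst⟩ : K')⁻¹ / 2, ?_, ?_⟩
        · refine div_ne_zero (mul_ne_zero (by exact_mod_cast hε) (inv_ne_zero ?_)) two_ne_zero
          intro h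
          exact hst0 (congrArg (fun x : K' => (x : ℂ)) h)
        · have e0 : ((((ε : K') * (⟨_, hst⟩ : K')⁻¹ / 2 : K') : ℂ)) = (ε : ℂ) * ((√(t : ℝ) : ℝ) : ℂ)⁻¹ / 2 := by
            push_cast
            rfl
          have hJ2 : J (Fe a b) c 0 (n i) = κ 0 - (√(t : ℝ))⁻¹ * ev (t : ℝ) (Yf (Fe a b) (g i) (Sum.inl ⟨0, hs⟩)) /
              (2 * Nab a b) := by
            rw [hcast, ← hlead, ← zpow_neg_one]
            have h6 : (2 * ((((⟨0, hs⟩ : Fin ((Fe a b).natDegree - 1)) : ℕ)) : ℤ) + 2 - ((Fe a b).natDegree : ℤ)) = -1 := by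
              rw [hFd]
              norm_num
            rw [← h6]
            exact hJ
          have hJ3 : ((J (Fe a b) c 0 (n i) : ℝ) : ℂ) = ((κ 0 : ℝ) : ℂ) - (((√(t : ℝ) : ℝ) : ℂ))⁻¹ *
              vl (Fe a b) t (g i) (Sum.inl ⟨0, hs⟩) / (2 * N) := by
            rw [hJ2, vl, hN]
            push_cast
            rfl
          have e1 : trip L (p i) (l i) (f (Sum.inl ⟨0, hs⟩)) -
              ((((ε : K') * (⟨_, hst⟩ : K')⁻¹ / 2 : K') : ℂ)) * vl (Fe a b) t (g i) (Sum.inl ⟨0, hs⟩) =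
              (ε : ℂ) * w' (Fin.natAdd τ 0) + (m₁ : ℂ) * w' (Fin.natAdd τ 2) + (m₂ : ℂ) * w' (Fin.natAdd τ 3) := by
            rw [hcard8, hcard8, hcard8, e0]
            exact alg0 hNc hst0 h1 hJ3
          rw [e1]
          exact add_mem (add_mem (mem_span _ _ _) (mem_span _ _ _)) (mem_span _ _ _)
      · refine ⟨-((ε : K') * (⟨_, hst⟩ : K') / 2), ?_, ?_⟩
        · rw [neg_ne_zero]
          refine div_ne_zero (mul_ne_zero (by exact_mod_cast hε) ?_) two_ne_zero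
          intro h
          exact hst0 (congrArg (fun x : K' => (x : ℂ)) h)
        · have e0 : (((-((ε : K') * (⟨_, hst⟩ : K') / 2) : K') : ℂ)) = -((ε : ℂ) * ((√(t : ℝ) : ℝ) : ℂ) / 2) := by
            push_cast
            rfl
          have hJ2 : J (Fe a b) c 1 (n i) = κ 1 - √(t : ℝ) * ev (t : ℝ) (Yf (Fe a b) (g i) (Sum.inl ⟨1, hs⟩)) /
              (2 * Nab a b) := by
            rw [hcast, ← hlead]
            have h6 : (2 * ((((⟨1, hs⟩ : Fin ((Fe a b).natDegree - 1)) : ℕ)) : ℤ) + 2 - ((Fe a b).natDegree : ℤ)) = 1 := by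
              rw [hFd]
              norm_num
            rw [h6, zpow_one] at hJ
            exact hJ
          have hJ3 : ((J (Fe a b) c 1 (n i) : ℝ) : ℂ) = ((κ 1 : ℝ) : ℂ) - ((√(t : ℝ) : ℝ) : ℂ) *
              vl (Fe a b) t (g i) (Sum.inl ⟨1, hs⟩) / (2 * N) := by
            rw [hJ2, vl, hN]
            push_cast
            rfl
          have e1 : trip L (p i) (l i) (f (Sum.inl ⟨1, hs⟩)) -
              (((-((ε : K') * (⟨_, hst⟩ : K') / 2) : K') : ℂ)) * vl (Fe a b) t (g i) (Sum.inl ⟨1, hs⟩) =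
              (ε : ℂ) * w' (Fin.natAdd τ 1) + (m₁ : ℂ) * w' (Fin.natAdd τ 4) + (m₂ : ℂ) * w' (Fin.natAdd τ 5) := by
            rw [hcard8, hcard8, hcard8, e0]
            exact alg1 hNc h2 hJ3
          rw [e1]
          exact add_mem (add_mem (mem_span _ _ _) (mem_span _ _ _)) (mem_span _ _ _)
    · refine ⟨1, one_ne_zero, ?_⟩
      have e1 : trip L (p i) (l i) (f (Sum.inr s)) - ((1 : K') : ℂ) * vl (Fe a b) t (g i) (Sum.inr s) =
          (u : ℂ) * w' (Fin.natAdd τ 6) + ((1 : ℤ) : ℂ) * w' (Fin.natAdd τ 7) := by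
        rw [hcard8, hcard8]
        change l i - _ = (u : ℂ) * (2 * Real.pi * Complex.I) + ((1 : ℤ) : ℂ) * ((Real.log t : ℝ) : ℂ)
        rw [h3, vl, ev_log (by omega), hcast]
        push_cast
        ring
      rw [e1]
      exact add_mem (mem_span _ _ _) (mem_span _ _ _)
  let e : Fin r × (Fin ((Fe a b).natDegree - 1) ⊕ Unit) ≃ Fin r × Fin 3 := (Equiv.refl _).prodCongr f
  set j : K →+* K' := (IntermediateField.inclusion hKK' : K →+* K') with hj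
  set Q : MvPolynomial (Fin (τ + 8) ⊕ Fin r × (Fin ((Fe a b).natDegree - 1) ⊕ Unit)) K' :=
    MvPolynomial.map j (MvPolynomial.rename (Sum.map (Fin.castAdd 8) e.symm) P) with hQ
  have hQd : Q.totalDegree ≤ δ := by
    refine le_trans (le_trans (le_of_eq ?_) (MvPolynomial.totalDegree_rename_le (Sum.map (Fin.castAdd 8) e.symm) P)) hPd
    rw [hQ]
    unfold MvPolynomial.totalDegree
    rw [MvPolynomial.support_map_of_injective _ j.injective]
  have hwl : ∀ i : Fin τ, w' (Fin.castAdd 8 i) = w i := fun i => by rw [hw', Fin.append_left]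
  have hgi : ∀ i, 1 ≤ g i ∧ g i ≤ H ∧ g i ∉ S := by
    intro i
    obtain ⟨h1, h2, h3⟩ := hnb i
    have h4 := hng i
    refine ⟨by omega, by omega, fun h5 => h3 ?_⟩
    rw [h4]
    exact Finset.mem_image_of_mem _ h5
  have h9 := hwin g (fun i i' h => hn (by rw [hng i, hng i', h])) hgi
    (fun q => trip L (p q.1) (l q.1) (f q.2)) key Q hQd (by
      rw [hQ, MvPolynomial.aeval_def, MvPolynomial.eval₂_map, MvPolynomial.eval₂_rename, ← hPv, MvPolynomial.aeval_def]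
      congr 1
      funext x
      rcases x with i | x
      · simp [hwl]
      · simp [e])
  rw [hQ, MvPolynomial.aeval_def, MvPolynomial.eval₂_map, MvPolynomial.eval₂_rename] at h9
  have h10 := congrArg (MvPolynomial.rename e) h9
  rw [map_zero] at h10
  have h11 := MvPolynomial.eval₂_comp_left (MvPolynomial.rename (R := ℂ) e).toRingHom
    ((algebraMap K' (MvPolynomial (Fin r × (Fin ((Fe a b).natDegree - 1) ⊕ Unit)) ℂ)).comp j)
    (Sum.elim (fun j => MvPolynomial.C (w' j)) MvPolynomial.X ∘ Sum.map (Fin.castAdd 8) e.symm) P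
  refine Eq.trans ?_ (h11.symm.trans h10)
  rw [MvPolynomial.aeval_def]
  congr 1
  · refine RingHom.ext fun x => ?_
    change MvPolynomial.C (x : ℂ) = MvPolynomial.rename e (MvPolynomial.C (x : ℂ))
    rw [MvPolynomial.rename_C]
  · funext x
    rcases x with i | x
    · simp [hwl]
    · simp

end Pool.Agent.Y916.Hy
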