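import Pool.Agent.Y916.EPr
import Pool.Agent.Y916.EWin
import Pool.Agent.Y916.Om.Bas

/-!
# Windows for elliptic logarithms, relative to the periods: at most `τ + 1 + ρ` exceptional integers
-/

set_option autoImplicit false

open Module

namespace Pool.Agent.Y916.Hy

open Pool.Agent.Y113 Pool.Agent.Y916.Fld
open scoped PeriodPair

/-- the periods, the quasi-periods and `2πi` -/
noncomputable def perV (L : PeriodPair) : Fin 5 → ℂ :=
  ![L.ω₁, L.ω₂, zeta L (L.ω₁ / 2), zeta L (L.ω₂ / 2), 2 * Real.pi * Complex.I]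

/-- `η(ω) = 2 ζ(ω/2)` -/
theorem eta_half (L : PeriodPair) {w : ℂ} (hw : w ∈ L.lattice) (hw2 : w / 2 ∉ L.lattice) :
    H667R3.eta L w = 2 * zeta L (w / 2) := by
  have h1 : -(w / 2) ∉ L.lattice := fun h => hw2 (by simpa using neg_mem h)
  have h2 := H667R3.zeta_add_coe L h1 hw
  rw [show -(w / 2) + w = w / 2 by ring, H667R3.zeta_neg] at h2
  have h3 : zeta L (w / 2) = H667R3.zeta L (w / 2) := rfl
  rw [h3]
  linear_combination -h2

theorem om1_half (L : PeriodPair) : L.ω₁ / 2 ∉ L.lattice := by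
  intro h
  obtain ⟨m, n, e⟩ := PeriodPair.mem_lattice.1 h
  have h1 := indep_z L (x := 2 * m - 1) (y := 2 * n) (by
    push_cast
    linear_combination 2 * e)
  have h2 : (2 * m - 1 : ℤ) = 0 := by
    have := h1.1
    exact_mod_cast this
  omega

theorem om2_half (L : PeriodPair) : L.ω₂ / 2 ∉ L.lattice := by
  intro h
  obtain ⟨m, n, e⟩ := PeriodPair.mem_lattice.1 h
  have h1 := indep_z L (x := 2 * m) (y := 2 * n - 1) (by
    push_cast
    linear_combination 2 * e)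
  have h2 : (2 * n - 1 : ℤ) = 0 := by
    have := h1.2
    exact_mod_cast this
  omega

/-- all determinations in terms of a chosen one -/
theorem qp' (L : PeriodPair) {s p : ℂ} (hs : s ∉ L.lattice) (hp : p ∉ L.lattice) (h : ℘[L] p = ℘[L] s) :
    ∃ (ε m₁ m₂ : ℤ), (ε = 1 ∨ ε = -1) ∧ p = ε * s + m₁ * L.ω₁ + m₂ * L.ω₂ ∧
      zeta L p = ε * zeta L s + ((2 * m₁ : ℤ) : ℂ) * zeta L (L.ω₁ / 2) + ((2 * m₂ : ℤ) : ℂ) * zeta L (L.ω₂ / 2) := by
  have e1 := eta_half L L.ω₁_mem_lattice (om1_half L)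
  have e2 := eta_half L L.ω₂_mem_lattice (om2_half L)
  rcases (H667R3.wp_eq_iff L hp hs).1 h with h1 | h1
  · obtain ⟨m, n, e⟩ := PeriodPair.mem_lattice.1 h1
    have hs' : -s ∉ L.lattice := fun h2 => hs (by simpa using neg_mem h2)
    have hp' : p = -s + (m * L.ω₁ + n * L.ω₂) := by rw [e]; ring
    refine ⟨-1, m, n, Or.inr rfl, ?_, ?_⟩
    · rw [hp']; push_cast; ring
    · rw [Pool.Agent.Y153.HE.zeta_eq L p, Pool.Agent.Y153.HE.zeta_eq L s, hp',
        H667R3.zeta_add_coe L hs' (by rw [e]; exact h1), H667R3.zeta_neg, Pool.Agent.Y153.HE.eta_comb, e1, e2]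
      push_cast
      ring
  · obtain ⟨m, n, e⟩ := PeriodPair.mem_lattice.1 h1
    have hp' : p = s + (m * L.ω₁ + n * L.ω₂) := by rw [e]; ring
    refine ⟨1, m, n, Or.inl rfl, ?_, ?_⟩
    · rw [hp']; push_cast; ring
    · rw [Pool.Agent.Y153.HE.zeta_eq L p, Pool.Agent.Y153.HE.zeta_eq L s, hp',
        H667R3.zeta_add_coe L hs (by rw [e]; exact h1), Pool.Agent.Y153.HE.eta_comb, e1, e2]
      push_cast
      ring

theorem mem_span' {υ : Type} {K : IntermediateField ℚ ℂ} (w : υ → ℂ) (i : υ) (n : ℤ) :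
    (n : ℂ) * w i ∈ Submodule.span K (insert 1 (Set.range w)) := by
  have h4 : (n : ℂ) * w i = (n : K) • w i := by
    rw [Algebra.smul_def]
    simp
  rw [h4]
  exact Submodule.smul_mem _ _ (Submodule.subset_span (Set.mem_insert_of_mem _ ⟨_, rfl⟩))

/-- **Windows, relative to the periods** -/
theorem ell_window2 (L : PeriodPair) (a b : ℚ) (ha : L.g₂ = a) (hb : L.g₃ = b) (r d δ τ : ℕ) :
    ∃ E : ℕ, ∀ H t : ℕ, (H + 2) ^ E ≤ t → ∀ w : Fin τ → ℂ,
    ∃ S : Finset ℕ, (S.card : Cardinal) ≤ τ + 1 + Algebra.trdeg ℚ (IntermediateField.adjoin ℚ (Set.range (perV L))) ∧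
      ∀ n : Fin r → ℕ, Function.Injective n → (∀ i, t < n i ∧ n i ≤ t + H ∧ n i ∉ S) →
      ∀ p l : Fin r → ℂ, (∀ i, p i ∉ L.lattice ∧ ℘[L] (p i) = n i ∧ Complex.exp (l i) = n i) →
      ∀ K : IntermediateField ℚ ℂ, FiniteDimensional ℚ K → finrank ℚ K ≤ d →
      ∀ P : MvPolynomial ((Fin τ ⊕ Fin 5) ⊕ Fin r × Fin 3) K, P.totalDegree ≤ δ →
        MvPolynomial.aeval (Sum.elim (Sum.elim w (perV L)) fun x => trip L (p x.1) (l x.1) x.2) P = 0 →
        MvPolynomial.aeval (Sum.elim (fun j => MvPolynomial.C (Sum.elim w (perV L) j)) MvPolynomial.X) P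
          = (0 : MvPolynomial (Fin r × Fin 3) ℂ) := by
  classical
  have hab : a ^ 3 - 27 * b ^ 2 ≠ 0 := by
    have h1 := disc_ne Pool.Agent.Y153.HE.t_qp L
    rw [ha, hb] at h1
    exact_mod_cast h1
  have hF := Fe_good a b hab
  have hdeg : (Fe a b).natDegree - 1 = 2 := by rw [Fe_deg]
  set i₀ : Fin ((Fe a b).natDegree - 1) := ⟨0, by omega⟩ with hi₀
  set i₁ : Fin ((Fe a b).natDegree - 1) := ⟨1, by omega⟩ with hi₁
  obtain ⟨sp, X₁, hsp, E₁, hE₁⟩ := principal L a b ha hb hF i₀ i₁ rfl rfl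
  obtain ⟨T, hTc, hT⟩ := Om.exists_base (perV L)
  obtain ⟨A, B, hAB⟩ := Om.Dom.exists (perV L) T hT
  choose Ev hEv using inp hvalT hF
  have hinp : Om.Inp Ev (fun t : ℕ => t) (vl (Fe a b)) := fun N Δ H t ht g hg hgb => hEv N Δ H t ht g hg hgb
  obtain ⟨E₂, hE₂⟩ := Om.awh Ev (σ := Fin ((Fe a b).natDegree - 1) ⊕ Unit) r (2 * d) δ (τ + T.card + 1) A B
  refine ⟨E₁ + E₂ + X₁ + 1, fun H t ht w => ?_⟩
  have hbig : ∀ E ≤ E₁ + E₂ + X₁ + 1, (H + 2) ^ E ≤ t := fun E hE => (Nat.pow_le_pow_right (by omega) hE).trans ht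
  have htX : X₁ ≤ t := by
    refine le_trans ?_ (hbig X₁ (by omega))
    exact (Nat.lt_two_pow_self).le.trans (Nat.pow_le_pow_left (by omega) _)
  have hHt : H < t := by
    have h1 := hbig 1 (by omega)
    rw [pow_one] at h1
    omega
  have ht0 : (0 : ℝ) < t := by
    have : 0 < t := by omega
    exact_mod_cast this
  have hst0 : ((√(t : ℝ) : ℝ) : ℂ) ≠ 0 := by
    rw [Complex.ofReal_ne_zero]
    exact (Real.sqrt_pos.2 ht0).ne'
  set v : (Fin τ ⊕ Fin 5) ⊕ Unit → ℂ := Sum.elim (Sum.elim w (perV L)) (fun _ => ((Real.log t : ℝ) : ℂ)) with hv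
  set T' : Finset ((Fin τ ⊕ Fin 5) ⊕ Unit) := ((Finset.univ : Finset (Fin τ)).disjSum T).disjSum Finset.univ with hT'
  have hT'c : T'.card = τ + T.card + 1 := by
    rw [hT', Finset.card_disjSum, Finset.card_disjSum]
    simp
  have hdom : Om.Dom A B v T' := by
    refine hAB.of v T' ?_ ?_
    · intro j hj
      exact ⟨Sum.inl (Sum.inr j), by simp [hT', hj], by simp [hv]⟩
    · rintro ((j | j) | j)
      · exact Or.inl (by simp [hT'])
      · exact Or.inr ⟨j, by simp [hv]⟩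
      · exact Or.inl (by simp [hT'])
  obtain ⟨S, hS, hwin⟩ := hE₂ ℂ ℕ (fun t => t) (vl (Fe a b)) hinp H t (hbig E₂ (by omega)) _ v T' hT'c hdom
  refine ⟨S.image fun g => t + g, ?_, ?_⟩
  · have h1 : (S.image fun g => t + g).card ≤ τ + T.card + 1 := Finset.card_image_le.trans hS
    calc ((S.image fun g => t + g).card : Cardinal) ≤ ((τ + T.card + 1 : ℕ) : Cardinal) := by exact_mod_cast h1
      _ = (τ : Cardinal) + 1 + (T.card : Cardinal) := by push_cast; ring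
      _ ≤ _ := by gcongr
  intro n hn hnb p l hpl K hKf hKd P hPd hPv
  obtain ⟨K', hKK', hK1, hK2, hK3⟩ := field K hKf 2 ({((√(t : ℝ) : ℝ) : ℂ)})
    (by
      intro z hz
      rw [Finset.mem_singleton] at hz
      rw [hz]
      exact sqrt_deg _ (t : ℤ) (Nat.cast_nonneg _) (by simp))
  have hst : ((√(t : ℝ) : ℝ) : ℂ) ∈ K' := hK1 (IntermediateField.subset_adjoin ℚ _ (by simp))
  set g : Fin r → ℕ := fun i => n i - t with hg
  have hng : ∀ i, n i = t + g i := fun i => by have := (hnb i).1; simp only [hg]; omega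
  let f : Fin ((Fe a b).natDegree - 1) ⊕ Unit ≃ Fin 3 :=
    ((finCongr hdeg).sumCongr (Equiv.ofUnique Unit (Fin 1))).trans finSumFinEquiv
  have key : ∀ q : Fin r × (Fin ((Fe a b).natDegree - 1) ⊕ Unit), ∃ c : K', c ≠ 0 ∧
      trip L (p q.1) (l q.1) (f q.2) - c * vl (Fe a b) t (g q.1) q.2 ∈
        Submodule.span K' (insert 1 (Set.range v)) := by
    rintro ⟨i, s⟩
    have hgH : g i ≤ H := by have := (hnb i).2.1; have := hng i; omega
    obtain ⟨hs1, hs2⟩ := hsp (n i) (htX.trans (hnb i).1.le)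
    obtain ⟨ε, m₁, m₂, hε, h1, h2⟩ := qp' L hs1 (hpl i).1 (by rw [(hpl i).2.1, hs2])
    have hε0 : ε ≠ 0 := by rcases hε with h | h <;> rw [h] <;> norm_num
    have hn0 : (n i : ℂ) ≠ 0 := by
      have h1 : n i ≠ 0 := by have := (hnb i).1; omega
      exact_mod_cast h1
    obtain ⟨u, hu⟩ : ∃ u : ℤ, l i = Complex.log (n i) + u * (2 * Real.pi * Complex.I) :=
      Complex.exp_eq_exp_iff_exists_int.1 (by rw [(hpl i).2.2, Complex.exp_log hn0])
    have hcast : ((n i : ℕ) : ℝ) = (t : ℝ) + (g i : ℝ) := by rw [hng i]; push_cast; ring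
    obtain ⟨e0, e1⟩ := hE₁ H t (hbig E₁ (by omega)) (g i) hgH
    rw [← hng i] at e0 e1
    rcases s with s | s
    · obtain ⟨s, hs⟩ := s
      have hs2 : s < 2 := by omega
      interval_cases s
      · refine ⟨(ε : K') * (⟨_, hst⟩ : K')⁻¹ / 2, ?_, ?_⟩
        · refine div_ne_zero (mul_ne_zero (by exact_mod_cast hε0) (inv_ne_zero ?_)) two_ne_zero
          intro h
          exact hst0 (congrArg (fun x : K' => (x : ℂ)) h)
        · have e2 : trip L (p i) (l i) (f (Sum.inl ⟨0, hs⟩)) -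
              ((((ε : K') * (⟨_, hst⟩ : K')⁻¹ / 2 : K') : ℂ)) * vl (Fe a b) t (g i) (Sum.inl ⟨0, hs⟩) =
              (m₁ : ℂ) * v (Sum.inl (Sum.inr 0)) + (m₂ : ℂ) * v (Sum.inl (Sum.inr 1)) := by
            have e3 : ((((ε : K') * (⟨_, hst⟩ : K')⁻¹ / 2 : K') : ℂ)) = (ε : ℂ) * ((√(t : ℝ) : ℝ) : ℂ)⁻¹ / 2 := by
              push_cast
              rfl
            have e4 : vl (Fe a b) t (g i) (Sum.inl ⟨0, hs⟩) = ((ev t (Yf (Fe a b) (g i) (Sum.inl i₀)) : ℝ) : ℂ) := rfl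
            change p i - _ = (m₁ : ℂ) * L.ω₁ + (m₂ : ℂ) * L.ω₂
            rw [h1, e0, e3, e4]
            push_cast
            ring
          rw [e2]
          exact add_mem (mem_span' _ _ _) (mem_span' _ _ _)
      · refine ⟨-((ε : K') * (⟨_, hst⟩ : K') / 2), ?_, ?_⟩
        · rw [neg_ne_zero]
          refine div_ne_zero (mul_ne_zero (by exact_mod_cast hε0) ?_) two_ne_zero
          intro h
          exact hst0 (congrArg (fun x : K' => (x : ℂ)) h)
        · have e2 : trip L (p i) (l i) (f (Sum.inl ⟨1, hs⟩)) -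
              (((-((ε : K') * (⟨_, hst⟩ : K') / 2) : K') : ℂ)) * vl (Fe a b) t (g i) (Sum.inl ⟨1, hs⟩) =
              ((2 * m₁ : ℤ) : ℂ) * v (Sum.inl (Sum.inr 2)) + ((2 * m₂ : ℤ) : ℂ) * v (Sum.inl (Sum.inr 3)) := by
            change zeta L (p i) - _ = ((2 * m₁ : ℤ) : ℂ) * zeta L (L.ω₁ / 2) + ((2 * m₂ : ℤ) : ℂ) * zeta L (L.ω₂ / 2)
            have e3 : (((-((ε : K') * (⟨_, hst⟩ : K') / 2) : K') : ℂ)) = -((ε : ℂ) * ((√(t : ℝ) : ℝ) : ℂ) / 2) := by
              push_cast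
              rfl
            have e4 : vl (Fe a b) t (g i) (Sum.inl ⟨1, hs⟩) = ((ev t (Yf (Fe a b) (g i) (Sum.inl i₁)) : ℝ) : ℂ) := rfl
            rw [h2, e1, e3, e4]
            push_cast
            ring
          rw [e2]
          exact add_mem (mem_span' _ _ _) (mem_span' _ _ _)
    · refine ⟨1, one_ne_zero, ?_⟩
      have e2 : trip L (p i) (l i) (f (Sum.inr s)) - ((1 : K') : ℂ) * vl (Fe a b) t (g i) (Sum.inr s) =
          (u : ℂ) * v (Sum.inl (Sum.inr 4)) + ((1 : ℤ) : ℂ) * v (Sum.inr ()) := by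
        change l i - _ = (u : ℂ) * (2 * Real.pi * Complex.I) + ((1 : ℤ) : ℂ) * ((Real.log t : ℝ) : ℂ)
        rw [hu, ← Complex.natCast_log, vl, ev_log (by omega), hcast]
        push_cast
        ring
      rw [e2]
      exact add_mem (mem_span' _ _ _) (mem_span' _ _ _)
  let e : Fin r × (Fin ((Fe a b).natDegree - 1) ⊕ Unit) ≃ Fin r × Fin 3 := (Equiv.refl _).prodCongr f
  set j : K →+* K' := (IntermediateField.inclusion hKK' : K →+* K') with hj
  set Q : MvPolynomial (((Fin τ ⊕ Fin 5) ⊕ Unit) ⊕ Fin r × (Fin ((Fe a b).natDegree - 1) ⊕ Unit)) K' :=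
    MvPolynomial.map j (MvPolynomial.rename (Sum.map (Sum.inl : Fin τ ⊕ Fin 5 → (Fin τ ⊕ Fin 5) ⊕ Unit) e.symm) P) with hQ
  have hQd : Q.totalDegree ≤ δ := by
    refine le_trans (le_trans (le_of_eq ?_) (MvPolynomial.totalDegree_rename_le (Sum.map (Sum.inl : Fin τ ⊕ Fin 5 → (Fin τ ⊕ Fin 5) ⊕ Unit) e.symm) P)) hPd
    rw [hQ]
    unfold MvPolynomial.totalDegree
    rw [MvPolynomial.support_map_of_injective _ j.injective]
  have hgi : ∀ i, 1 ≤ g i ∧ g i ≤ H ∧ g i ∉ S := by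
    intro i
    obtain ⟨h1, h2, h3⟩ := hnb i
    have h4 := hng i
    refine ⟨by omega, by omega, fun h5 => h3 ?_⟩
    rw [h4]
    exact Finset.mem_image_of_mem _ h5
  have h9 := hwin g (fun i i' h => hn (by rw [hng i, hng i', h])) hgi K' hK2 (by
      refine hK3.trans ?_
      rw [Finset.card_singleton, pow_one, mul_comm]
      exact Nat.mul_le_mul_left _ hKd)
    (fun q => trip L (p q.1) (l q.1) (f q.2)) key Q hQd (by
      rw [hQ, MvPolynomial.aeval_def, MvPolynomial.eval₂_map, MvPolynomial.eval₂_rename, ← hPv, MvPolynomial.aeval_def]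
      congr 1
      funext x
      rcases x with i | x
      · simp [hv]
      · simp [e])
  rw [hQ, MvPolynomial.aeval_def, MvPolynomial.eval₂_map, MvPolynomial.eval₂_rename] at h9
  have h10 := congrArg (MvPolynomial.rename e) h9
  rw [map_zero] at h10
  have h11 := MvPolynomial.eval₂_comp_left (MvPolynomial.rename (R := ℂ) e).toRingHom
    ((algebraMap K' (MvPolynomial (Fin r × (Fin ((Fe a b).natDegree - 1) ⊕ Unit)) ℂ)).comp j)
    (Sum.elim (fun j => MvPolynomial.C (v j)) MvPolynomial.X ∘ Sum.map (Sum.inl : Fin τ ⊕ Fin 5 → (Fin τ ⊕ Fin 5) ⊕ Unit) e.symm) P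
  refine Eq.trans ?_ (h11.symm.trans h10)
  rw [MvPolynomial.aeval_def]
  congr 1
  · refine RingHom.ext fun x => ?_
    change MvPolynomial.C (x : ℂ) = MvPolynomial.rename e (MvPolynomial.C (x : ℂ))
    rw [MvPolynomial.rename_C]
  · funext x
    rcases x with i | x
    · simp [hv]
    · simp

end Pool.Agent.Y916.Hy
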