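import Pool.Agent.Y916.Low
import Pool.Agent.Y916.Ari2

/-!
# Change of fields, relations with substituted constants
-/

set_option autoImplicit false

open Module
open scoped Pointwise

namespace Pool.Agent.Y916.Fld

open Pool.Agent.Y916.Hil Pool.Agent.Y916.Gre Pool.Agent.Y916.Low Pool.Agent.Y916.Ari

theorem adm_deg {d H : ℕ} {z : ℂ} (h : Adm d H z) : IsIntegral ℚ z ∧ (minpoly ℚ z).natDegree ≤ d := by
  obtain ⟨p, hp0, hpd, -, hpz⟩ := h
  have hq0 : p.map (Int.castRingHom ℚ) ≠ 0 := (Polynomial.map_ne_zero_iff Int.cast_injective).2 hp0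
  have hqz : Polynomial.aeval z (p.map (Int.castRingHom ℚ)) = 0 :=
    (Polynomial.aeval_map_algebraMap ℚ z p).trans hpz
  refine ⟨IsAlgebraic.isIntegral ⟨_, hq0, hqz⟩, ?_⟩
  refine (Polynomial.natDegree_le_of_dvd (minpoly.dvd ℚ z hqz) hq0).trans ?_
  rw [Polynomial.natDegree_map_eq_of_injective Int.cast_injective]
  exact hpd

theorem field (K : IntermediateField ℚ ℂ) (hK : FiniteDimensional ℚ K) (d : ℕ) (Θ : Finset ℂ)
    (hΘ : ∀ z ∈ Θ, IsIntegral ℚ z ∧ (minpoly ℚ z).natDegree ≤ d) :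
    ∃ K' : IntermediateField ℚ ℂ, K ≤ K' ∧ IntermediateField.adjoin ℚ (Θ : Set ℂ) ≤ K' ∧ FiniteDimensional ℚ K' ∧
      finrank ℚ K' ≤ finrank ℚ K * d ^ Θ.card := by
  classical
  induction Θ using Finset.induction_on with
  | empty =>
    refine ⟨K, le_rfl, ?_, hK, by simp⟩
    simp
  | insert z Θ hz ih =>
    obtain ⟨K', h1, h2, h3, h4⟩ := ih fun z hz => hΘ z (Finset.mem_insert_of_mem hz)
    obtain ⟨hzi, hzd⟩ := hΘ z (Finset.mem_insert_self z Θ)
    have hfd : FiniteDimensional ℚ (IntermediateField.adjoin ℚ {z}) := IntermediateField.adjoin.finiteDimensional hzi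
    refine ⟨K' ⊔ IntermediateField.adjoin ℚ {z}, h1.trans le_sup_left, ?_, inferInstance, ?_⟩
    · rw [IntermediateField.adjoin_le_iff]
      intro v hv
      rw [Finset.coe_insert, Set.mem_insert_iff] at hv
      rcases hv with rfl | hv
      · exact (le_sup_right : _ ≤ K' ⊔ IntermediateField.adjoin ℚ {v}) (IntermediateField.mem_adjoin_simple_self ℚ v)
      · exact (le_sup_left : K' ≤ _) (h2 (IntermediateField.subset_adjoin ℚ _ hv))
    · refine (IntermediateField.finrank_sup_le K' (IntermediateField.adjoin ℚ {z})).trans ?_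
      rw [IntermediateField.adjoin.finrank hzi, Finset.card_insert_of_notMem hz, pow_succ, ← mul_assoc]
      exact Nat.mul_le_mul h4 hzd

theorem pow_field (K K' : IntermediateField ℚ ℂ) (hK : K ≤ K') (s s' : Set ℂ) (hs : s ⊆ s') (δ : ℕ) (c : ℂ)
    (hc : c ∈ (Submodule.span K s) ^ δ) : c ∈ (Submodule.span K' s') ^ δ := by
  rw [Submodule.span_pow] at *
  refine Submodule.span_induction (p := fun c _ => c ∈ Submodule.span K' (s' ^ δ)) ?_ ?_ ?_ ?_ hc
  · intro x hx
    exact Submodule.subset_span (Set.pow_subset_pow_left hs hx)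
  · exact Submodule.zero_mem _
  · intro x y _ _ hx hy
    exact Submodule.add_mem _ hx hy
  · intro k x _ hx
    have : k • x = (⟨(k : ℂ), hK k.2⟩ : K') • x := rfl
    rw [this]
    exact Submodule.smul_mem _ _ hx

section Calc

variable {ι : Type*} [DecidableEq ι] {K : Type*} [Field K] [Algebra K ℂ]

theorem ok_mul {V : Submodule K ℂ} {A : Finset ι} {a b : ℕ} {P Q : MvPolynomial ι ℂ}
    (hP : Ok ((V ^ a : Submodule K ℂ) : Set ℂ) a A P) (hQ : Ok ((V ^ b : Submodule K ℂ) : Set ℂ) b A Q) :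
    Ok ((V ^ (a + b) : Submodule K ℂ) : Set ℂ) (a + b) A (P * Q) := by
  refine ⟨?_, (MvPolynomial.totalDegree_mul _ _).trans (add_le_add hP.2.1 hQ.2.1), ?_⟩
  · intro m hm i hi
    have h1 := MvPolynomial.support_mul P Q hm
    obtain ⟨m1, hm1, m2, hm2, rfl⟩ := Finset.mem_add.1 h1
    rw [Finsupp.add_apply] at hi
    by_cases h : m1 i = 0
    · exact hQ.1 m2 hm2 i (by omega)
    · exact hP.1 m1 hm1 i h
  · intro m
    rw [MvPolynomial.coeff_mul, pow_add]
    exact Submodule.sum_mem _ fun x _ => Submodule.mul_mem_mul (hP.2.2 _) (hQ.2.2 _)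

theorem ok_mono {V : Submodule K ℂ} (h1 : (1 : ℂ) ∈ V) {A : Finset ι} {a b : ℕ} (hab : a ≤ b) {P : MvPolynomial ι ℂ}
    (hP : Ok ((V ^ a : Submodule K ℂ) : Set ℂ) a A P) : Ok ((V ^ b : Submodule K ℂ) : Set ℂ) b A P :=
  ⟨hP.1, hP.2.1.trans hab, fun m => Hil.pow_le_pow h1 hab (hP.2.2 m)⟩

theorem ok_sum {κ : Type*} {V : Submodule K ℂ} {A : Finset ι} {a : ℕ} (s : Finset κ) (f : κ → MvPolynomial ι ℂ)
    (hf : ∀ i ∈ s, Ok ((V ^ a : Submodule K ℂ) : Set ℂ) a A (f i)) :
    Ok ((V ^ a : Submodule K ℂ) : Set ℂ) a A (∑ i ∈ s, f i) := by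
  refine ⟨?_, ?_, ?_⟩
  · intro m hm i hi
    rw [MvPolynomial.mem_support_iff, MvPolynomial.coeff_sum] at hm
    obtain ⟨k, hk, hk'⟩ := Finset.exists_ne_zero_of_sum_ne_zero hm
    exact (hf k hk).1 m (MvPolynomial.mem_support_iff.2 hk') i hi
  · exact (MvPolynomial.totalDegree_finset_sum _ _).trans (Finset.sup_le fun k hk => (hf k hk).2.1)
  · intro m
    rw [MvPolynomial.coeff_sum]
    exact Submodule.sum_mem _ fun k hk => (hf k hk).2.2 m

theorem ok_C {V : Submodule K ℂ} {A : Finset ι} {a : ℕ} {c : ℂ} (hc : c ∈ V ^ a) :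
    Ok ((V ^ a : Submodule K ℂ) : Set ℂ) a A (MvPolynomial.C c) := by
  refine ⟨?_, ?_, ?_⟩
  · intro m hm i hi
    rw [MvPolynomial.mem_support_iff, MvPolynomial.coeff_C] at hm
    split_ifs at hm with h
    · rw [← h] at hi
      exact absurd rfl hi
    · exact absurd rfl hm
  · rw [MvPolynomial.totalDegree_C]
    exact Nat.zero_le _
  · intro m
    rw [MvPolynomial.coeff_C]
    split_ifs
    · exact hc
    · exact Submodule.zero_mem _

theorem ok_X {V : Submodule K ℂ} (h1 : (1 : ℂ) ∈ V) {A : Finset ι} {i : ι} (hi : i ∈ A) :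
    Ok ((V ^ 1 : Submodule K ℂ) : Set ℂ) 1 A (MvPolynomial.X i) := by
  refine ⟨?_, ?_, ?_⟩
  · intro m hm j hj
    rw [MvPolynomial.mem_support_iff, MvPolynomial.coeff_X'] at hm
    split_ifs at hm with h
    · rw [← h, Finsupp.single_apply] at hj
      split_ifs at hj with h2
      · rw [← h2]
        exact hi
      · exact absurd rfl hj
    · exact absurd rfl hm
  · exact (MvPolynomial.totalDegree_X i).le
  · intro m
    rw [MvPolynomial.coeff_X', pow_one]
    split_ifs
    · exact h1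
    · exact Submodule.zero_mem _

theorem ok_pow {V : Submodule K ℂ} {A : Finset ι} {P : MvPolynomial ι ℂ}
    (hP : Ok ((V ^ 1 : Submodule K ℂ) : Set ℂ) 1 A P) (n : ℕ) : Ok ((V ^ n : Submodule K ℂ) : Set ℂ) n A (P ^ n) := by
  induction n with
  | zero =>
    rw [pow_zero]
    have : (1 : ℂ) ∈ V ^ 0 := by simp
    simpa using ok_C (ι := ι) (A := A) this
  | succ n ih =>
    rw [pow_succ]
    exact ok_mul ih hP

theorem ok_prod {κ : Type*} [DecidableEq κ] {V : Submodule K ℂ} {A : Finset ι} (s : Finset κ)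
    (g : κ → MvPolynomial ι ℂ) (hg : ∀ i, Ok ((V ^ 1 : Submodule K ℂ) : Set ℂ) 1 A (g i)) (m : κ → ℕ) :
    Ok ((V ^ (∑ i ∈ s, m i) : Submodule K ℂ) : Set ℂ) (∑ i ∈ s, m i) A (∏ i ∈ s, g i ^ m i) := by
  induction s using Finset.induction_on with
  | empty =>
    rw [Finset.prod_empty, Finset.sum_empty]
    have : (1 : ℂ) ∈ V ^ 0 := by simp
    simpa using ok_C (ι := ι) (A := A) this
  | insert j s hj ih =>
    rw [Finset.prod_insert hj, Finset.sum_insert hj]
    exact ok_mul (ok_pow (hg j) _) ih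

theorem ok_smul {V : Submodule K ℂ} {A : Finset ι} {a : ℕ} {P : MvPolynomial ι ℂ} (k : K)
    (hP : Ok ((V ^ a : Submodule K ℂ) : Set ℂ) a A P) :
    Ok ((V ^ a : Submodule K ℂ) : Set ℂ) a A (MvPolynomial.C (algebraMap K ℂ k) * P) := by
  have h0 : algebraMap K ℂ k ∈ V ^ 0 := by
    rw [pow_zero]
    exact Submodule.algebraMap_mem k
  have := ok_mul (ok_C (A := A) h0) hP
  rwa [zero_add] at this

theorem ok_aeval {κ : Type*} [DecidableEq κ] {V : Submodule K ℂ} (h1 : (1 : ℂ) ∈ V) {A : Finset ι}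
    {g : κ → MvPolynomial ι ℂ} (hg : ∀ i, Ok ((V ^ 1 : Submodule K ℂ) : Set ℂ) 1 A (g i)) {δ : ℕ}
    {P : MvPolynomial κ K} (hP : P.totalDegree ≤ δ) :
    Ok ((V ^ δ : Submodule K ℂ) : Set ℂ) δ A (MvPolynomial.aeval g P) := by
  rw [MvPolynomial.aeval_def, MvPolynomial.eval₂_eq]
  refine ok_sum _ _ fun m hm => ?_
  have h3 : (∑ i ∈ m.support, m i) ≤ δ := (MvPolynomial.le_totalDegree hm).trans hP
  exact ok_smul (P.coeff m) (ok_mono h1 h3 (ok_prod m.support g hg fun i => m i))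

end Calc

section Sub

variable {τ r : ℕ} (K : IntermediateField ℚ ℂ) (w : Fin τ → ℂ) (β : Fin r → ℂ) (v : Fin r → ℂ)
  (P : MvPolynomial (Fin τ ⊕ Fin r) K)

/-- the relation `P (w, X_β + v)` -/
noncomputable def Qs : MvPolynomial ℂ ℂ :=
  MvPolynomial.aeval (Sum.elim (fun j => MvPolynomial.C (w j)) fun i => MvPolynomial.X (β i) + MvPolynomial.C (v i)) P

theorem Qs_eq : Qs K w β v P = MvPolynomial.rename β (MvPolynomial.aeval
    (fun i => MvPolynomial.X i + MvPolynomial.C (v i)) (MvPolynomial.aeval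
      (Sum.elim (fun j => MvPolynomial.C (w j)) MvPolynomial.X) P : MvPolynomial (Fin r) ℂ) :
      MvPolynomial (Fin r) ℂ) := by
  unfold Qs
  have h : (MvPolynomial.aeval (Sum.elim (fun j => MvPolynomial.C (w j)) fun i =>
      MvPolynomial.X (β i) + MvPolynomial.C (v i)) : MvPolynomial (Fin τ ⊕ Fin r) K →ₐ[K] MvPolynomial ℂ ℂ)
      = ((((MvPolynomial.rename β : MvPolynomial (Fin r) ℂ →ₐ[ℂ] MvPolynomial ℂ ℂ).comp
        (MvPolynomial.aeval (fun i => MvPolynomial.X i + MvPolynomial.C (v i)) :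
          MvPolynomial (Fin r) ℂ →ₐ[ℂ] MvPolynomial (Fin r) ℂ)).restrictScalars K).comp
        (MvPolynomial.aeval (Sum.elim (fun j => MvPolynomial.C (w j)) MvPolynomial.X))) := by
    refine MvPolynomial.algHom_ext fun i => ?_
    rcases i with j | i
    · simp
    · simp
  exact DFunLike.congr_fun h P

theorem shift_inj : Function.Injective (MvPolynomial.aeval (fun i => MvPolynomial.X i + MvPolynomial.C (v i)) :
    MvPolynomial (Fin r) ℂ →ₐ[ℂ] MvPolynomial (Fin r) ℂ) := by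
  have h : (MvPolynomial.aeval (fun i => MvPolynomial.X i - MvPolynomial.C (v i)) :
      MvPolynomial (Fin r) ℂ →ₐ[ℂ] MvPolynomial (Fin r) ℂ).comp
      (MvPolynomial.aeval (fun i => MvPolynomial.X i + MvPolynomial.C (v i)) :
      MvPolynomial (Fin r) ℂ →ₐ[ℂ] MvPolynomial (Fin r) ℂ) = AlgHom.id ℂ _ := by
    refine MvPolynomial.algHom_ext fun i => ?_
    simp
  intro a b hab
  have h1 := DFunLike.congr_fun h a
  have h2 := DFunLike.congr_fun h b
  rw [AlgHom.comp_apply, AlgHom.id_apply] at h1 h2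
  rw [← h1, ← h2, hab]

theorem aeval_Qs (y : ℂ → ℂ) : MvPolynomial.aeval y (Qs K w β v P)
    = MvPolynomial.aeval (Sum.elim w fun i => y (β i) + v i) P := by
  unfold Qs
  have h : ((MvPolynomial.aeval y : MvPolynomial ℂ ℂ →ₐ[ℂ] ℂ).restrictScalars K).comp
      (MvPolynomial.aeval (Sum.elim (fun j => MvPolynomial.C (w j)) fun i =>
        MvPolynomial.X (β i) + MvPolynomial.C (v i)))
      = (MvPolynomial.aeval (Sum.elim w fun i => y (β i) + v i) : MvPolynomial (Fin τ ⊕ Fin r) K →ₐ[K] ℂ) := by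
    refine MvPolynomial.algHom_ext fun i => ?_
    rcases i with j | i
    · simp
    · simp
  exact DFunLike.congr_fun h P

theorem Qs_ok {δ : ℕ} (hP : P.totalDegree ≤ δ) (hv : ∀ i, v i ∈ Submodule.span K (insert (1 : ℂ) (Set.range w))) :
    Ok ((Submodule.span K (insert (1 : ℂ) (Set.range w)) ^ δ : Submodule K ℂ) : Set ℂ) δ
      (Finset.univ.image β) (Qs K w β v P) := by
  classical
  have h1 : (1 : ℂ) ∈ Submodule.span K (insert (1 : ℂ) (Set.range w)) := Submodule.subset_span (Set.mem_insert _ _)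
  refine ok_aeval h1 ?_ hP
  rintro (j | i)
  · exact ok_C (by rw [pow_one]; exact Submodule.subset_span (Set.mem_insert_of_mem _ ⟨j, rfl⟩))
  · have h2 := ok_X (A := Finset.univ.image β) h1 (Finset.mem_image_of_mem β (Finset.mem_univ i))
    have h3 := ok_C (A := Finset.univ.image β) (V := Submodule.span K (insert (1 : ℂ) (Set.range w))) (a := 1)
      (c := v i) (by rw [pow_one]; exact hv i)
    have h4 := ok_sum (Finset.univ : Finset Bool)
      (fun b => if b then (MvPolynomial.X (β i) : MvPolynomial ℂ ℂ) else MvPolynomial.C (v i))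
      (V := Submodule.span K (insert (1 : ℂ) (Set.range w))) (a := 1) (A := Finset.univ.image β) (by
        rintro (_ | _) -
        · simpa using h3
        · simpa using h2)
    simpa using h4

end Sub

end Pool.Agent.Y916.Fld
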