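import Pool.Agent.Y916.Hil

/-!
# Sets of indices with a relation of bounded degree, and the greedy choice
-/

set_option autoImplicit false

open Module

namespace Pool.Agent.Y916.Gre

open Pool.Agent.Y916.Hil

variable {ι : Type*} [DecidableEq ι]

/-- the variables of `Q` are in `A`, the degree is at most `δ`, the coefficients are in `Co` -/
def Ok (Co : Set ℂ) (δ : ℕ) (A : Finset ι) (Q : MvPolynomial ι ℂ) : Prop :=
  (∀ m ∈ Q.support, ∀ i, m i ≠ 0 → i ∈ A) ∧ Q.totalDegree ≤ δ ∧ ∀ m, Q.coeff m ∈ Co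

/-- the numbers `y i`, `i ∈ A`, satisfy a relation -/
def Bad (y : ι → ℂ) (Co : Set ℂ) (δ : ℕ) (A : Finset ι) : Prop :=
  ∃ Q : MvPolynomial ι ℂ, Q ≠ 0 ∧ Ok Co δ A Q ∧ MvPolynomial.aeval y Q = 0

theorem Bad.mono {y : ι → ℂ} {Co : Set ℂ} {δ : ℕ} {A B : Finset ι} (h : Bad y Co δ A) (hAB : A ⊆ B) : Bad y Co δ B := by
  obtain ⟨Q, h0, ⟨h1, h2, h3⟩, h4⟩ := h
  exact ⟨Q, h0, ⟨fun m hm i hi => hAB (h1 m hm i hi), h2, h3⟩, h4⟩

/-- the coefficient of `X_s^i` -/
noncomputable def pc (Q : MvPolynomial ι ℂ) (s : ι) (i : ℕ) : MvPolynomial ι ℂ :=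
  ∑ m ∈ Q.support.filter (fun m => m s = i), MvPolynomial.monomial (m.erase s) (Q.coeff m)

theorem coeff_pc (Q : MvPolynomial ι ℂ) (s : ι) (i : ℕ) (m' : ι →₀ ℕ) :
    (pc Q s i).coeff m' = if m' s = 0 then Q.coeff (m' + Finsupp.single s i) else 0 := by
  unfold pc
  rw [MvPolynomial.coeff_sum]
  simp only [MvPolynomial.coeff_monomial]
  split_ifs with h
  · have key : ∀ m : ι →₀ ℕ, (m s = i ∧ m.erase s = m') ↔ m = m' + Finsupp.single s i := by
      intro m
      constructor
      · rintro ⟨h1, h2⟩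
        rw [← h2, ← h1]
        exact (Finsupp.erase_add_single s m).symm
      · rintro rfl
        constructor
        · simp [h]
        · ext j
          by_cases hj : j = s
          · subst hj
            simp [h]
          · simp [Finsupp.erase_ne hj, Finsupp.single_apply, Ne.symm hj]
    by_cases hm : m' + Finsupp.single s i ∈ Q.support
    · rw [Finset.sum_eq_single (m' + Finsupp.single s i)]
      · rw [if_pos ((key _).2 rfl).2]
      · intro m hm1 hm2
        rw [Finset.mem_filter] at hm1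
        rw [if_neg]
        intro hm3
        exact hm2 ((key m).1 ⟨hm1.2, hm3⟩)
      · intro hm1
        exact absurd (Finset.mem_filter.2 ⟨hm, ((key _).2 rfl).1⟩) hm1
    · rw [MvPolynomial.notMem_support_iff.1 hm]
      refine Finset.sum_eq_zero fun m hm1 => ?_
      rw [Finset.mem_filter] at hm1
      rw [if_neg]
      intro hm3
      rw [(key m).1 ⟨hm1.2, hm3⟩] at hm1
      exact hm hm1.1
  · refine Finset.sum_eq_zero fun m hm1 => ?_
    rw [if_neg]
    rintro rfl
    exact h (by simp)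

theorem pc_ok {Co : Set ℂ} (h0 : (0 : ℂ) ∈ Co) {δ : ℕ} {A : Finset ι} {Q : MvPolynomial ι ℂ} (h : Ok Co δ A Q) (s : ι)
    (i : ℕ) : Ok Co δ (A.erase s) (pc Q s i) := by
  obtain ⟨h1, h2, h3⟩ := h
  refine ⟨?_, ?_, ?_⟩
  · intro m hm j hj
    rw [MvPolynomial.mem_support_iff, coeff_pc] at hm
    split_ifs at hm with hs
    · have hm' := h1 _ (MvPolynomial.mem_support_iff.2 hm) j
      refine Finset.mem_erase.2 ⟨?_, hm' ?_⟩
      · rintro rfl
        exact hj hs
      · simp only [Finsupp.add_apply]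
        omega
    · exact absurd rfl hm
  · unfold pc
    refine (MvPolynomial.totalDegree_finset_sum _ _).trans (Finset.sup_le fun m hm => ?_)
    refine (MvPolynomial.totalDegree_monomial_le _ _).trans ?_
    rw [Finset.mem_filter] at hm
    have h5 : (m.sum fun _ e => e) ≤ δ := (MvPolynomial.le_totalDegree hm.1).trans h2
    have h6 : (m.erase s).sum (fun _ e => e) ≤ m.sum fun _ e => e := by
      rw [Finsupp.sum, Finsupp.sum, Finsupp.support_erase]
      refine (Finset.sum_le_sum fun j hj => ?_).trans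
        (Finset.sum_le_sum_of_subset (Finset.erase_subset s m.support))
      rw [Finsupp.erase_ne (Finset.ne_of_mem_erase hj)]
    exact h6.trans h5
  · intro m
    rw [coeff_pc]
    split_ifs
    · exact h3 _
    · exact h0

theorem aeval_pc (Q : MvPolynomial ι ℂ) (s : ι) (y : ι → ℂ) (a : ℕ) (ha : ∀ m ∈ Q.support, m s ≤ a) :
    MvPolynomial.aeval y Q = ∑ i ∈ Finset.range (a + 1), MvPolynomial.aeval y (pc Q s i) * y s ^ i := by
  have hQ : Q = ∑ i ∈ Finset.range (a + 1), pc Q s i * MvPolynomial.X s ^ i := by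
    have e1 : ∀ i, pc Q s i * MvPolynomial.X s ^ i
        = ∑ m ∈ Q.support.filter (fun m => m s = i), MvPolynomial.monomial m (Q.coeff m) := by
      intro i
      unfold pc
      rw [Finset.sum_mul]
      refine Finset.sum_congr rfl fun m hm => ?_
      rw [Finset.mem_filter] at hm
      rw [MvPolynomial.X_pow_eq_monomial, MvPolynomial.monomial_mul, mul_one, ← hm.2, Finsupp.erase_add_single]
    simp only [e1]
    rw [Finset.sum_fiberwise_of_maps_to (s := Q.support) (t := Finset.range (a + 1)) (g := fun m => m s)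
      (fun m hm => Finset.mem_range.2 (Nat.lt_succ_of_le (ha m hm)))
      (fun m => MvPolynomial.monomial m (MvPolynomial.coeff m Q))]
    exact MvPolynomial.as_sum Q
  conv_lhs => rw [hQ]
  simp only [map_sum, map_mul, map_pow, MvPolynomial.aeval_X]

theorem prod_mem {K : Type*} [Field K] [Algebra K ℂ] (V : Submodule K ℂ) (y : ι → ℂ) (m : ι →₀ ℕ) (s : Finset ι)
    (hy : ∀ i ∈ s, m i ≠ 0 → y i ∈ V) : ∏ i ∈ s, y i ^ m i ∈ V ^ (∑ i ∈ s, m i) := by
  induction s using Finset.induction_on with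
  | empty =>
    simp
  | insert j s hj ih =>
    rw [Finset.prod_insert hj, Finset.sum_insert hj, pow_add]
    refine Submodule.mul_mem_mul ?_ (ih fun i hi => hy i (Finset.mem_insert_of_mem hi))
    by_cases h : m j = 0
    · rw [h]
      simp
    · exact Submodule.pow_mem_pow V (hy j (Finset.mem_insert_self j s) h) _

theorem ok_mem {K : Type*} [Field K] [Algebra K ℂ] {V : Submodule K ℂ} (h1 : (1 : ℂ) ∈ V) {Co : Set ℂ} {δ : ℕ}
    (hCo : ∀ c ∈ Co, c ∈ V ^ δ) {y : ι → ℂ} {A : Finset ι} (hy : ∀ i ∈ A, y i ∈ V) {Q : MvPolynomial ι ℂ}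
    (hQ : Ok Co δ A Q) : MvPolynomial.aeval y Q ∈ V ^ (2 * δ) := by
  rw [MvPolynomial.aeval_def, MvPolynomial.eval₂_eq]
  refine Submodule.sum_mem _ fun m hm => ?_
  rw [two_mul, pow_add]
  refine Submodule.mul_mem_mul (hCo _ (hQ.2.2 m)) ?_
  have h2 : (∑ i ∈ m.support, m i) ≤ δ := (MvPolynomial.le_totalDegree hm).trans hQ.2.1
  exact pow_le_pow h1 h2 (prod_mem V y m m.support fun i _ hi => hy i (hQ.1 m hm i hi))

/-- an algebraic equation for `y s` -/
theorem step_eq {K : Type*} [Field K] [Algebra K ℂ] {y : ι → ℂ} {Co : Set ℂ} {δ : ℕ} {A : Finset ι} {s : ι}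
    (hb : Bad y Co δ A) (hm : ¬ Bad y Co δ (A.erase s)) (h0 : (0 : ℂ) ∈ Co) {V : Submodule K ℂ} (h1 : (1 : ℂ) ∈ V)
    (hCo : ∀ c ∈ Co, c ∈ V ^ δ) (hy : ∀ i ∈ A.erase s, y i ∈ V) :
    ∃ (a : ℕ) (c : ℕ → ℂ), 1 ≤ a ∧ a ≤ δ ∧ (∀ i ≤ a, c i ∈ V ^ (2 * δ)) ∧ c a ≠ 0 ∧
      ∑ i ∈ Finset.range (a + 1), c i * y s ^ i = 0 := by
  obtain ⟨Q, hQ0, hQ, hQy⟩ := hb
  have hne : Q.support.Nonempty := MvPolynomial.support_nonempty.2 hQ0
  obtain ⟨m0, hm0, hmax⟩ := Finset.exists_max_image Q.support (fun m => m s) hne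
  have hca : MvPolynomial.aeval y (pc Q s (m0 s)) ≠ 0 := by
    intro h
    refine hm ⟨pc Q s (m0 s), ?_, pc_ok h0 hQ s _, h⟩
    intro h2
    have h3 := coeff_pc Q s (m0 s) (m0.erase s)
    rw [h2, MvPolynomial.coeff_zero, if_pos (by simp), Finsupp.erase_add_single] at h3
    exact MvPolynomial.mem_support_iff.1 hm0 h3.symm
  have hsum := aeval_pc Q s y (m0 s) hmax
  rw [hQy] at hsum
  refine ⟨m0 s, fun i => MvPolynomial.aeval y (pc Q s i), ?_, ?_, ?_, hca, hsum.symm⟩
  · rcases Nat.eq_zero_or_pos (m0 s) with h | h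
    · rw [h] at hsum hca
      rw [zero_add, Finset.sum_range_one, pow_zero, mul_one] at hsum
      exact absurd hsum.symm hca
    · exact h
  · refine le_trans ?_ ((MvPolynomial.le_totalDegree hm0).trans hQ.2.1)
    by_cases h : s ∈ m0.support
    · exact Finset.single_le_sum (f := fun i => m0 i) (fun i _ => Nat.zero_le _) h
    · rw [Finsupp.notMem_support_iff.1 h]
      exact Nat.zero_le _
  · intro i _
    exact ok_mem h1 hCo hy (pc_ok h0 hQ s i)

/-- every bad set contains a minimal one -/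
theorem exists_min {y : ι → ℂ} {Co : Set ℂ} {δ : ℕ} {A : Finset ι} (hb : Bad y Co δ A) :
    ∃ B ⊆ A, Bad y Co δ B ∧ ∃ s ∈ B, ¬ Bad y Co δ (B.erase s) := by
  induction A using Finset.strongInduction with
  | H A ih =>
    by_cases h : ∃ s ∈ A, Bad y Co δ (A.erase s)
    · obtain ⟨s, hs, hbs⟩ := h
      obtain ⟨B, hB, h1⟩ := ih (A.erase s) (Finset.erase_ssubset hs) hbs
      exact ⟨B, hB.trans (Finset.erase_subset s A), h1⟩
    · push Not at h
      have hne : A.Nonempty := by
        rw [Finset.nonempty_iff_ne_empty]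
        rintro rfl
        obtain ⟨Q, hQ0, hQ, hQy⟩ := hb
        have hC : Q = MvPolynomial.C (Q.coeff 0) := by
          refine MvPolynomial.ext _ _ fun m => ?_
          rw [MvPolynomial.coeff_C]
          split_ifs with hm
          · rw [hm]
          · by_contra hne
            refine hm ?_
            ext i
            by_contra hi
            exact absurd (hQ.1 m (MvPolynomial.mem_support_iff.2 hne) i (fun h => hi (by simp [h])))
              (Finset.notMem_empty i)
        rw [hC, MvPolynomial.aeval_C] at hQy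
        refine hQ0 ?_
        rw [hC, show MvPolynomial.coeff 0 Q = 0 from hQy, map_zero]
      obtain ⟨s, hs⟩ := hne
      exact ⟨A, subset_rfl, hb, s, hs, h s hs⟩

theorem fg_aux {K : Type*} [Field K] [Algebra K ℂ] {V : Submodule K ℂ} (hV : V.FG) (y : ι → ℂ) (s : Finset ι) :
    (V ⊔ Submodule.span K (y '' (s : Set ι))).FG :=
  hV.sup (Submodule.fg_span (s.finite_toSet.image y))

/-- **The greedy choice.** If every small set `S` is avoided by a bad set, then the Hilbert functions of the numbers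
`y i` are small. -/
theorem greedy {y : ι → ℂ} {Co : Set ℂ} (h0 : (0 : ℂ) ∈ Co) {δ : ℕ} (q r : ℕ) (adm : ι → Prop)
    (h : ∀ S : Finset ι, S.card < q → ∃ A : Finset ι, A.card ≤ r ∧ (∀ b ∈ A, adm b) ∧ Disjoint A S ∧ Bad y Co δ A) :
    ∃ S B : Finset ι, S.card = q ∧ S ⊆ B ∧ B.card ≤ q * r ∧ (∀ b ∈ B, adm b) ∧
      ∀ (K : IntermediateField ℚ ℂ) (V : Submodule K ℂ), V.FG → (1 : ℂ) ∈ V → (∀ c ∈ Co, c ∈ V ^ δ) →
      ∀ Θ : Finset ι, B ⊆ Θ → ∀ Δ : ℕ,
        finrank K ((V ⊔ Submodule.span K (y '' (Θ : Set ι))) ^ Δ : Submodule K ℂ)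
          ≤ δ ^ q * finrank K ((V ⊔ Submodule.span K (y '' ((Θ \ S : Finset ι) : Set ι))) ^ ((2 * δ + 1) ^ q * Δ) :
            Submodule K ℂ) := by
  suffices H : ∀ q' ≤ q, ∃ S B : Finset ι, S.card = q' ∧ S ⊆ B ∧ B.card ≤ q' * r ∧ (∀ b ∈ B, adm b) ∧
      ∀ (K : IntermediateField ℚ ℂ) (V : Submodule K ℂ), V.FG → (1 : ℂ) ∈ V → (∀ c ∈ Co, c ∈ V ^ δ) →
      ∀ Θ : Finset ι, B ⊆ Θ → ∀ Δ : ℕ,
        finrank K ((V ⊔ Submodule.span K (y '' (Θ : Set ι))) ^ Δ : Submodule K ℂ)
          ≤ δ ^ q' * finrank K ((V ⊔ Submodule.span K (y '' ((Θ \ S : Finset ι) : Set ι))) ^ ((2 * δ + 1) ^ q' * Δ) :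
            Submodule K ℂ) from H q le_rfl
  intro q'
  induction q' with
  | zero =>
    intro _
    refine ⟨∅, ∅, rfl, subset_rfl, by simp, by simp, ?_⟩
    intro K V _ _ _ Θ _ Δ
    rw [Finset.sdiff_empty, pow_zero, pow_zero, one_mul, one_mul]
  | succ q' ih =>
    intro hq
    obtain ⟨S, B, hS, hSB, hBr, hBa, hrk⟩ := ih (by omega)
    obtain ⟨A, hAr, hAa, hAS, hA⟩ := h S (by omega)
    obtain ⟨A', hA', hbad, s, hs, hmin⟩ := exists_min hA
    have hsS : s ∉ S := Finset.disjoint_left.1 hAS (hA' hs)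
    refine ⟨insert s S, A' ∪ B, ?_, ?_, ?_, ?_, ?_⟩
    · rw [Finset.card_insert_of_notMem hsS, hS]
    · exact Finset.insert_subset (Finset.mem_union_left _ hs) (hSB.trans Finset.subset_union_right)
    · have h1 := Finset.card_union_le A' B
      have h2 := Finset.card_le_card hA'
      nlinarith
    · intro b hb
      rcases Finset.mem_union.1 hb with hb | hb
      · exact hAa b (hA' hb)
      · exact hBa b hb
    · intro K V hV h1 hCo Θ hΘ Δ
      refine (hrk K V hV h1 hCo Θ (Finset.subset_union_right.trans hΘ) Δ).trans ?_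
      set Δ' := (2 * δ + 1) ^ q' * Δ with hΔ'
      set W : Submodule K ℂ := V ⊔ Submodule.span K (y '' ((Θ \ insert s S : Finset ι) : Set ι)) with hW
      have hWfg : W.FG := fg_aux hV y _
      have hVW : V ≤ W := le_sup_left
      have hsplit : V ⊔ Submodule.span K (y '' ((Θ \ S : Finset ι) : Set ι)) = W ⊔ Submodule.span K {y s} := by
        rw [hW, sup_assoc, ← Submodule.span_union]
        congr 2
        have hsT : s ∈ Θ \ S := Finset.mem_sdiff.2 ⟨hΘ (Finset.mem_union_left _ hs), hsS⟩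
        have e : Θ \ S = insert s (Θ \ insert s S) := by
          ext i
          simp only [Finset.mem_sdiff, Finset.mem_insert]
          constructor
          · rintro ⟨h3, h4⟩
            by_cases h5 : i = s
            · exact Or.inl h5
            · exact Or.inr ⟨h3, fun h6 => h6.elim h5 h4⟩
          · rintro (rfl | ⟨h3, h4⟩)
            · exact Finset.mem_sdiff.1 hsT
            · exact ⟨h3, fun h5 => h4 (Or.inr h5)⟩
        rw [e, Finset.coe_insert, Set.image_insert_eq, Set.insert_eq, Set.union_comm]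
      obtain ⟨a, c, ha1, haδ, hc, hca, hsum⟩ := step_eq (y := y) hbad hmin h0 (V := W) (hVW h1)
        (fun c hc => pow_le_pow_left' hVW δ (hCo c hc)) (by
          intro i hi
          refine Submodule.mem_sup_right (Submodule.subset_span ⟨i, ?_, rfl⟩)
          rw [Finset.mem_erase] at hi
          rw [Finset.mem_coe, Finset.mem_sdiff, Finset.mem_insert]
          refine ⟨hΘ (Finset.mem_union_left _ hi.2), ?_⟩
          rintro (h3 | h3)
          · exact hi.1 h3
          · exact Finset.disjoint_left.1 hAS (hA' hi.2) h3)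
      have hst := alg_step hWfg (hVW h1) (y s) a ha1 c (2 * δ) hc hca hsum Δ'
      rw [hsplit]
      calc δ ^ q' * finrank K ((W ⊔ Submodule.span K {y s}) ^ Δ' : Submodule K ℂ)
          ≤ δ ^ q' * (δ * finrank K (W ^ ((2 * δ + 1) * Δ') : Submodule K ℂ)) :=
            Nat.mul_le_mul_left _ (hst.trans (Nat.mul_le_mul_right _ haδ))
        _ = δ ^ (q' + 1) * finrank K (W ^ ((2 * δ + 1) ^ (q' + 1) * Δ) : Submodule K ℂ) := by
            rw [hΔ', ← mul_assoc, ← pow_succ, ← mul_assoc (2 * δ + 1), ← pow_succ']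

end Pool.Agent.Y916.Gre
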