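import Pool.Agent.Y916.HT
import Pool.Agent.Y419.HY.Alg
import Pool.Agent.Y419.HY.Eint
import Pool.Agent.Y678.HV.Val
import Pool.Agent.Y678.HV.Col
import Pool.Agent.Y255.HL.Main
import Pool.Agent.Y574.HE.D

/-!
# Hyperelliptic integrals at tuples of integers: unconditional statements
-/

set_option autoImplicit false

open Module

namespace Pool.Agent.Y916.Hy

open Pool.Agent.Y113 Pool.Agent.Y916.AW

theorem hvalT : S_hval :=
  Pool.Agent.Y678.HV.hval_of Pool.Agent.Y419.HY.t_rt Pool.Agent.Y419.HY.t_alg Pool.Agent.Y419.HY.t_eint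
    Pool.Agent.Y678.HV.t_col (Pool.Agent.Y255.HL.t_hli Pool.Agent.Y419.HY.t_rt)

theorem hhevT : S_hev := Pool.Agent.Y574.HE.t_hev Pool.Agent.Y419.HY.t_rt Pool.Agent.Y419.HY.t_alg

end Pool.Agent.Y916.Hy
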