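import Pool.Agent.Y916.HFin

/-!
# Hyperelliptic integrals at tuples of integers: rational polynomials, values modulo a space
-/

set_option autoImplicit false

open Module

namespace Pool.Agent.Y916.Hy

open Pool.Agent.Y113 Pool.Agent.Y916.AW

/-- the integrals for a rational polynomial -/
noncomputable def JQ (F : Polynomial ℚ) (c : ℝ) (j : ℕ) (x : ℝ) : ℝ :=
  ∫ s in c..x, s ^ j / √((F.map (algebraMap ℚ ℝ)).eval s)

/-- clearing denominators -/
theorem clear (F : Polynomial ℚ) (hsf : Squarefree F) (hodd : Odd F.natDegree) (h3 : 3 ≤ F.natDegree)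
    (hpos : 0 < F.leadingCoeff) : ∃ (N : ℕ) (G : Polynomial ℤ), 0 < N ∧ Good G ∧ G.natDegree = F.natDegree ∧
      ∀ x : ℝ, (G.map (Int.castRingHom ℝ)).eval x = (N : ℝ) ^ 2 * (F.map (algebraMap ℚ ℝ)).eval x := by
  obtain ⟨b, hb⟩ := IsLocalization.exist_integer_multiples_of_finset (nonZeroDivisors ℤ) F.coeffs
  have hb0 : (b : ℤ) ≠ 0 := nonZeroDivisors.ne_zero b.2
  set N : ℕ := (b : ℤ).natAbs with hN
  have hNpos : 0 < N := Int.natAbs_pos.2 hb0
  have hN2 : ((N : ℕ) : ℤ) ^ 2 = (b : ℤ) ^ 2 := by rw [hN, Int.natAbs_sq]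
  have hint : ∀ n, ∃ z : ℤ, (z : ℚ) = (N : ℚ) ^ 2 * F.coeff n := by
    intro n
    by_cases hn : F.coeff n = 0
    · exact ⟨0, by rw [hn]; simp⟩
    · obtain ⟨z, hz⟩ := hb (F.coeff n) (Polynomial.coeff_mem_coeffs (Polynomial.mem_support_iff.1
        (Polynomial.mem_support_iff.2 hn)))
      refine ⟨(b : ℤ) * z, ?_⟩
      have h1 : ((z : ℤ) : ℚ) = (b : ℤ) * F.coeff n := by
        rw [← zsmul_eq_mul]
        simpa using hz
      have h2 : (N : ℚ) ^ 2 = ((b : ℤ) : ℚ) ^ 2 := by exact_mod_cast hN2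
      rw [Int.cast_mul, h1, h2]
      ring
  choose z hz using hint
  set G : Polynomial ℤ := ∑ n ∈ Finset.range (F.natDegree + 1), Polynomial.monomial n (z n) with hG
  have hGF : G.map (Int.castRingHom ℚ) = Polynomial.C ((N : ℚ) ^ 2) * F := by
    rw [hG, Polynomial.map_sum]
    conv_rhs => rw [F.as_sum_range]
    rw [Finset.mul_sum]
    refine Finset.sum_congr rfl fun n _ => ?_
    rw [Polynomial.map_monomial, Polynomial.C_mul_monomial, eq_intCast, hz]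
  have hinj : Function.Injective (Int.castRingHom ℚ) := Int.cast_injective
  have hNq : (N : ℚ) ^ 2 ≠ 0 := pow_ne_zero _ (by exact_mod_cast hNpos.ne')
  have hdeg : G.natDegree = F.natDegree := by
    rw [← Polynomial.natDegree_map_eq_of_injective hinj G, hGF, Polynomial.natDegree_C_mul hNq]
  have hlead : ((G.leadingCoeff : ℤ) : ℚ) = (N : ℚ) ^ 2 * F.leadingCoeff := by
    have h1 := Polynomial.leadingCoeff_map_of_injective hinj G
    rw [hGF, Polynomial.leadingCoeff_mul, Polynomial.leadingCoeff_C] at h1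
    exact h1.symm
  refine ⟨N, G, hNpos, ⟨?_, ?_, ?_, ?_⟩, hdeg, ?_⟩
  · rw [hGF]
    have hu : IsUnit (Polynomial.C ((N : ℚ) ^ 2)) := Polynomial.isUnit_C.2 (isUnit_iff_ne_zero.2 hNq)
    exact (associated_unit_mul_left F _ hu).symm.squarefree_iff.1 hsf
  · rw [hdeg]; exact hodd
  · rw [hdeg]; exact h3
  · have h1 : (0 : ℚ) < (G.leadingCoeff : ℤ) := by
      rw [hlead]
      have : (0 : ℚ) < (N : ℚ) ^ 2 := by positivity
      exact mul_pos this hpos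
    exact_mod_cast h1
  · intro x
    have h1 : G.map (Int.castRingHom ℝ) = (G.map (Int.castRingHom ℚ)).map (algebraMap ℚ ℝ) := by
      rw [Polynomial.map_map]
      congr 1
    rw [h1, hGF, Polynomial.map_mul, Polynomial.map_C, Polynomial.eval_mul, Polynomial.eval_C]
    simp

theorem JQ_eq {F : Polynomial ℚ} {N : ℕ} {G : Polynomial ℤ} (hN : 0 < N)
    (h : ∀ x : ℝ, (G.map (Int.castRingHom ℝ)).eval x = (N : ℝ) ^ 2 * (F.map (algebraMap ℚ ℝ)).eval x) (c : ℝ) (j : ℕ)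
    (x : ℝ) : JQ F c j x = (N : ℝ) * J G c j x := by
  have hN' : (0 : ℝ) < N := by exact_mod_cast hN
  unfold J JQ
  rw [← intervalIntegral.integral_const_mul]
  refine intervalIntegral.integral_congr fun v _ => ?_
  change v ^ j / √((F.map (algebraMap ℚ ℝ)).eval v) = (N : ℝ) * (v ^ j / √((G.map (Int.castRingHom ℝ)).eval v))
  rw [h, Real.sqrt_mul (by positivity), Real.sqrt_sq hN'.le]
  field_simp

/-- the leading coefficient of a polynomial which is positive near infinity -/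
theorem lead_pos (F : Polynomial ℚ) (h3 : 3 ≤ F.natDegree) (c : ℝ)
    (hc : ∀ x ≥ c, 0 < (F.map (algebraMap ℚ ℝ)).eval x) : 0 < F.leadingCoeff := by
  have hinj : Function.Injective (algebraMap ℚ ℝ) := (algebraMap ℚ ℝ).injective
  have hF0 : F.leadingCoeff ≠ 0 := by
    rw [Polynomial.leadingCoeff_ne_zero]
    rintro rfl
    simp at h3
  by_contra hcon
  have hlt : F.leadingCoeff < 0 := lt_of_le_of_ne (not_lt.1 hcon) hF0
  have h1 : ((F.map (algebraMap ℚ ℝ)).leadingCoeff) ≤ 0 := by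
    rw [Polynomial.leadingCoeff_map_of_injective hinj]
    have : ((F.leadingCoeff : ℚ) : ℝ) < 0 := by exact_mod_cast hlt
    exact this.le
  have h2 : 0 < (F.map (algebraMap ℚ ℝ)).degree := by
    rw [← Polynomial.natDegree_pos_iff_degree_pos, Polynomial.natDegree_map_eq_of_injective hinj]
    omega
  have h3 := Polynomial.tendsto_atBot_of_leadingCoeff_nonpos _ h2 h1
  obtain ⟨x, hx1, hx2⟩ := ((h3.eventually_lt_atBot 0).and (Filter.eventually_ge_atTop c)).exists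
  exact absurd (hc x hx2) (not_lt.2 hx1.le)

/-- the numbers at an integer -/
noncomputable def xq (F : Polynomial ℚ) (c : ℝ) (n : ℕ) : Fin (F.natDegree - 1) ⊕ Unit → ℂ
  | Sum.inl j => ((JQ F c j n : ℝ) : ℂ)
  | Sum.inr _ => ((Real.log n : ℝ) : ℂ)

/-- tuples -/
theorem tuplesQ (F : Polynomial ℚ) (hsf : Squarefree F) (hodd : Odd F.natDegree) (h3 : 3 ≤ F.natDegree) (c : ℝ) (hc : ∀ x ≥ c, 0 < (F.map (algebraMap ℚ ℝ)).eval x) {r : ℕ} (θ : Fin r → ℕ)
    (hθ : Function.Injective θ) (k δ d D : ℕ) :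
    ∃ c₀ : ℝ, 0 < c₀ ∧ ∃ C : ℝ, 0 ≤ C ∧ ∀ V : Submodule ℚ ℂ, Module.Finite ℚ V → finrank ℚ V ≤ D → ∀ T : ℕ, 1 ≤ T →
      {n : Fin k → ℕ | (∀ i, 2 ≤ n i ∧ c ≤ n i ∧ n i ≤ T) ∧ ∃ y : (Fin k × Fin r) × (Fin (F.natDegree - 1) ⊕ Unit) → ℂ,
        (∀ q, ∃ ε : ℚ, ε ≠ 0 ∧ y q - ε * xq F c (n q.1.1 + θ q.1.2) q.2 ∈ V) ∧ RelL δ d V y}.Finite ∧
      ({n : Fin k → ℕ | (∀ i, 2 ≤ n i ∧ c ≤ n i ∧ n i ≤ T) ∧ ∃ y : (Fin k × Fin r) × (Fin (F.natDegree - 1) ⊕ Unit) → ℂ,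
        (∀ q, ∃ ε : ℚ, ε ≠ 0 ∧ y q - ε * xq F c (n q.1.1 + θ q.1.2) q.2 ∈ V) ∧ RelL δ d V y}.ncard : ℝ)
        ≤ C * (T : ℝ) ^ ((k : ℝ) - c₀) := by
  classical
  obtain ⟨N, G, hN, hG, hGd, hGe⟩ := clear F hsf hodd h3 (lead_pos F h3 c hc)
  have hcG : ∀ x ≥ c, 0 < (G.map (Int.castRingHom ℝ)).eval x := by
    intro x hx
    rw [hGe]
    have : (0 : ℝ) < N := by exact_mod_cast hN
    exact mul_pos (by positivity) (hc x hx)
  obtain ⟨E, hlink⟩ := link hhevT hG hcG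
  set m := d ^ d * (δ + 1) with hm
  obtain ⟨c₀, hc₀, C, hC, hcount⟩ := at_count (vl G) (inp hvalT hG) (xx G c) 4 _ E hlink θ hθ m k
    ((D + 1) ^ m * (D + 1) ^ m)
  refine ⟨c₀, hc₀, C, hC, fun V hV hVD T hT => ?_⟩
  obtain ⟨hb1, hb2⟩ := NF.big (V := V) hVD m
  obtain ⟨hv1, hv2⟩ := finrank_mul_le ((V ⊔ 1) ^ m) ((V ⊔ 1) ^ m)
  have h1 := hcount ((V ⊔ 1) ^ m * (V ⊔ 1) ^ m) hv1 (hv2.trans (Nat.mul_le_mul hb2 hb2)) T hT
  set B := (Fintype.piFinset fun _ : Fin k => Finset.Icc 2 T).filter fun n =>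
    Rel m ((V ⊔ 1) ^ m * (V ⊔ 1) ^ m) (tup (fun (n : ℕ) (p : Fin r × (Fin (G.natDegree - 1) ⊕ Unit)) =>
      xx G c (n + θ p.1) p.2) n) with hB
  have hsub : {n : Fin k → ℕ | (∀ i, 2 ≤ n i ∧ c ≤ n i ∧ n i ≤ T) ∧
      ∃ y : (Fin k × Fin r) × (Fin (F.natDegree - 1) ⊕ Unit) → ℂ,
        (∀ q, ∃ ε : ℚ, ε ≠ 0 ∧ y q - ε * xq F c (n q.1.1 + θ q.1.2) q.2 ∈ V) ∧ RelL δ d V y} ⊆
      (B : Set (Fin k → ℕ)) := by
    rintro n ⟨hn, y, hy, hrel⟩
    rw [hB, Finset.mem_coe, Finset.mem_filter, Fintype.mem_piFinset]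
    refine ⟨fun i => Finset.mem_Icc.2 ⟨(hn i).1, (hn i).2.2⟩, ?_⟩
    choose ε hε0 hε using hy
    have hNq : ((N : ℕ) : ℚ) ≠ 0 := by exact_mod_cast hN.ne'
    -- the comparison
    set f : Fin (F.natDegree - 1) ⊕ Unit → Fin (G.natDegree - 1) ⊕ Unit :=
      Sum.map (finCongr (by rw [hGd])) id with hf
    have hx : ∀ (t : ℕ) (s : Fin (F.natDegree - 1) ⊕ Unit), ∃ ν : ℚ, ν ≠ 0 ∧ xq F c t s = ν * xx G c t (f s) := by
      rintro t (j | u)
      · refine ⟨N, hNq, ?_⟩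
        change ((JQ F c j t : ℝ) : ℂ) = ((N : ℚ) : ℂ) * ((J G c j t : ℝ) : ℂ)
        rw [JQ_eq hN hGe]
        push_cast
        rfl
      · exact ⟨1, one_ne_zero, by simp [xq, xx, hf]⟩
    choose ν hν0 hν using hx
    have h2 := rel_lin (W := V ⊔ 1) (Submodule.mem_sup_right (Submodule.one_le.1 le_rfl))
      (x := fun q : (Fin k × Fin r) × (Fin (F.natDegree - 1) ⊕ Unit) => xx G c (n q.1.1 + θ q.1.2) (f q.2))
      (l := y) (fun q => ε q * ν (n q.1.1 + θ q.1.2) q.2) (fun q => mul_ne_zero (hε0 q) (hν0 _ _)) (fun q => by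
        have h3 := hε q
        rw [hν] at h3
        push_cast
        rw [mul_assoc]
        exact Submodule.mem_sup_left h3) hrel.rel
    -- reindexing
    let fe : Fin (F.natDegree - 1) ⊕ Unit ≃ Fin (G.natDegree - 1) ⊕ Unit :=
      (finCongr (by rw [hGd])).sumCongr (Equiv.refl _)
    let e : Fin k × (Fin r × (Fin (G.natDegree - 1) ⊕ Unit)) ≃ (Fin k × Fin r) × (Fin (F.natDegree - 1) ⊕ Unit) :=
      (Equiv.prodAssoc _ _ _).symm.trans ((Equiv.refl _).prodCongr fe.symm)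
    have h4 := h2.reindex e
    have h5 : (fun j => (fun q : (Fin k × Fin r) × (Fin (F.natDegree - 1) ⊕ Unit) =>
        xx G c (n q.1.1 + θ q.1.2) (f q.2)) (e j)) =
        tup (fun (n : ℕ) (p : Fin r × (Fin (G.natDegree - 1) ⊕ Unit)) => xx G c (n + θ p.1) p.2) n := by
      funext z
      obtain ⟨i, j, s⟩ := z
      change xx G c (n i + θ j) (f (fe.symm s)) = xx G c (n i + θ j) s
      have h6 : f (fe.symm s) = fe (fe.symm s) := by
        rcases h7 : fe.symm s with a | a <;> rfl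
      rw [h6, Equiv.apply_symm_apply]
    rw [h5] at h4
    exact h4
  refine ⟨(Finset.finite_toSet B).subset hsub, le_trans ?_ h1⟩
  have h2 := Set.ncard_le_ncard hsub (Finset.finite_toSet B)
  rw [Set.ncard_coe_finset] at h2
  exact_mod_cast h2

end Pool.Agent.Y916.Hy
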