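import Pool.Agent.Y916.HW
import Pool.Agent.Y916.NF

/-!
# Hyperelliptic integrals at tuples of integers
-/

set_option autoImplicit false

open Module

namespace Pool.Agent.Y916.Hy

open Pool.Agent.Y113 Pool.Agent.Y916.AW

/-- a relation over a number field -/
def RelL {ι : Type} (δ d : ℕ) (V : Submodule ℚ ℂ) (x : ι → ℂ) : Prop :=
  ∃ L : IntermediateField ℚ ℂ, FiniteDimensional ℚ L ∧ finrank ℚ L ≤ d ∧ ∃ P : MvPolynomial ι ℂ, P ≠ 0 ∧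
    P.totalDegree ≤ δ ∧ (∀ s, P.coeff s ∈ Submodule.span L (V : Set ℂ)) ∧ MvPolynomial.aeval x P = 0

theorem RelL.rel {ι : Type} [Fintype ι] {δ d : ℕ} {V : Submodule ℚ ℂ} [Module.Finite ℚ V] {x : ι → ℂ}
    (h : RelL δ d V x) : Rel (d ^ d * (δ + 1)) ((V ⊔ 1) ^ (d ^ d * (δ + 1))) x := by
  obtain ⟨L, hLf, hLd, P, hP0, hPd, hPc, hPv⟩ := h
  exact NF.rel_nf L hLd P hP0 hPd hPc hPv

theorem tuples (hval : S_hval) (hhev : S_hev) {F : Polynomial ℤ} (hF : Good F) {c : ℝ}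
    (hc : ∀ x ≥ c, 0 < (F.map (Int.castRingHom ℝ)).eval x) {r : ℕ} (θ : Fin r → ℕ) (hθ : Function.Injective θ)
    (k δ d D : ℕ) :
    ∃ c₀ : ℝ, 0 < c₀ ∧ ∃ C : ℝ, 0 ≤ C ∧ ∀ V : Submodule ℚ ℂ, Module.Finite ℚ V → finrank ℚ V ≤ D → ∀ T : ℕ, 1 ≤ T →
      {n : Fin k → ℕ | (∀ i, 2 ≤ n i ∧ n i ≤ T) ∧ RelL δ d V fun p : Fin k × (Fin r × (Fin (F.natDegree - 1) ⊕ Unit)) =>
        xx F c (n p.1 + θ p.2.1) p.2.2}.Finite ∧
      ({n : Fin k → ℕ | (∀ i, 2 ≤ n i ∧ n i ≤ T) ∧ RelL δ d V fun p : Fin k × (Fin r × (Fin (F.natDegree - 1) ⊕ Unit)) =>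
        xx F c (n p.1 + θ p.2.1) p.2.2}.ncard : ℝ) ≤ C * (T : ℝ) ^ ((k : ℝ) - c₀) := by
  classical
  obtain ⟨E, hlink⟩ := link hhev hF hc
  set m := d ^ d * (δ + 1) with hm
  obtain ⟨c₀, hc₀, C, hC, hcount⟩ := at_count (vl F) (inp hval hF) (xx F c) 4 _ E hlink θ hθ m k ((D + 1) ^ m)
  refine ⟨c₀, hc₀, C, hC, fun V hV hVD T hT => ?_⟩
  obtain ⟨hb1, hb2⟩ := NF.big (V := V) hVD m
  have h1 := hcount ((V ⊔ 1) ^ m) hb1 hb2 T hT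
  set B := (Fintype.piFinset fun _ : Fin k => Finset.Icc 2 T).filter fun n =>
    Rel m ((V ⊔ 1) ^ m) (tup (fun (n : ℕ) (p : Fin r × (Fin (F.natDegree - 1) ⊕ Unit)) => xx F c (n + θ p.1) p.2) n) with hB
  have hsub : {n : Fin k → ℕ | (∀ i, 2 ≤ n i ∧ n i ≤ T) ∧ RelL δ d V fun p : Fin k × (Fin r ×
      (Fin (F.natDegree - 1) ⊕ Unit)) => xx F c (n p.1 + θ p.2.1) p.2.2} ⊆ (B : Set (Fin k → ℕ)) := by
    rintro n ⟨hn, hrel⟩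
    rw [hB, Finset.mem_coe, Finset.mem_filter, Fintype.mem_piFinset]
    exact ⟨fun i => Finset.mem_Icc.2 (hn i), hrel.rel⟩
  refine ⟨(Finset.finite_toSet B).subset hsub, le_trans ?_ h1⟩
  have h2 := Set.ncard_le_ncard hsub (Finset.finite_toSet B)
  rw [Set.ncard_coe_finset] at h2
  exact_mod_cast h2

end Pool.Agent.Y916.Hy
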