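import Pool.Agent.Y916.AT
import Pool.Agent.Y916.HStm
import Pool.Agent.Y916.Fld

/-!
# Hyperelliptic integrals at integers: the link with the values of the power series
-/

set_option autoImplicit false

open Module PowerSeries

namespace Pool.Agent.Y916.Hy

open Pool.Agent.Y113 Pool.Agent.Y916.AW Pool.Agent.Y916.Fld

/-- the values -/
noncomputable def vl (F : Polynomial ℤ) (t g : ℕ) (s : Fin (F.natDegree - 1) ⊕ Unit) : ℂ :=
  ((ev (t : ℝ) (Yf F g s) : ℝ) : ℂ)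

theorem inp (hval : S_hval) {F : Polynomial ℤ} (hF : Good F) : Inp (vl F) := by
  intro N Δ
  obtain ⟨E, hE⟩ := hval F hF N Δ
  refine ⟨E, fun H t ht g hg hgb P hP hP0 => ?_⟩
  refine hE H t ht g hg hgb P hP ?_
  have h5 := MvPolynomial.aeval_algebraMap_apply (A := ℝ) ℂ
    (fun x : Fin N × (Fin (F.natDegree - 1) ⊕ Unit) => ev (t : ℝ) (Yf F (g x.1) x.2)) P
  have h6 : MvPolynomial.aeval (algebraMap ℝ ℂ ∘ fun x : Fin N × (Fin (F.natDegree - 1) ⊕ Unit) =>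
      ev (t : ℝ) (Yf F (g x.1) x.2)) P = (0 : ℂ) := hP0
  rw [h6] at h5
  exact (algebraMap ℝ ℂ).injective (h5.symm.trans (map_zero _).symm)

/-- the values of the logarithm -/
theorem ev_log {F : Polynomial ℤ} {t g : ℕ} (h : g < t) (u : Unit) :
    ev (t : ℝ) (Yf F g (Sum.inr u)) = Real.log (t + g) - Real.log t := by
  have ht : (0 : ℝ) < t := by
    have : 0 < t := by omega
    exact_mod_cast this
  have hgt : (g : ℝ) < t := by exact_mod_cast h
  have hg0 : (0 : ℝ) ≤ g := Nat.cast_nonneg g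
  have h1 : |(-(g : ℝ) / t)| < 1 := by
    rw [abs_div, abs_neg, abs_of_nonneg hg0, abs_of_pos ht, div_lt_one ht]
    exact hgt
  have h4 : HasSum (fun m : ℕ => -(((-(g : ℝ) / t) ^ (m + 1)) / (m + 1))) (Real.log (1 - -(g : ℝ) / t)) := by
    have := (Real.hasSum_pow_div_log_of_abs_lt_one h1).neg
    rwa [neg_neg] at this
  have hc : ∀ m : ℕ, ((coeff m (Yf F g (Sum.inr u)) : ℚ) : ℝ) * (1 / (t : ℝ)) ^ m = -((-(g : ℝ) / t) ^ m / m) := by
    intro m
    simp only [Yf, coeff_mk]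
    push_cast
    rw [div_pow, div_pow, one_pow]
    ring
  have h3 : HasSum (fun m : ℕ => ((coeff m (Yf F g (Sum.inr u)) : ℚ) : ℝ) * (1 / (t : ℝ)) ^ m)
      (Real.log (1 - -(g : ℝ) / t)) := by
    rw [← hasSum_nat_add_iff' 1]
    simp only [Finset.range_one, Finset.sum_singleton]
    rw [hc 0]
    simp only [hc]
    simpa using h4
  unfold ev
  rw [h3.tsum_eq]
  have h6 : 1 - -(g : ℝ) / t = (t + g) / t := by
    field_simp
    ring
  rw [h6, Real.log_div (by positivity) ht.ne']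

/-- the numbers -/
noncomputable def xx (F : Polynomial ℤ) (c : ℝ) (n : ℕ) : Fin (F.natDegree - 1) ⊕ Unit → ℂ
  | Sum.inl j => ((J F c j n : ℝ) : ℂ)
  | Sum.inr _ => ((Real.log n : ℝ) : ℂ)

/-- square roots of natural numbers -/
theorem sqrt_deg (a : ℝ) (b : ℤ) (ha : 0 ≤ a) (hab : a = b) :
    IsIntegral ℚ ((√a : ℝ) : ℂ) ∧ (minpoly ℚ ((√a : ℝ) : ℂ)).natDegree ≤ 2 := by
  have h1 : ((√a : ℝ) : ℂ) ^ 2 = ((b : ℤ) : ℂ) := by
    rw [← Complex.ofReal_pow, Real.sq_sqrt ha, hab]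
    simp
  have hm : (Polynomial.X ^ 2 - Polynomial.C ((b : ℤ) : ℚ)).Monic :=
    Polynomial.monic_X_pow_sub_C _ (by norm_num)
  have hz : Polynomial.aeval ((√a : ℝ) : ℂ) (Polynomial.X ^ 2 - Polynomial.C ((b : ℤ) : ℚ)) = 0 := by
    simp [h1]
  refine ⟨⟨_, hm, hz⟩, ?_⟩
  refine (Polynomial.natDegree_le_of_dvd (minpoly.dvd ℚ _ hz) hm.ne_zero).trans ?_
  rw [Polynomial.natDegree_X_pow_sub_C]

theorem link (hhev : S_hev) {F : Polynomial ℤ} (hF : Good F) {c : ℝ}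
    (hc : ∀ x ≥ c, 0 < (F.map (Int.castRingHom ℝ)).eval x) :
    ∃ E, Link (vl F) (xx F c) 4 (F.natDegree - 1 + 1) E := by
  classical
  obtain ⟨κ, E, hE⟩ := hhev F hF c hc
  refine ⟨E + 1, fun t => ?_⟩
  obtain ⟨K, -, hK1, hK2, hK3⟩ := field ⊥ inferInstance 2 ({((√(t : ℝ) : ℝ) : ℂ), ((√(F.leadingCoeff : ℝ) : ℝ) : ℂ)})
    (by
      intro z hz
      rw [Finset.mem_insert, Finset.mem_singleton] at hz
      have h0 : (0 : ℝ) ≤ F.leadingCoeff := by exact_mod_cast hF.pos.le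
      rcases hz with rfl | rfl
      · exact sqrt_deg _ (t : ℤ) (Nat.cast_nonneg _) (by simp)
      · exact sqrt_deg _ F.leadingCoeff h0 rfl)
  have hst : ((√(t : ℝ) : ℝ) : ℂ) ∈ K := hK1 (IntermediateField.subset_adjoin ℚ _ (by simp))
  have hsa : ((√(F.leadingCoeff : ℝ) : ℝ) : ℂ) ∈ K := hK1 (IntermediateField.subset_adjoin ℚ _ (by simp))
  refine ⟨K, hK2, ?_, Fin.snoc (fun j => ((κ j : ℝ) : ℂ)) ((Real.log t : ℝ) : ℂ), ?_⟩
  · refine hK3.trans ?_
    rw [IntermediateField.finrank_bot, one_mul]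
    have h1 := Finset.card_le_two (a := ((√(t : ℝ) : ℝ) : ℂ)) (b := ((√(F.leadingCoeff : ℝ) : ℝ) : ℂ))
    calc 2 ^ _ ≤ 2 ^ 2 := Nat.pow_le_pow_right (by norm_num) h1
      _ = 4 := by norm_num
  intro g hg hgt s
  have hgE : (g + 2) ^ E ≤ t := (Nat.pow_le_pow_right (by omega) (by omega)).trans hgt
  have hgt' : g < t := by
    have h1 : g + 2 ≤ (g + 2) ^ (E + 1) := Nat.le_self_pow (by omega) _
    omega
  have ht0 : (0 : ℝ) < t := by
    have : 0 < t := by omega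
    exact_mod_cast this
  have ha0 : (0 : ℝ) < F.leadingCoeff := by exact_mod_cast hF.pos
  rcases s with j | u
  · have hst0 : ((√(t : ℝ) : ℝ) : ℂ) ≠ 0 := by
      rw [Complex.ofReal_ne_zero]
      exact (Real.sqrt_pos.2 ht0).ne'
    have hsa0 : ((√(F.leadingCoeff : ℝ) : ℝ) : ℂ) ≠ 0 := by
      rw [Complex.ofReal_ne_zero]
      exact (Real.sqrt_pos.2 ha0).ne'
    set e : ℤ := 2 * ((j : ℕ) : ℤ) + 2 - F.natDegree with he
    refine ⟨-((⟨_, hst⟩ : K) ^ e / ⟨_, hsa⟩), ?_, ?_⟩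
    · rw [neg_ne_zero]
      refine div_ne_zero (zpow_ne_zero _ ?_) ?_
      · intro h
        exact hst0 (congrArg (fun x : K => (x : ℂ)) h)
      · intro h
        exact hsa0 (congrArg (fun x : K => (x : ℂ)) h)
    · have h1 := hE g t hgE g le_rfl j
      have h2 : xx F c (t + g) (Sum.inl j) = ((J F c j ((t : ℝ) + g) : ℝ) : ℂ) := by
        simp only [xx]
        push_cast
        rfl
      have h3 : ((-((⟨_, hst⟩ : K) ^ e / ⟨_, hsa⟩) : K) : ℂ) = -(((√(t : ℝ) : ℝ) : ℂ) ^ e /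
          ((√(F.leadingCoeff : ℝ) : ℝ) : ℂ)) := by
        push_cast
        rfl
      have h4 : xx F c (t + g) (Sum.inl j) - ((-((⟨_, hst⟩ : K) ^ e / ⟨_, hsa⟩) : K) : ℂ) * vl F t g (Sum.inl j)
          = ((κ j : ℝ) : ℂ) := by
        rw [h2, h1, h3]
        unfold vl
        push_cast
        ring
      rw [h4]
      refine Submodule.subset_span (Set.mem_insert_of_mem _ ⟨Fin.castSucc j, ?_⟩)
      rw [Fin.snoc_castSucc]
  · refine ⟨1, one_ne_zero, ?_⟩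
    have h4 : xx F c (t + g) (Sum.inr u) - ((1 : K) : ℂ) * vl F t g (Sum.inr u) = ((Real.log t : ℝ) : ℂ) := by
      unfold vl
      rw [ev_log hgt' u]
      simp only [xx]
      push_cast
      ring
    rw [h4]
    refine Submodule.subset_span (Set.mem_insert_of_mem _ ⟨Fin.last _, ?_⟩)
    rw [Fin.snoc_last]

end Pool.Agent.Y916.Hy
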