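import Mathlib

/-!
# Hilbert functions: dimensions of the powers of a finite dimensional space `W` of numbers which contains `1`
-/

set_option autoImplicit false

open Module

namespace Pool.Agent.Y916.Hil

variable {K A : Type*} [Field K] [CommRing A] [IsDomain A] [Algebra K A]

/-- `(v_i) ↦ ∑ x^i v_i` -/
noncomputable def plMap (x : A) (a : ℕ) (N : Submodule K A) : (Fin a → N) →ₗ[K] A :=
  ∑ i : Fin a, (LinearMap.mulLeft K (x ^ (i : ℕ))).comp (N.subtype.comp (LinearMap.proj i))

/-- sums `∑ i < a, x^i v_i` with `v_i ∈ N` -/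
noncomputable def Pl (x : A) (a : ℕ) (N : Submodule K A) : Submodule K A := LinearMap.range (plMap x a N)

theorem plMap_apply (x : A) (a : ℕ) (N : Submodule K A) (f : Fin a → N) :
    plMap x a N f = ∑ i : Fin a, x ^ (i : ℕ) * (f i : A) := by
  simp [plMap]

theorem mem_Pl {x : A} {a : ℕ} {N : Submodule K A} {v : A} :
    v ∈ Pl x a N ↔ ∃ f : Fin a → A, (∀ i, f i ∈ N) ∧ v = ∑ i : Fin a, x ^ (i : ℕ) * f i := by
  constructor
  · rintro ⟨f, hf⟩
    exact ⟨fun i => f i, fun i => (f i).2, by rw [← hf, plMap_apply]⟩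
  · rintro ⟨f, hf, rfl⟩
    exact ⟨fun i => ⟨f i, hf i⟩, by rw [plMap_apply]⟩

theorem pow_mul_mem_Pl {x : A} {a : ℕ} {N : Submodule K A} {v : A} (hv : v ∈ N) {i : ℕ} (hi : i < a) :
    x ^ i * v ∈ Pl x a N := by
  classical
  refine mem_Pl.2 ⟨fun j => if (j : ℕ) = i then v else 0, fun j => ?_, ?_⟩
  · dsimp only
    split_ifs
    · exact hv
    · exact N.zero_mem
  · rw [Finset.sum_eq_single (⟨i, hi⟩ : Fin a)]
    · simp
    · intro j _ hj
      have : (j : ℕ) ≠ i := fun h => hj (Fin.ext h)
      simp [this]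
    · intro h
      exact absurd (Finset.mem_univ _) h

theorem Pl_mono {x : A} {a : ℕ} {N N' : Submodule K A} (h : N ≤ N') : Pl x a N ≤ Pl x a N' := by
  intro v hv
  obtain ⟨f, hf, rfl⟩ := mem_Pl.1 hv
  exact mem_Pl.2 ⟨f, fun i => h (hf i), rfl⟩

theorem mul_Pl {x : A} {a : ℕ} {N N' : Submodule K A} {u v : A} (hu : ∀ w ∈ N, u * w ∈ N') (hv : v ∈ Pl x a N) :
    u * v ∈ Pl x a N' := by
  obtain ⟨f, hf, rfl⟩ := mem_Pl.1 hv
  refine mem_Pl.2 ⟨fun i => u * f i, fun i => hu _ (hf i), ?_⟩
  rw [Finset.mul_sum]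
  exact Finset.sum_congr rfl fun i _ => by ring

theorem finrank_Pl (x : A) (a : ℕ) (N : Submodule K A) [FiniteDimensional K N] :
    finrank K (Pl x a N) ≤ a * finrank K N := by
  refine (LinearMap.finrank_range_le (plMap x a N)).trans ?_
  rw [Module.finrank_pi_fintype]
  simp

theorem pow_le_pow {W : Submodule K A} (h1 : (1 : A) ∈ W) {m n : ℕ} (h : m ≤ n) : W ^ m ≤ W ^ n :=
  pow_le_pow_right' (by rwa [Submodule.one_le]) h

theorem fin_pow {W : Submodule K A} (hW : W.FG) (n : ℕ) : FiniteDimensional K (W ^ n : Submodule K A) :=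
  Module.Finite.iff_fg.2 (hW.pow n)

/-- one algebraic step -/
theorem alg_step {W : Submodule K A} (hW : W.FG) (h1 : (1 : A) ∈ W) (x : A) (a : ℕ) (ha : 1 ≤ a) (c : ℕ → A) (δ : ℕ)
    (hc : ∀ i ≤ a, c i ∈ W ^ δ) (hca : c a ≠ 0) (hx : ∑ i ∈ Finset.range (a + 1), c i * x ^ i = 0) (Δ : ℕ) :
    finrank K ((W ⊔ Submodule.span K {x}) ^ Δ : Submodule K A) ≤ a * finrank K (W ^ ((δ + 1) * Δ) : Submodule K A) := by
  have key : ∀ (m : ℕ) (v : A), v ∈ Pl x a (W ^ m) → (c a * x) * v ∈ Pl x a (W ^ (m + δ)) := by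
    intro m v hv
    obtain ⟨f, hf, rfl⟩ := mem_Pl.1 hv
    rw [Finset.mul_sum]
    refine Submodule.sum_mem _ fun i _ => ?_
    rcases Nat.lt_or_ge ((i : ℕ) + 1) a with hi | hi
    · have : c a * x * (x ^ (i : ℕ) * f i) = x ^ ((i : ℕ) + 1) * (f i * c a) := by ring
      rw [this]
      refine pow_mul_mem_Pl ?_ hi
      rw [pow_add]
      exact Submodule.mul_mem_mul (hf i) (hc a le_rfl)
    · have hia : (i : ℕ) + 1 = a := by have := i.2; omega
      have hs : c a * x ^ a = - ∑ j ∈ Finset.range a, c j * x ^ j := by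
        rw [Finset.sum_range_succ] at hx
        exact eq_neg_of_add_eq_zero_right hx
      have : c a * x * (x ^ (i : ℕ) * f i) = ∑ j ∈ Finset.range a, x ^ j * (f i * (- c j)) := by
        have hxa : x ^ a = x * x ^ (i : ℕ) := by rw [← pow_succ', hia]
        calc c a * x * (x ^ (i : ℕ) * f i) = (c a * x ^ a) * f i := by rw [hxa]; ring
          _ = _ := by
            rw [hs, neg_mul, Finset.sum_mul, ← Finset.sum_neg_distrib]
            exact Finset.sum_congr rfl fun j _ => by ring
      rw [this]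
      refine Submodule.sum_mem _ fun j hj => ?_
      have hj := Finset.mem_range.1 hj
      refine pow_mul_mem_Pl ?_ hj
      rw [pow_add]
      exact Submodule.mul_mem_mul (hf i) (Submodule.neg_mem _ (hc j hj.le))
  have main : ∀ (Δ : ℕ) (v : A), v ∈ (W ⊔ Submodule.span K {x}) ^ Δ → c a ^ Δ * v ∈ Pl x a (W ^ ((δ + 1) * Δ)) := by
    intro Δ
    induction Δ with
    | zero =>
      intro v hv
      rw [pow_zero, one_mul, mul_zero, pow_zero] at *
      have : v = x ^ 0 * v := by simp
      rw [this]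
      exact pow_mul_mem_Pl hv (by omega)
    | succ Δ ih =>
      intro v hv
      rw [pow_succ'] at hv
      refine Submodule.mul_induction_on hv ?_ ?_
      · intro u hu v hv
        obtain ⟨w, hw, y, hy, rfl⟩ := Submodule.mem_sup.1 hu
        obtain ⟨k, rfl⟩ := Submodule.mem_span_singleton.1 hy
        have e : c a ^ (Δ + 1) * ((w + k • x) * v)
            = (c a * w) * (c a ^ Δ * v) + k • ((c a * x) * (c a ^ Δ * v)) := by
          simp only [Algebra.smul_def]
          ring
        rw [e]
        refine Submodule.add_mem _ ?_ (Submodule.smul_mem _ _ ?_)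
        · refine mul_Pl ?_ (ih v hv)
          intro z hz
          have : (δ + 1) * (Δ + 1) = δ + 1 + (δ + 1) * Δ := by ring
          rw [this, pow_add, pow_succ]
          exact Submodule.mul_mem_mul (Submodule.mul_mem_mul (hc a le_rfl) hw) hz
        · refine Pl_mono (pow_le_pow h1 ?_) (key _ _ (ih v hv))
          ring_nf
          omega
      · intro u v hu hv
        have e : c a ^ (Δ + 1) * (u + v) = c a ^ (Δ + 1) * u + c a ^ (Δ + 1) * v := by ring
        rw [e]
        exact Submodule.add_mem _ hu hv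
  have hfin : FiniteDimensional K (W ^ ((δ + 1) * Δ) : Submodule K A) := fin_pow hW _
  have hfin2 : FiniteDimensional K (Pl x a (W ^ ((δ + 1) * Δ))) := by
    unfold Pl
    infer_instance
  have hinj : Function.Injective (LinearMap.mulLeft K (c a ^ Δ)) := by
    intro u v huv
    exact mul_left_cancel₀ (pow_ne_zero Δ hca) huv
  calc finrank K ((W ⊔ Submodule.span K {x}) ^ Δ : Submodule K A)
      = finrank K (((W ⊔ Submodule.span K {x}) ^ Δ : Submodule K A).map (LinearMap.mulLeft K (c a ^ Δ))) :=
        (LinearEquiv.finrank_eq (Submodule.equivMapOfInjective _ hinj _))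
    _ ≤ finrank K (Pl x a (W ^ ((δ + 1) * Δ))) := by
        refine Submodule.finrank_mono ?_
        rintro _ ⟨v, hv, rfl⟩
        exact main Δ v hv
    _ ≤ a * finrank K (W ^ ((δ + 1) * Δ) : Submodule K A) := finrank_Pl _ _ _

/-- one free step -/
theorem free_step {W : Submodule K A} (hW : W.FG) (h1 : (1 : A) ∈ W) (x : A) (Δ : ℕ) :
    finrank K ((W ⊔ Submodule.span K {x}) ^ Δ : Submodule K A) ≤ (Δ + 1) * finrank K (W ^ Δ : Submodule K A) := by
  have main : ∀ (m : ℕ) (v : A), v ∈ (W ⊔ Submodule.span K {x}) ^ m → v ∈ Pl x (m + 1) (W ^ m) := by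
    intro m
    induction m with
    | zero =>
      intro v hv
      rw [pow_zero] at *
      have : v = x ^ 0 * v := by simp
      rw [this]
      exact pow_mul_mem_Pl hv (by omega)
    | succ m ih =>
      intro v hv
      rw [pow_succ'] at hv
      refine Submodule.mul_induction_on hv ?_ fun u v hu hv => Submodule.add_mem _ hu hv
      intro u hu v hv
      obtain ⟨w, hw, y, hy, rfl⟩ := Submodule.mem_sup.1 hu
      obtain ⟨k, rfl⟩ := Submodule.mem_span_singleton.1 hy
      obtain ⟨f, hf, rfl⟩ := mem_Pl.1 (ih v hv)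
      rw [Finset.mul_sum]
      refine Submodule.sum_mem _ fun i _ => ?_
      have hi := i.2
      have e : (w + k • x) * (x ^ (i : ℕ) * f i) = x ^ (i : ℕ) * (w * f i) + k • (x ^ ((i : ℕ) + 1) * f i) := by
        simp only [Algebra.smul_def]
        ring
      rw [e]
      refine Submodule.add_mem _ (pow_mul_mem_Pl ?_ (by omega)) (Submodule.smul_mem _ _ (pow_mul_mem_Pl ?_ (by omega)))
      · rw [pow_succ']
        exact Submodule.mul_mem_mul hw (hf i)
      · exact pow_le_pow h1 (Nat.le_succ m) (hf i)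
  have hfin : FiniteDimensional K (W ^ Δ : Submodule K A) := fin_pow hW _
  have hfin2 : FiniteDimensional K (Pl x (Δ + 1) (W ^ Δ)) := by
    unfold Pl
    infer_instance
  exact (Submodule.finrank_mono (main Δ)).trans (finrank_Pl _ _ _)

/-- spaces spanned by `1` and finitely many numbers -/
theorem free_many {ι : Type*} (s : Finset ι) (z : ι → A) (Δ : ℕ) :
    finrank K ((Submodule.span K (insert 1 (z '' (s : Set ι)))) ^ Δ : Submodule K A) ≤ (Δ + 1) ^ s.card := by
  classical
  induction s using Finset.induction_on with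
  | empty =>
    have : (Submodule.span K (insert (1 : A) (z '' ((∅ : Finset ι) : Set ι))) : Submodule K A) = 1 := by
      rw [Submodule.one_eq_span]
      simp
    rw [this, Finset.card_empty, pow_zero, one_pow, Submodule.one_eq_span]
    refine (finrank_span_le_card (R := K) ({(1 : A)} : Set A)).trans ?_
    simp
  | insert i s hi ih =>
    have e : (Submodule.span K (insert 1 (z '' ((insert i s : Finset ι) : Set ι))) : Submodule K A)
        = Submodule.span K (insert 1 (z '' (s : Set ι))) ⊔ Submodule.span K {z i} := by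
      rw [← Submodule.span_union]
      congr 1
      ext y
      simp only [Finset.coe_insert, Set.image_insert_eq, Set.mem_insert_iff, Set.mem_union, Set.mem_singleton_iff]
      tauto
    rw [e, Finset.card_insert_of_notMem hi, pow_succ']
    have hfg : (Submodule.span K (insert 1 (z '' (s : Set ι))) : Submodule K A).FG :=
      Submodule.fg_span ((s.finite_toSet.image z).insert 1)
    exact (free_step hfg (Submodule.subset_span (Set.mem_insert _ _)) (z i) Δ).trans (Nat.mul_le_mul_left _ ih)

end Pool.Agent.Y916.Hil
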