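import Pool.Agent.Y916.Gre

/-!
# Lower bound for Hilbert functions, and the contradiction
-/

set_option autoImplicit false

open Module

namespace Pool.Agent.Y916.Low

open Pool.Agent.Y916.Hil Pool.Agent.Y916.Gre

/-- lower bound: numbers without relation of degree at most `n * M` over `ℚ` -/
theorem lower (K : IntermediateField ℚ ℂ) [FiniteDimensional ℚ K] {n M : ℕ} (f : Fin n → ℂ) (W : Submodule K ℂ)
    (hW : W.FG) (h1 : (1 : ℂ) ∈ W) (hf : ∀ s, f s ∈ W)
    (hrel : ∀ P : MvPolynomial (Fin n) ℚ, P.totalDegree ≤ n * M → MvPolynomial.aeval f P = 0 → P = 0) :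
    (M + 1) ^ n ≤ finrank ℚ K * finrank K (W ^ (n * M) : Submodule K ℂ) := by
  have hfin : FiniteDimensional K (W ^ (n * M) : Submodule K ℂ) := fin_pow hW _
  rw [Module.finrank_mul_finrank ℚ K]
  have hfin2 : FiniteDimensional ℚ (W ^ (n * M) : Submodule K ℂ) := Module.Finite.trans K _
  have hmem : ∀ e : Fin n → Fin (M + 1), ∏ s, f s ^ (e s : ℕ) ∈ W ^ (n * M) := by
    intro e
    have h2 := prod_mem (ι := Fin n) W f (Finsupp.equivFunOnFinite.symm fun s => (e s : ℕ)) Finset.univ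
      (fun i _ _ => hf i)
    have h3 : (∑ s : Fin n, (e s : ℕ)) ≤ n * M := by
      refine (Finset.sum_le_card_nsmul Finset.univ _ M fun s _ => Nat.lt_succ_iff.1 (e s).2).trans ?_
      simp
    exact pow_le_pow h1 h3 h2
  have hli : LinearIndependent ℚ fun e : Fin n → Fin (M + 1) =>
      (⟨∏ s, f s ^ (e s : ℕ), hmem e⟩ : (W ^ (n * M) : Submodule K ℂ)) := by
    rw [Fintype.linearIndependent_iff]
    intro g hg e
    have hg' : ∑ e : Fin n → Fin (M + 1), g e • ∏ s, f s ^ (e s : ℕ) = (0 : ℂ) := by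
      have h4 := congrArg (fun v : (W ^ (n * M) : Submodule K ℂ) => (v : ℂ)) hg
      simpa using h4
    set P : MvPolynomial (Fin n) ℚ := ∑ e : Fin n → Fin (M + 1),
      MvPolynomial.monomial (Finsupp.equivFunOnFinite.symm fun s => (e s : ℕ)) (g e) with hP
    have hdeg : P.totalDegree ≤ n * M := by
      refine (MvPolynomial.totalDegree_finset_sum _ _).trans (Finset.sup_le fun e _ => ?_)
      refine (MvPolynomial.totalDegree_monomial_le _ _).trans ?_
      rw [Finsupp.sum_fintype _ _ (fun _ => rfl)]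
      refine (Finset.sum_le_card_nsmul Finset.univ _ M fun s _ => ?_).trans ?_
      · simpa using Nat.lt_succ_iff.1 (e s).2
      · simp
    have hev : MvPolynomial.aeval f P = 0 := by
      rw [hP, map_sum, ← hg']
      refine Finset.sum_congr rfl fun e _ => ?_
      rw [MvPolynomial.aeval_monomial, Finsupp.prod_fintype _ _ (fun _ => pow_zero _), Algebra.smul_def]
      simp
    have h0 := hrel P hdeg hev
    have hco := congrArg (MvPolynomial.coeff (Finsupp.equivFunOnFinite.symm fun s => (e s : ℕ))) h0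
    rw [hP, MvPolynomial.coeff_sum, MvPolynomial.coeff_zero, Finset.sum_eq_single e] at hco
    · simpa using hco
    · intro e' _ he'
      rw [MvPolynomial.coeff_monomial, if_neg]
      intro h5
      refine he' ?_
      ext s
      have h6 := DFunLike.congr_fun h5 s
      simpa using h6
    · intro h5
      exact absurd (Finset.mem_univ _) h5
  have h7 := hli.fintype_card_le_finrank
  rw [Fintype.card_fun, Fintype.card_fin, Fintype.card_fin] at h7
  exact h7

/-- the degree -/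
def Mb (D δ q n : ℕ) : ℕ := D * δ ^ q * ((2 * δ + 1) ^ q * n) ^ (n - 1)

theorem contra {ι : Type*} [DecidableEq ι] (K : IntermediateField ℚ ℂ) [FiniteDimensional ℚ K] {D δ τ n : ℕ}
    (hD : finrank ℚ K ≤ D) (w : Fin τ → ℂ) (y : ι → ℂ) (Θ S : Finset ι) (hSΘ : S ⊆ Θ) (hS : S.card = τ + 1)
    (hn : Θ.card = n) (f : Fin n → ℂ)
    (hf : ∀ s, f s ∈ Submodule.span K (insert 1 (Set.range w)) ⊔ Submodule.span K (y '' (Θ : Set ι)))
    (hub : ∀ Δ : ℕ, finrank K ((Submodule.span K (insert 1 (Set.range w)) ⊔ Submodule.span K (y '' (Θ : Set ι))) ^ Δ :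
        Submodule K ℂ) ≤ δ ^ (τ + 1) * finrank K ((Submodule.span K (insert 1 (Set.range w)) ⊔
          Submodule.span K (y '' ((Θ \ S : Finset ι) : Set ι))) ^ ((2 * δ + 1) ^ (τ + 1) * Δ) : Submodule K ℂ))
    (hrel : ∀ P : MvPolynomial (Fin n) ℚ, P.totalDegree ≤ n * Mb D δ (τ + 1) n → MvPolynomial.aeval f P = 0 → P = 0) :
    False := by
  have hVfg : (Submodule.span K (insert (1 : ℂ) (Set.range w))).FG :=
    Submodule.fg_span ((Set.finite_range w).insert 1)
  have h1 : (1 : ℂ) ∈ Submodule.span K (insert (1 : ℂ) (Set.range w)) :=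
    Submodule.subset_span (Set.mem_insert _ _)
  set M := Mb D δ (τ + 1) n with hM
  set X := (2 * δ + 1) ^ (τ + 1) * n with hX
  have hcard : τ + 1 ≤ n := by
    rw [← hS, ← hn]
    exact Finset.card_le_card hSΘ
  have hlow := lower K (M := M) f _ (fg_aux hVfg y Θ) (Submodule.mem_sup_left h1) hf hrel
  have hup := hub (n * M)
  have he : Submodule.span K (insert (1 : ℂ) (Set.range w)) ⊔ Submodule.span K (y '' ((Θ \ S : Finset ι) : Set ι))
      = Submodule.span K (insert 1 ((Sum.elim w y) '' (((Finset.univ : Finset (Fin τ)).disjSum (Θ \ S) :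
          Finset (Fin τ ⊕ ι)) : Set (Fin τ ⊕ ι)))) := by
    rw [← Submodule.span_union]
    congr 1
    ext v
    simp only [Set.mem_union, Set.mem_insert_iff, Set.mem_range, Set.mem_image, Finset.mem_coe, Finset.mem_sdiff,
      Finset.mem_disjSum, Finset.mem_univ, true_and]
    constructor
    · rintro ((h | ⟨i, rfl⟩) | ⟨i, hi, rfl⟩)
      · exact Or.inl h
      · exact Or.inr ⟨Sum.inl i, Or.inl ⟨i, rfl⟩, rfl⟩
      · exact Or.inr ⟨Sum.inr i, Or.inr ⟨i, hi, rfl⟩, rfl⟩
    · rintro (h | ⟨x, ⟨i, rfl⟩ | ⟨i, hi, rfl⟩, rfl⟩)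
      · exact Or.inl (Or.inl h)
      · exact Or.inl (Or.inr ⟨i, rfl⟩)
      · exact Or.inr ⟨i, hi, rfl⟩
  have hfree : finrank K ((Submodule.span K (insert 1 (Set.range w)) ⊔
      Submodule.span K (y '' ((Θ \ S : Finset ι) : Set ι))) ^ ((2 * δ + 1) ^ (τ + 1) * (n * M)) : Submodule K ℂ)
      ≤ ((2 * δ + 1) ^ (τ + 1) * (n * M) + 1) ^ (n - 1) := by
    rw [he]
    refine (free_many (K := K) _ (Sum.elim w y) _).trans (le_of_eq ?_)
    rw [Finset.card_disjSum, Finset.card_univ, Fintype.card_fin, Finset.card_sdiff_of_subset hSΘ, hS, hn]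
    congr 1
    omega
  have hXM : (2 * δ + 1) ^ (τ + 1) * (n * M) + 1 ≤ X * (M + 1) := by
    have hXpos : 1 ≤ X := Nat.one_le_iff_ne_zero.2 (Nat.mul_ne_zero (by positivity) (by omega))
    have : (2 * δ + 1) ^ (τ + 1) * (n * M) = X * M := by rw [hX]; ring
    rw [this]
    nlinarith
  have hfin : (M + 1) ^ n ≤ (D * δ ^ (τ + 1) * X ^ (n - 1)) * (M + 1) ^ (n - 1) := by
    calc (M + 1) ^ n ≤ finrank ℚ K * (δ ^ (τ + 1) * (X * (M + 1)) ^ (n - 1)) :=
          hlow.trans (Nat.mul_le_mul_left _ (hup.trans (Nat.mul_le_mul_left _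
            (hfree.trans (Nat.pow_le_pow_left hXM _)))))
      _ ≤ D * (δ ^ (τ + 1) * (X * (M + 1)) ^ (n - 1)) := Nat.mul_le_mul_right _ hD
      _ = _ := by rw [mul_pow]; ring
  have hMe : D * δ ^ (τ + 1) * X ^ (n - 1) = M := rfl
  rw [hMe] at hfin
  have hpos : 0 < (M + 1) ^ (n - 1) := by positivity
  have hn1 : (M + 1) ^ n = (M + 1) * (M + 1) ^ (n - 1) := by
    rw [← pow_succ']
    congr 1
    omega
  rw [hn1] at hfin
  have := Nat.le_of_mul_le_mul_right hfin hpos
  omega

end Pool.Agent.Y916.Low
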