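import Pool.Agent.Y916.TupN

/-!
# Tuples of primes
-/

set_option autoImplicit false

open Module

namespace Pool.Agent.Y916

theorem primes (k δ d D : ℕ) :
    ∃ c : ℝ, 0 < c ∧ ∃ C : ℝ, ∀ V : Submodule ℚ ℂ, Module.Finite ℚ V → finrank ℚ V ≤ D → ∀ T : ℕ, 1 ≤ T →
      {n : Fin k → ℕ | (∀ i, (n i).Prime ∧ n i ≤ T) ∧ ∃ l : Fin k → ℂ,
        (∀ i, Complex.exp (l i) = n i) ∧ ∃ L : IntermediateField ℚ ℂ, FiniteDimensional ℚ L ∧
        finrank ℚ L ≤ d ∧ ∃ P : MvPolynomial (Fin k) ℂ, P ≠ 0 ∧ P.totalDegree ≤ δ ∧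
        (∀ s, P.coeff s ∈ Submodule.span L (V : Set ℂ)) ∧ MvPolynomial.aeval l P = 0}.Finite ∧
      ({n : Fin k → ℕ | (∀ i, (n i).Prime ∧ n i ≤ T) ∧ ∃ l : Fin k → ℂ,
        (∀ i, Complex.exp (l i) = n i) ∧ ∃ L : IntermediateField ℚ ℂ, FiniteDimensional ℚ L ∧
        finrank ℚ L ≤ d ∧ ∃ P : MvPolynomial (Fin k) ℂ, P ≠ 0 ∧ P.totalDegree ≤ δ ∧
        (∀ s, P.coeff s ∈ Submodule.span L (V : Set ℂ)) ∧ MvPolynomial.aeval l P = 0}.ncard : ℝ)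
        ≤ C * (T : ℝ) ^ ((k : ℝ) - c) := by
  obtain ⟨c, hc, C, hC⟩ := tuples_nf (r := 1) (fun _ => (0 : ℂ)) (fun _ => isAlgebraic_zero)
    (fun a b _ => Subsingleton.elim a b) k δ d D
  refine ⟨c, hc, C, fun V hV hVD T hT => ?_⟩
  obtain ⟨hf, hn⟩ := hC V hV hVD T hT
  have hsub : {n : Fin k → ℕ | (∀ i, (n i).Prime ∧ n i ≤ T) ∧ ∃ l : Fin k → ℂ,
        (∀ i, Complex.exp (l i) = n i) ∧ ∃ L : IntermediateField ℚ ℂ, FiniteDimensional ℚ L ∧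
        finrank ℚ L ≤ d ∧ ∃ P : MvPolynomial (Fin k) ℂ, P ≠ 0 ∧ P.totalDegree ≤ δ ∧
        (∀ s, P.coeff s ∈ Submodule.span L (V : Set ℂ)) ∧ MvPolynomial.aeval l P = 0} ⊆
      {n : Fin k → ℕ | (∀ i, 2 ≤ n i ∧ n i ≤ T) ∧ ∃ l : Fin k × Fin 1 → ℂ,
        (∀ p, Complex.exp (l p) = n p.1 + (fun _ => (0 : ℂ)) p.2) ∧ ∃ L : IntermediateField ℚ ℂ, FiniteDimensional ℚ L ∧
        finrank ℚ L ≤ d ∧ ∃ P : MvPolynomial (Fin k × Fin 1) ℂ, P ≠ 0 ∧ P.totalDegree ≤ δ ∧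
        (∀ s, P.coeff s ∈ Submodule.span L (V : Set ℂ)) ∧ MvPolynomial.aeval l P = 0} := by
    rintro n ⟨hn, l, hl, L, hLf, hLd, P, hP0, hPd, hPc, hPv⟩
    let e : Fin k ≃ Fin k × Fin 1 := (Equiv.prodUnique (Fin k) (Fin 1)).symm
    refine ⟨fun i => ⟨(hn i).1.two_le, (hn i).2⟩, fun p => l p.1, fun p => ?_, L, hLf, hLd,
      MvPolynomial.rename e P, ?_, ?_, ?_, ?_⟩
    · rw [hl]
      simp
    · intro h0
      exact hP0 (MvPolynomial.rename_injective e e.injective (h0.trans (map_zero _).symm))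
    · exact (MvPolynomial.totalDegree_rename_le _ _).trans hPd
    · intro s
      have h1 : s = Finsupp.mapDomain e (Finsupp.mapDomain e.symm s) := by
        rw [← Finsupp.mapDomain_comp]
        simp
      rw [h1, MvPolynomial.coeff_rename_mapDomain e e.injective]
      exact hPc _
    · rw [MvPolynomial.aeval_rename]
      exact hPv
  refine ⟨hf.subset hsub, le_trans ?_ hn⟩
  exact Nat.cast_le.2 (Set.ncard_le_ncard hsub hf)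

end Pool.Agent.Y916
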