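import Pool.Agent.Y916.ST

/-!
# Final forms: hypotheses on the polynomials, integrals with `q √F`
-/

set_option autoImplicit false

open Module

namespace Pool.Agent.Y916.Sa

open Pool.Agent.Y113 Pool.Agent.Y916.Hy Pool.Agent.Y916.Fld Pool.Agent.Y916.AW

theorem lead_pos' (P : Polynomial ℝ) (c : ℝ) (h : ∀ x ≥ c, 0 < P.eval x) : 0 < P.leadingCoeff := by
  rcases Nat.eq_zero_or_pos P.natDegree with h0 | h0
  · rw [Polynomial.eq_C_of_natDegree_eq_zero h0] at h ⊢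
    have := h c le_rfl
    simpa using this
  · have hP0 : P.leadingCoeff ≠ 0 := by
      rw [Polynomial.leadingCoeff_ne_zero]
      rintro rfl
      simp at h0
    by_contra hcon
    have h1 : P.leadingCoeff ≤ 0 := not_lt.1 hcon
    have h2 : 0 < P.degree := Polynomial.natDegree_pos_iff_degree_pos.1 h0
    have h3 := Polynomial.tendsto_atBot_of_leadingCoeff_nonpos _ h2 h1
    obtain ⟨x, hx1, hx2⟩ := ((h3.eventually_lt_atBot 0).and (Filter.eventually_ge_atTop c)).exists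
    exact absurd (h x hx2) (not_lt.2 hx1.le)

theorem lead_posZ (P : Polynomial ℤ) (c : ℝ) (h : ∀ x ≥ c, 0 < (P.map (Int.castRingHom ℝ)).eval x) :
    0 < P.leadingCoeff := by
  have h1 := lead_pos' _ c h
  rw [Polynomial.leadingCoeff_map_of_injective (RingHom.injective_int (Int.castRingHom ℝ))] at h1
  have h2 : (0 : ℝ) < (P.leadingCoeff : ℝ) := h1
  exact_mod_cast h2

theorem good_of {F q : Polynomial ℤ} (hsf : Squarefree ((F * q).map (Int.castRingHom ℚ))) (hodd : Odd F.natDegree)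
    (hdeg : 3 ≤ F.natDegree + 2 * q.natDegree) {c : ℝ} (hF : ∀ x ≥ c, 0 < (F.map (Int.castRingHom ℝ)).eval x)
    (hq : ∀ x ≥ c, 0 < (q.map (Int.castRingHom ℝ)).eval x) : GoodP F q := by
  rw [Polynomial.map_mul, squarefree_mul_iff] at hsf
  exact ⟨hsf.2.1, hodd, lead_posZ F c hF, hsf.2.2, lead_posZ q c hq, hsf.1.isCoprime, hdeg⟩

theorem pos_of {F q : Polynomial ℤ} {c : ℝ} (hF : ∀ x ≥ c, 0 < (F.map (Int.castRingHom ℝ)).eval x)
    (hq : ∀ x ≥ c, 0 < (q.map (Int.castRingHom ℝ)).eval x) (x : ℝ) (hx : x ≥ c) :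
    0 < ((F * q ^ 2).map (Int.castRingHom ℝ)).eval x := by
  rw [Polynomial.map_mul, Polynomial.map_pow, Polynomial.eval_mul, Polynomial.eval_pow]
  exact mul_pos (hF x hx) (pow_pos (hq x hx) 2)

/-- the integrals `∫_c^x s^j ds / (q(s) √F(s))` -/
noncomputable def JJ (F q : Polynomial ℤ) (c : ℝ) (j : ℕ) (x : ℝ) : ℝ :=
  ∫ s in c..x, s ^ j / ((q.map (Int.castRingHom ℝ)).eval s * √((F.map (Int.castRingHom ℝ)).eval s))

theorem JJ_eq {F q : Polynomial ℤ} {c : ℝ} (hF : ∀ x ≥ c, 0 < (F.map (Int.castRingHom ℝ)).eval x)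
    (hq : ∀ x ≥ c, 0 < (q.map (Int.castRingHom ℝ)).eval x) (j : ℕ) (x : ℝ) (hx : c ≤ x) :
    JJ F q c j x = J (F * q ^ 2) c j x := by
  unfold JJ J
  refine intervalIntegral.integral_congr fun v hv => ?_
  rw [Set.uIcc_of_le hx] at hv
  change v ^ j / ((q.map (Int.castRingHom ℝ)).eval v * √((F.map (Int.castRingHom ℝ)).eval v)) =
    v ^ j / √(((F * q ^ 2).map (Int.castRingHom ℝ)).eval v)
  rw [Polynomial.map_mul, Polynomial.map_pow, Polynomial.eval_mul, Polynomial.eval_pow,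
    Real.sqrt_mul (hF v hv.1).le, Real.sqrt_sq (hq v hv.1).le, mul_comm (Polynomial.eval v (q.map _))]

/-- the numbers at the integer `m` -/
noncomputable def num {s : ℕ} (F q : Fin s → Polynomial ℤ) (c : ℝ) (m : ℕ) :
    (Σ a, Fin ((F a).natDegree - 1 + (q a).natDegree)) ⊕ Unit → ℂ
  | Sum.inl ⟨a, j⟩ => ((JJ (F a) (q a) c j m : ℝ) : ℂ)
  | Sum.inr _ => ((Real.log m : ℝ) : ℂ)

theorem num_eq {s : ℕ} {F q : Fin s → Polynomial ℤ} {c : ℝ}
    (hF : ∀ a, ∀ x ≥ c, 0 < ((F a).map (Int.castRingHom ℝ)).eval x)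
    (hq : ∀ a, ∀ x ≥ c, 0 < ((q a).map (Int.castRingHom ℝ)).eval x) {m : ℕ} (hm : c ≤ m)
    (i : (Σ a, Fin ((F a).natDegree - 1 + (q a).natDegree)) ⊕ Unit) :
    num F q c m i = xs (PP F q) (mm F q) c m i := by
  rcases i with ⟨a, j⟩ | u
  · change ((JJ (F a) (q a) c j m : ℝ) : ℂ) = ((J (PP F q a) c j m : ℝ) : ℂ)
    rw [JJ_eq (hF a) (hq a) j m hm]
    rfl
  · rfl

/-- tuples, final form -/
theorem tuplesFin {s : ℕ} (F q : Fin s → Polynomial ℤ)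
    (hsf : ∀ a, Squarefree ((F a * q a).map (Int.castRingHom ℚ))) (hodd : ∀ a, Odd (F a).natDegree)
    (hdeg : ∀ a, 3 ≤ (F a).natDegree + 2 * (q a).natDegree) (hD : Dist F) (c : ℝ)
    (hc : ∀ a, ∀ x ≥ c, 0 < ((F a).map (Int.castRingHom ℝ)).eval x ∧ 0 < ((q a).map (Int.castRingHom ℝ)).eval x)
    {r : ℕ} (θ : Fin r → ℕ) (hθ : Function.Injective θ) (k δ d D : ℕ) :
    ∃ c₀ : ℝ, 0 < c₀ ∧ ∃ C : ℝ, ∀ V : Submodule ℚ ℂ, Module.Finite ℚ V → finrank ℚ V ≤ D → ∀ T : ℕ, 1 ≤ T →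
      {n : Fin k → ℕ | (∀ i, 2 ≤ n i ∧ c ≤ n i ∧ n i ≤ T) ∧ RelA δ d V
        fun p : (Fin k × Fin r) × ((Σ a, Fin ((F a).natDegree - 1 + (q a).natDegree)) ⊕ Unit) =>
          num F q c (n p.1.1 + θ p.1.2) p.2}.Finite ∧
      ({n : Fin k → ℕ | (∀ i, 2 ≤ n i ∧ c ≤ n i ∧ n i ≤ T) ∧ RelA δ d V
        fun p : (Fin k × Fin r) × ((Σ a, Fin ((F a).natDegree - 1 + (q a).natDegree)) ⊕ Unit) =>
          num F q c (n p.1.1 + θ p.1.2) p.2}.ncard : ℝ) ≤ C * (T : ℝ) ^ ((k : ℝ) - c₀) := by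
  have hG : ∀ a, GoodP (F a) (q a) := fun a =>
    good_of (hsf a) (hodd a) (hdeg a) (fun x hx => (hc a x hx).1) (fun x hx => (hc a x hx).2)
  obtain ⟨c₀, hc₀, C, -, h⟩ := tuplesS hG hD (c := c)
    (fun a x hx => pos_of (fun x hx => (hc a x hx).1) (fun x hx => (hc a x hx).2) x hx) θ hθ k δ d D
  refine ⟨c₀, hc₀, C, fun V hV hVD T hT => ?_⟩
  obtain ⟨h1, h2⟩ := h V hV hVD T hT
  have hsub : {n : Fin k → ℕ | (∀ i, 2 ≤ n i ∧ c ≤ n i ∧ n i ≤ T) ∧ RelA δ d V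
        fun p : (Fin k × Fin r) × ((Σ a, Fin ((F a).natDegree - 1 + (q a).natDegree)) ⊕ Unit) =>
          num F q c (n p.1.1 + θ p.1.2) p.2} ⊆
      {n : Fin k → ℕ | (∀ i, 2 ≤ n i ∧ n i ≤ T) ∧ RelA δ d V fun p : (Fin k × Fin r) × Tau (mm F q) =>
        xs (PP F q) (mm F q) c (n p.1.1 + θ p.1.2) p.2} := by
    rintro n ⟨hn, hrel⟩
    refine ⟨fun i => ⟨(hn i).1, (hn i).2.2⟩, ?_⟩
    have h3 : (fun p : (Fin k × Fin r) × ((Σ a, Fin ((F a).natDegree - 1 + (q a).natDegree)) ⊕ Unit) =>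
          num F q c (n p.1.1 + θ p.1.2) p.2) = fun p : (Fin k × Fin r) × Tau (mm F q) =>
        xs (PP F q) (mm F q) c (n p.1.1 + θ p.1.2) p.2 := by
      funext p
      refine num_eq (fun a x hx => (hc a x hx).1) (fun a x hx => (hc a x hx).2) ?_ p.2
      have h4 := (hn p.1.1).2.1
      push_cast
      have : (0 : ℝ) ≤ (θ p.1.2 : ℝ) := Nat.cast_nonneg _
      linarith
    rw [h3] at hrel
    exact hrel
  refine ⟨h1.subset hsub, le_trans ?_ h2⟩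
  exact_mod_cast Set.ncard_le_ncard hsub h1

end Pool.Agent.Y916.Sa
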