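import Pool.Agent.Y916.HQ
import Pool.Agent.Y916.SE
import Pool.Agent.Y201.SA.Kap
import Pool.Agent.Y67.SA.LIS
import Pool.Agent.Y960.SA.Vals

/-!
# Integrals of all three kinds on several hyperelliptic curves: the link with the values of the power series
-/

set_option autoImplicit false

open Module PowerSeries

namespace Pool.Agent.Y916.Sa

open Pool.Agent.Y113 Pool.Agent.Y916.Hy Pool.Agent.Y916.Fld Pool.Agent.Y916.AW

theorem valsT : S_vals :=
  Pool.Agent.Y960.SA.vals_of Pool.Agent.Y419.HY.t_rt Pool.Agent.Y419.HY.t_alg Pool.Agent.Y419.HY.t_eint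
    (Pool.Agent.Y201.SA.t_kap Pool.Agent.Y419.HY.t_rt)

theorem lisT : S_lis := Pool.Agent.Y67.SA.t_lis Pool.Agent.Y419.HY.t_rt

theorem hevoT : S_hevo := t_hevo Pool.Agent.Y419.HY.t_rt Pool.Agent.Y419.HY.t_alg

/-- the values -/
noncomputable def vs {s : ℕ} (P : Fin s → Polynomial ℤ) (m : Fin s → ℕ) (t g : ℕ) (i : Tau m) : ℂ :=
  ((ev (t : ℝ) (Yg P m g i) : ℝ) : ℂ)

/-- the polynomial under the root -/
noncomputable def PP {s : ℕ} (F q : Fin s → Polynomial ℤ) (a : Fin s) : Polynomial ℤ := F a * q a ^ 2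

/-- the number of differentials -/
def mm {s : ℕ} (F q : Fin s → Polynomial ℤ) (a : Fin s) : ℕ := (F a).natDegree - 1 + (q a).natDegree

theorem goodO {F q : Polynomial ℤ} (h : GoodP F q) : GoodO (F * q ^ 2) ∧
    F.natDegree - 1 + q.natDegree < (F * q ^ 2).natDegree := by
  have hF : F ≠ 0 := by
    rintro rfl
    exact absurd h.pos (by simp)
  have hq : q ≠ 0 := by
    rintro rfl
    exact absurd h.qpos (by simp)
  have hd : (F * q ^ 2).natDegree = F.natDegree + 2 * q.natDegree := by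
    rw [Polynomial.natDegree_mul hF (pow_ne_zero 2 hq), Polynomial.natDegree_pow]
  obtain ⟨k, hk⟩ := h.odd
  refine ⟨⟨?_, ?_, ?_⟩, ?_⟩
  · rw [hd]
    exact ⟨k + q.natDegree, by rw [hk]; ring⟩
  · rw [hd]
    exact h.deg
  · rw [Polynomial.leadingCoeff_mul, Polynomial.leadingCoeff_pow]
    exact mul_pos h.pos (pow_pos h.qpos 2)
  · rw [hd]
    omega

theorem inpS {s : ℕ} {F q : Fin s → Polynomial ℤ} (hG : ∀ a, GoodP (F a) (q a)) (hD : Dist F) :
    Inp (vs (PP F q) (mm F q)) := by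
  intro N Δ
  obtain ⟨E, hE⟩ := valsT s (PP F q) (mm F q) (fun a => goodO (hG a)) (lisT s F q hG hD) N Δ
  refine ⟨E, fun H t ht g hg hgb P hP hP0 => ?_⟩
  refine hE H t ht g hg hgb P hP ?_
  have h5 := MvPolynomial.aeval_algebraMap_apply (A := ℝ) ℂ
    (fun x : Fin N × Tau (mm F q) => ev (t : ℝ) (Yg (PP F q) (mm F q) (g x.1) x.2)) P
  have h6 : MvPolynomial.aeval (algebraMap ℝ ℂ ∘ fun x : Fin N × Tau (mm F q) =>
      ev (t : ℝ) (Yg (PP F q) (mm F q) (g x.1) x.2)) P = (0 : ℂ) := hP0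
  rw [h6] at h5
  exact (algebraMap ℝ ℂ).injective (h5.symm.trans (map_zero _).symm)

/-- the numbers -/
noncomputable def xs {s : ℕ} (P : Fin s → Polynomial ℤ) (m : Fin s → ℕ) (c : ℝ) (n : ℕ) : Tau m → ℂ
  | Sum.inl aj => ((J (P aj.1) c aj.2 n : ℝ) : ℂ)
  | Sum.inr _ => ((Real.log n : ℝ) : ℂ)

/-- the constants -/
noncomputable def ws {s : ℕ} (m : Fin s → ℕ) (κ : Fin s → ℕ → ℝ) (t : ℕ) : Tau m → ℂ
  | Sum.inl aj => ((κ aj.1 aj.2 : ℝ) : ℂ)
  | Sum.inr _ => ((Real.log t : ℝ) : ℂ)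

/-- the link -/
theorem linkX {s : ℕ} {F q : Fin s → Polynomial ℤ} (hG : ∀ a, GoodP (F a) (q a)) {c : ℝ}
    (hc : ∀ a, ∀ x ≥ c, 0 < ((PP F q a).map (Int.castRingHom ℝ)).eval x) :
    ∃ (κ : Fin s → ℕ → ℝ) (E : ℕ), ∀ t : ℕ, ∃ K : IntermediateField ℚ ℂ, FiniteDimensional ℚ K ∧
      finrank ℚ K ≤ 2 ^ (s + 1) ∧ ∀ g : ℕ, (g + 2) ^ E ≤ t → ∀ i, ∃ a : K, a ≠ 0 ∧
        xs (PP F q) (mm F q) c (t + g) i - a * vs (PP F q) (mm F q) t g i = ws (mm F q) κ t i := by
  classical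
  have hO := fun a => goodO (hG a)
  choose κ E hE using fun a => hevoT (PP F q a) (hO a).1 c (hc a)
  refine ⟨κ, ∑ a, E a + 1, fun t => ?_⟩
  set Θ : Finset ℂ := insert ((√(t : ℝ) : ℝ) : ℂ)
    (Finset.univ.image fun a => ((√((PP F q a).leadingCoeff : ℝ) : ℝ) : ℂ)) with hΘ
  obtain ⟨K, -, hK1, hK2, hK3⟩ := field ⊥ inferInstance 2 Θ (by
    intro z hz
    rw [hΘ, Finset.mem_insert, Finset.mem_image] at hz
    rcases hz with rfl | ⟨a, -, rfl⟩
    · exact sqrt_deg _ (t : ℤ) (Nat.cast_nonneg _) (by simp)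
    · have h0 : (0 : ℝ) ≤ (PP F q a).leadingCoeff := by exact_mod_cast (hO a).1.pos.le
      exact sqrt_deg _ (PP F q a).leadingCoeff h0 rfl)
  have hst : ((√(t : ℝ) : ℝ) : ℂ) ∈ K := hK1 (IntermediateField.subset_adjoin ℚ _ (by simp [hΘ]))
  have hsa : ∀ a, ((√((PP F q a).leadingCoeff : ℝ) : ℝ) : ℂ) ∈ K := fun a =>
    hK1 (IntermediateField.subset_adjoin ℚ _ (by simp [hΘ]))
  refine ⟨K, hK2, ?_, ?_⟩
  · refine hK3.trans ?_
    rw [IntermediateField.finrank_bot, one_mul]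
    refine Nat.pow_le_pow_right (by norm_num) ?_
    rw [hΘ]
    refine (Finset.card_insert_le _ _).trans (Nat.succ_le_succ ?_)
    refine Finset.card_image_le.trans ?_
    rw [Finset.card_univ, Fintype.card_fin]
  intro g hgt i
  have hgt' : g < t := by
    have h1 : g + 2 ≤ (g + 2) ^ (∑ a, E a + 1) := Nat.le_self_pow (by omega) _
    omega
  have ht0 : (0 : ℝ) < t := by
    have : 0 < t := by omega
    exact_mod_cast this
  rcases i with ⟨a, j⟩ | u
  · have hgE : (g + 2) ^ E a ≤ t := by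
      refine (Nat.pow_le_pow_right (by omega) ?_).trans hgt
      have := Finset.single_le_sum (f := E) (fun _ _ => Nat.zero_le _) (Finset.mem_univ a)
      omega
    have ha0 : (0 : ℝ) < (PP F q a).leadingCoeff := by exact_mod_cast (hO a).1.pos
    have hst0 : ((√(t : ℝ) : ℝ) : ℂ) ≠ 0 := by
      rw [Complex.ofReal_ne_zero]
      exact (Real.sqrt_pos.2 ht0).ne'
    have hsa0 : ((√((PP F q a).leadingCoeff : ℝ) : ℝ) : ℂ) ≠ 0 := by
      rw [Complex.ofReal_ne_zero]
      exact (Real.sqrt_pos.2 ha0).ne'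
    set e : ℤ := 2 * ((j : ℕ) : ℤ) + 2 - (PP F q a).natDegree with he
    refine ⟨-((⟨_, hst⟩ : K) ^ e / ⟨_, hsa a⟩), ?_, ?_⟩
    · rw [neg_ne_zero]
      refine div_ne_zero (zpow_ne_zero _ ?_) ?_
      · intro h
        exact hst0 (congrArg (fun x : K => (x : ℂ)) h)
      · intro h
        exact hsa0 (congrArg (fun x : K => (x : ℂ)) h)
    · have hj : (j : ℕ) < (PP F q a).natDegree - 1 := by
        have h1 := (hO a).2
        have h2 : (j : ℕ) < (F a).natDegree - 1 + (q a).natDegree := j.2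
        have h3 : (PP F q a).natDegree = (F a * q a ^ 2).natDegree := rfl
        have h4 := (hG a).odd.pos
        have hF : F a ≠ 0 := by
          intro h
          rw [h] at h4
          simp at h4
        have hq : q a ≠ 0 := by
          intro h
          have := (hG a).qpos
          rw [h] at this
          simp at this
        have hd : (F a * q a ^ 2).natDegree = (F a).natDegree + 2 * (q a).natDegree := by
          rw [Polynomial.natDegree_mul hF (pow_ne_zero 2 hq), Polynomial.natDegree_pow]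
        have h5 := (hG a).deg
        rw [h3, hd]
        omega
      have h1 := hE a g t hgE g le_rfl j hj
      have h2 : xs (PP F q) (mm F q) c (t + g) (Sum.inl ⟨a, j⟩) = ((J (PP F q a) c j ((t : ℝ) + g) : ℝ) : ℂ) := by
        simp only [xs]
        push_cast
        rfl
      have h3 : ((-((⟨_, hst⟩ : K) ^ e / ⟨_, hsa a⟩) : K) : ℂ) = -(((√(t : ℝ) : ℝ) : ℂ) ^ e /
          ((√((PP F q a).leadingCoeff : ℝ) : ℝ) : ℂ)) := by
        push_cast
        rfl
      rw [h2, h1, h3]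
      unfold vs ws Yg
      push_cast
      ring
  · refine ⟨1, one_ne_zero, ?_⟩
    have h1 : ev (t : ℝ) (Yg (PP F q) (mm F q) g (Sum.inr u)) = Real.log (t + g) - Real.log t :=
      ev_log (F := Polynomial.X) hgt' u
    unfold vs
    rw [h1]
    simp only [xs, ws]
    push_cast
    ring

end Pool.Agent.Y916.Sa
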