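import Pool.Agent.Y916.Fld
import Pool.Agent.Y916.Stm

/-!
# The values of the functions `∫ z^s / T` are combinations of the logarithms `log (1 + z / t)`
-/

set_option autoImplicit false

open Module

namespace Pool.Agent.Y916

open Pool.Agent.Y916.Hil Pool.Agent.Y916.Gre Pool.Agent.Y916.Low Pool.Agent.Y916.Ari Pool.Agent.Y916.Fld
open Pool.Agent.Y113

theorem val_mem (hpart : S_part) {H a t : ℕ} {T : Polynomial ℤ} {Θ : Finset ℂ} (ha : 1 ≤ a) (ht : H + 2 ≤ t)
    (hT : T.map (Int.castRingHom ℂ) = ∏ z ∈ Θ, (1 - Polynomial.C (-((a : ℂ) * z)) * Polynomial.X))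
    (hΘ : ∀ z ∈ Θ, ‖z‖ ≤ H + 1) (hΘ0 : ∀ z ∈ Θ, z ≠ 0) (K : IntermediateField ℚ ℂ)
    (hK : IntermediateField.adjoin ℚ (Θ : Set ℂ) ≤ K) (V : Submodule K ℂ)
    (hy : ∀ z ∈ Θ, Complex.log (1 + z / t) ∈ V) (s : ℕ) (hs : s < Θ.card) :
    ((ev ((a * t : ℕ) : ℝ) (F T s) : ℝ) : ℂ) ∈ V := by
  classical
  have ha0 : (a : ℂ) ≠ 0 := by
    have : a ≠ 0 := by omega
    exact_mod_cast this
  have ht0 : (t : ℂ) ≠ 0 := by
    have : t ≠ 0 := by omega
    exact_mod_cast this
  set g : ℂ → ℂ := fun z => -((a : ℂ) * z) with hg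
  have hinj : Function.Injective g := by
    intro z z' h
    exact mul_left_cancel₀ ha0 (neg_injective h)
  have hg0 : (0 : ℂ) ∉ Θ.image g := by
    rw [Finset.mem_image]
    rintro ⟨z, hz, h0⟩
    exact hΘ0 z hz ((mul_eq_zero.1 (neg_eq_zero.1 h0)).resolve_left ha0)
  have hmap : T.map (Int.castRingHom ℂ) = ∏ z ∈ Θ.image g, (1 - Polynomial.C z * Polynomial.X) := by
    rw [hT, Finset.prod_image fun z _ z' _ h => hinj h]
  obtain ⟨b, hb, hsum⟩ := hpart (Θ.image g) T hg0 hmap s (by rwa [Finset.card_image_of_injective _ hinj])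
  have hpos : (0 : ℝ) < ((a * t : ℕ) : ℝ) := by
    have : 0 < a * t := Nat.mul_pos (by omega) (by omega)
    exact_mod_cast this
  have hbound : ∀ z ∈ Θ.image g, ‖z‖ < ((a * t : ℕ) : ℝ) := by
    intro z' hz'
    obtain ⟨z, hz, rfl⟩ := Finset.mem_image.1 hz'
    rw [hg]
    simp only
    rw [norm_neg, norm_mul, Complex.norm_natCast]
    push_cast
    have h1 := hΘ z hz
    have h3 : (0 : ℝ) < (a : ℝ) := by
      have : 0 < a := by omega
      exact_mod_cast this
    have h4 : (H : ℝ) + 2 ≤ t := by exact_mod_cast ht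
    nlinarith
  rw [hsum _ hpos hbound, Finset.sum_image fun z _ z' _ h => hinj h]
  have hadj : IntermediateField.adjoin ℚ ((Θ.image g : Finset ℂ) : Set ℂ) ≤ K := by
    rw [IntermediateField.adjoin_le_iff]
    intro z' hz'
    obtain ⟨z, hz, rfl⟩ := Finset.mem_image.1 hz'
    have h1 : z ∈ K := hK (IntermediateField.subset_adjoin ℚ _ hz)
    exact K.neg_mem (K.mul_mem (natCast_mem K a) h1)
  refine Submodule.sum_mem _ fun z hz => ?_
  have hbK : b (g z) ∈ K := hadj (hb _)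
  have hlog : Complex.log (1 - g z / (((a * t : ℕ) : ℝ) : ℂ)) = Complex.log (1 + z / t) := by
    congr 1
    rw [hg]
    push_cast
    field_simp
    ring
  rw [hlog]
  have : b (g z) * Complex.log (1 + z / t) = (⟨b (g z), hbK⟩ : K) • Complex.log (1 + z / t) := rfl
  rw [this]
  exact Submodule.smul_mem _ _ (hy z hz)

end Pool.Agent.Y916
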